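import Mathlib

set_option autoImplicit false
set_option linter.all false

namespace Pool.Agent.Helper289.UO

open Filter Topology

/-- the free group on the letters `0,1,2,...` -/
abbrev F := FreeGroup ℕ

/-- the letter `y_n` (`e = true`) or its inverse (`e = false`) -/
def yy (n : ℕ) (e : Bool) : F := FreeGroup.mk [(n, e)]

/-- subgroup generated by the letters `< n` -/
def L (n : ℕ) : Subgroup F := Subgroup.closure {w | ∃ i, i < n ∧ w = FreeGroup.of i}

/-- the reduced word of `w` starts with the letter `(n,e)` -/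
def St (n : ℕ) (e : Bool) (w : F) : Prop := w.toWord.head? = some (n, e)

/-- `Reach C ε c w`: `w` is a product of elements `g⁻¹ y_n^{±1} g` (`g ∈ C n`, price `ε n`) of total price `c`. -/
inductive Reach (C : ℕ → Set F) (ε : ℕ → ℝ) : ℝ → F → Prop
  | one : Reach C ε 0 1
  | step (c : ℝ) (w : F) (n : ℕ) (e : Bool) (g : F) (hr : Reach C ε c w) (hg : g ∈ C n) :
      Reach C ε (c + ε n) (w * (g⁻¹ * yy n e * g))

/-- the word norm -/
noncomputable def N (C : ℕ → Set F) (ε : ℕ → ℝ) (w : F) : ℝ := sInf {c | Reach C ε c w}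

/-- general hypotheses on `C, ε` -/
structure Good (C : ℕ → Set F) (ε : ℕ → ℝ) : Prop where
  sub : ∀ n, C n ⊆ (L n : Set F)
  ne : ∀ n, (C n).Nonempty
  fin : ∀ n, (C n).Finite
  pos : ∀ n, 0 ≤ ε n

/-- gate property of `Z` for the points of `L n` -/
def Gated (C : ℕ → Set F) (ε : ℕ → ℝ) (n : ℕ) (Z : Set F) : Prop :=
  Z ⊆ (L n : Set F) ∧ Z.Finite ∧ Z.Nonempty ∧
    ∀ w ∈ L n, ∃ p ∈ Z, ∀ z ∈ Z, N C ε (w⁻¹ * z) = N C ε (w⁻¹ * p) + N C ε (p⁻¹ * z)

/-- positive semidefiniteness of the kernel `exp (-N (x⁻¹ y))` on `S` -/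
def PSDOn (K : F → ℝ) (S : Set F) : Prop :=
  ∀ (T : Finset F), (T : Set F) ⊆ S → ∀ c : F → ℝ, 0 ≤ ∑ x ∈ T, ∑ y ∈ T, c x * c y * K (x⁻¹ * y)

/-- parent of a node (node `0` is the root) -/
def par (n : ℕ) : ℕ := (Nat.unpair (n - 1)).1

/-- label of a node -/
def lab (n : ℕ) : ℕ := (Nat.unpair (n - 1)).2

theorem unpair_lt (n : ℕ) : (Nat.unpair n).1 < n + 1 := Nat.lt_succ_of_le (Nat.unpair_left_le n)

/-- depth of a node -/
def dep : ℕ → ℕ
  | 0 => 0
  | (n + 1) => dep (Nat.unpair n).1 + 1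
decreasing_by exact unpair_lt n

/-- the element attached to a node: product of the letters along the path from the root -/
def xx : ℕ → F
  | 0 => 1
  | (n + 1) => xx (Nat.unpair n).1 * FreeGroup.of (n + 1)
decreasing_by exact unpair_lt n

/-- price of the letter `n` -/
noncomputable def ee (n : ℕ) : ℝ := (1 / 2 : ℝ) ^ dep (par n)

/-- `Z (par r) ∪ y_r⁻¹ Z (par r)` -/
def CcOf (Z : ℕ → Set F) (r : ℕ) : Set F :=
  if r = 0 then {1} else Z (par r) ∪ {w | ∃ z ∈ Z (par r), w = (FreeGroup.of r)⁻¹ * z}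

/-- the sets `C n` -/
def COf (Z : ℕ → Set F) (n : ℕ) : Set F := if n = 0 then {1} else CcOf Z (par n)

/-- keep `C m` for `m < n`, put `{1}` above -/
def cut (n : ℕ) (C : ℕ → Set F) (m : ℕ) : Set F := if m < n then C m else {1}

/-- what the recursion has to achieve at stage `r` -/
def Spec (ε : ℕ → ℝ) (E Z : ℕ → Set F) (r : ℕ) : Prop :=
  Gated (cut (r + 1) (COf Z)) ε (r + 1) (Z r) ∧ CcOf Z r ⊆ Z r ∧ E r ⊆ Z r ∧
    ∀ g ∈ E r, (xx r)⁻¹ * g ∈ Z r

/-- output of the combinatorial part -/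
structure Comb (Nn : F → ℝ) (Z : ℕ → Set F) : Prop where
  one : Nn 1 = 0
  inv : ∀ w, Nn w⁻¹ = Nn w
  mul : ∀ a b, Nn (a * b) ≤ Nn a + Nn b
  psd : ∀ (T : Finset F) (c : F → ℝ), 0 ≤ ∑ x ∈ T, ∑ y ∈ T, c x * c y * Real.exp (-(Nn (x⁻¹ * y)))
  fin : ∀ r, (Z r).Finite
  sub : ∀ r, Z r ⊆ (L (r + 1) : Set F)
  ex : ∀ g : F, ∃ r0, ∀ r ≥ r0, g ∈ Z r ∧ (xx r)⁻¹ * g ∈ Z r
  gen : ∀ n e, ∀ g ∈ COf Z n, Nn (g⁻¹ * yy n e * g) ≤ ee n
  max : ∀ ν : F → ℝ, ν 1 = 0 → (∀ a b, ν (a * b) ≤ ν a + ν b) →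
    (∀ n e, ∀ g ∈ COf Z n, ν (g⁻¹ * yy n e * g) ≤ ee n) → ∀ w, ν w ≤ Nn w


theorem par_lt (n : ℕ) (hn : n ≠ 0) : par n < n := by
  unfold par
  have h := Nat.unpair_left_le (n - 1)
  omega

theorem exists_child (r m : ℕ) : ∃ n : ℕ, n ≠ 0 ∧ par n = r ∧ lab n = m := by
  refine ⟨Nat.pair r m + 1, Nat.succ_ne_zero _, ?_, ?_⟩
  · unfold par
    rw [Nat.add_sub_cancel, Nat.unpair_pair]
  · unfold lab
    rw [Nat.add_sub_cancel, Nat.unpair_pair]

theorem dep_eq (n : ℕ) (hn : n ≠ 0) : dep n = dep (par n) + 1 := by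
  obtain ⟨m, rfl⟩ : ∃ m, n = m + 1 := ⟨n - 1, by omega⟩
  have h : par (m + 1) = (Nat.unpair m).1 := by
    unfold par
    rw [Nat.add_sub_cancel]
  rw [h, dep]

theorem xx_eq (n : ℕ) (hn : n ≠ 0) : xx n = xx (par n) * FreeGroup.of n := by
  obtain ⟨m, rfl⟩ : ∃ m, n = m + 1 := ⟨n - 1, by omega⟩
  have h : par (m + 1) = (Nat.unpair m).1 := by
    unfold par
    rw [Nat.add_sub_cancel]
  rw [h, xx]

theorem L_mono {m n : ℕ} (h : m ≤ n) : L m ≤ L n := by
  apply Subgroup.closure_mono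
  rintro w ⟨i, hi, rfl⟩
  exact ⟨i, by omega, rfl⟩

theorem yy_inv (n : ℕ) (e : Bool) : (yy n e)⁻¹ = yy n (!e) := by
  unfold yy
  rw [FreeGroup.inv_mk]
  rfl

theorem yy_mem_of (n m : ℕ) (h : n < m) : FreeGroup.of n ∈ L m :=
  Subgroup.subset_closure ⟨n, h, rfl⟩

theorem yy_mem (n : ℕ) (e : Bool) (m : ℕ) (h : n < m) : yy n e ∈ L m := by
  cases e with
  | true => exact yy_mem_of n m h
  | false =>
    have h1 : yy n false = (yy n true)⁻¹ := by rw [yy_inv]; rfl
    rw [h1]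
    exact (L m).inv_mem (yy_mem_of n m h)

theorem xx_mem (n : ℕ) : xx n ∈ L (n + 1) := by
  induction n using Nat.strong_induction_on with
  | _ n ih =>
    by_cases hn : n = 0
    · subst hn
      have : xx 0 = 1 := by unfold xx; rfl
      rw [this]
      exact one_mem _
    · rw [xx_eq n hn]
      have h := par_lt n hn
      exact (L (n + 1)).mul_mem (L_mono (by omega) (ih _ h)) (yy_mem_of n _ (by omega))

theorem mem_L_iff_mk (n : ℕ) (l : List (ℕ × Bool)) (h : ∀ p ∈ l, p.1 < n) :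
    (FreeGroup.mk l : F) ∈ L n := by
  induction l with
  | nil => exact (L n).one_mem
  | cons p l ih =>
    obtain ⟨i, e⟩ := p
    have h1 : (FreeGroup.mk ((i, e) :: l) : F) = yy i e * FreeGroup.mk l := by
      rw [yy, FreeGroup.mul_mk, List.singleton_append]
    rw [h1]
    exact (L n).mul_mem (yy_mem i e n (h (i, e) List.mem_cons_self))
      (ih fun p hp => h p (List.mem_cons_of_mem _ hp))

theorem mem_L_iff (n : ℕ) (w : F) : w ∈ L n ↔ ∀ p ∈ w.toWord, p.1 < n := by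
  constructor
  · intro h
    refine Subgroup.closure_induction (p := fun w _ => ∀ p ∈ FreeGroup.toWord w, p.1 < n)
      ?_ ?_ ?_ ?_ h
    · rintro _ ⟨i, hi, rfl⟩ p hp
      rw [FreeGroup.toWord_of, List.mem_singleton] at hp
      rw [hp]
      exact hi
    · intro p hp
      rw [FreeGroup.toWord_one] at hp
      exact absurd hp List.not_mem_nil
    · intro x y _ _ hx hy p hp
      rw [FreeGroup.toWord_mul] at hp
      have h1 := (FreeGroup.Red.sublist FreeGroup.reduce.red).subset hp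
      rcases List.mem_append.1 h1 with h2 | h2
      · exact hx p h2
      · exact hy p h2
    · intro x _ hx p hp
      rw [FreeGroup.toWord_inv, FreeGroup.invRev, List.mem_reverse, List.mem_map] at hp
      obtain ⟨q, hq, rfl⟩ := hp
      exact hx q hq
  · intro h
    rw [← FreeGroup.mk_toWord (x := w)]
    exact mem_L_iff_mk n _ h

theorem exists_mem_L_bound (l : List (ℕ × Bool)) : ∃ n, ∀ p ∈ l, p.1 < n := by
  induction l with
  | nil => exact ⟨0, fun p hp => absurd hp List.not_mem_nil⟩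
  | cons p l ih =>
    obtain ⟨n, hn⟩ := ih
    refine ⟨max n (p.1 + 1), fun q hq => ?_⟩
    rcases List.mem_cons.1 hq with rfl | hq
    · exact lt_of_lt_of_le (Nat.lt_succ_self _) (le_max_right _ _)
    · exact lt_of_lt_of_le (hn q hq) (le_max_left _ _)

theorem exists_mem_L (w : F) : ∃ n, w ∈ L n := by
  obtain ⟨n, hn⟩ := exists_mem_L_bound w.toWord
  exact ⟨n, (mem_L_iff n w).2 hn⟩

theorem L_zero (w : F) : w ∈ L 0 ↔ w = 1 := by
  constructor
  · intro h
    rw [mem_L_iff] at h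
    have h1 : w.toWord = [] := List.eq_nil_iff_forall_not_mem.2 fun p hp =>
      absurd (h p hp) (Nat.not_lt_zero _)
    exact FreeGroup.toWord_eq_nil_iff.1 h1
  · rintro rfl
    exact (L 0).one_mem

theorem St_mul_L_aux (n : ℕ) (fw : List (ℕ × Bool)) (hf : ∀ p ∈ fw, p.1 < n) :
    ∀ T : List (ℕ × Bool), FreeGroup.IsReduced T →
      ∃ T1 g, T1 <+: T ∧ (∀ p ∈ g, p.1 < n) ∧ FreeGroup.reduce (T ++ fw) = T1 ++ g := by
  intro T
  induction T with
  | nil =>
    intro _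
    refine ⟨[], FreeGroup.reduce fw, List.nil_prefix, ?_, by simp⟩
    intro p hp
    exact hf p ((FreeGroup.Red.sublist FreeGroup.reduce.red).subset hp)
  | cons x T' ih =>
    intro hT
    have hT' : FreeGroup.IsReduced T' := List.IsChain.of_cons hT
    obtain ⟨T1, g, hp, hg, hr⟩ := ih hT'
    rw [List.cons_append, FreeGroup.reduce.cons, hr]
    cases T1 with
    | nil =>
      cases g with
      | nil =>
        refine ⟨[x], [], ?_, by simp, by simp⟩
        simp
      | cons hd tl =>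
        simp only [List.nil_append]
        split_ifs with hc
        · exact ⟨[], tl, List.nil_prefix, fun p hp => hg p (List.mem_cons_of_mem _ hp), rfl⟩
        · refine ⟨[x], hd :: tl, ?_, hg, rfl⟩
          simp
    | cons hd tl =>
      obtain ⟨s, hs⟩ := hp
      have hs' : T' = hd :: (tl ++ s) := by rw [← hs]; rfl
      have hne : ¬ (x.1 = hd.1 ∧ x.2 = !hd.2) := by
        rintro ⟨h1, h2⟩
        rw [hs'] at hT
        have h3 := (List.isChain_cons_cons.1 hT).1 h1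
        rw [h3] at h2
        revert h2
        cases hd.2 <;> simp
      simp only [List.cons_append]
      rw [if_neg hne]
      refine ⟨x :: hd :: tl, g, ?_, hg, rfl⟩
      exact ⟨s, by rw [hs']; rfl⟩

theorem St_mul_L_one (n : ℕ) (e : Bool) (w f : F) (hf : f ∈ L n) (h : St n e w) :
    St n e (w * f) := by
  obtain ⟨T1, g, ⟨s, hs⟩, hg, hr⟩ := St_mul_L_aux n f.toWord ((mem_L_iff n f).1 hf) w.toWord
    FreeGroup.isReduced_toWord
  unfold St at h ⊢
  rw [FreeGroup.toWord_mul, hr]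
  cases T1 with
  | nil =>
    exfalso
    have h1 : w * f ∈ L n := by
      rw [mem_L_iff, FreeGroup.toWord_mul, hr]
      exact hg
    have h2 : w ∈ L n := by
      have := (L n).mul_mem h1 ((L n).inv_mem hf)
      rwa [mul_inv_cancel_right] at this
    have h3 : (n, e) ∈ w.toWord := List.mem_of_head? h
    have h4 := (mem_L_iff n w).1 h2 _ h3
    exact lt_irrefl _ h4
  | cons x t =>
    rw [← hs] at h
    simpa using h

theorem St_mul_L (n : ℕ) (e : Bool) (w f : F) (hf : f ∈ L n) : St n e (w * f) ↔ St n e w := by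
  constructor
  · intro h
    have := St_mul_L_one n e (w * f) f⁻¹ ((L n).inv_mem hf) h
    rwa [mul_inv_cancel_right] at this
  · exact St_mul_L_one n e w f hf

theorem St_step_word (n : ℕ) (e' : Bool) (u : F) :
    (u * yy n e').toWord = FreeGroup.reduce (u.toWord ++ [(n, e')]) := by
  conv_lhs => rw [← FreeGroup.mk_toWord (x := u)]
  unfold yy
  rw [FreeGroup.mul_mk, FreeGroup.toWord_mk]

theorem St_step (n : ℕ) (e e' : Bool) (u : F) (h1 : ¬ St n e u) (h2 : St n e (u * yy n e')) :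
    u = 1 ∧ e' = e := by
  unfold St at h1 h2
  rw [St_step_word] at h2
  have hred : FreeGroup.IsReduced u.toWord := FreeGroup.isReduced_toWord
  rcases List.eq_nil_or_concat u.toWord with h0 | ⟨W, a, hW⟩
  · rw [h0, List.nil_append, FreeGroup.IsReduced.reduce_eq FreeGroup.IsReduced.singleton] at h2
    refine ⟨FreeGroup.toWord_eq_nil_iff.1 h0, ?_⟩
    simpa using h2
  · exfalso
    rw [List.concat_eq_append] at hW
    rw [hW] at h1 h2 hred
    by_cases ha : a = (n, !e')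
    · have hstep : FreeGroup.Red.Step (W ++ [a] ++ [(n, e')]) (W ++ []) := by
        rw [ha]
        have := FreeGroup.Red.Step.not_rev (L₁ := W) (L₂ := ([] : List (ℕ × Bool))) (x := n)
          (b := e')
        simpa using this
      rw [FreeGroup.reduce.Step.eq hstep, List.append_nil,
        (show FreeGroup.IsReduced W from List.IsChain.left_of_append hred).reduce_eq] at h2
      apply h1
      rw [List.head?_append, h2]
      rfl
    · have hr2 : FreeGroup.IsReduced ([a] ++ [(n, e')]) := by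
        change FreeGroup.IsReduced (a :: (n, e') :: [])
        rw [FreeGroup.isReduced_cons_cons]
        refine ⟨fun h => ?_, FreeGroup.IsReduced.singleton⟩
        by_contra hne
        apply ha
        obtain ⟨a1, a2⟩ := a
        simp only at h hne
        rw [h]
        congr 1
        revert hne
        cases a2 <;> cases e' <;> simp
      have hr3 := FreeGroup.IsReduced.append_overlap hred hr2 (by simp)
      rw [hr3.reduce_eq] at h2
      apply h1
      rw [List.head?_append] at h2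
      have hne : (W ++ [a]).head? ≠ none := by
        simp
      rcases hh : (W ++ [a]).head? with _ | b
      · exact absurd hh hne
      · rw [hh] at h2
        simpa using h2

theorem first_decomp_split (n : ℕ) : ∀ W : List (ℕ × Bool), (∀ p ∈ W, p.1 < n + 1) → (∃ p ∈ W, ¬ p.1 < n) →
    ∃ (A : List (ℕ × Bool)) (e : Bool) (B : List (ℕ × Bool)), W = A ++ (n, e) :: B ∧ ∀ p ∈ A, p.1 < n := by
  intro W
  induction W with
  | nil =>
    rintro _ ⟨p, hp, _⟩
    simp at hp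
  | cons q W ih =>
    intro h1 h2
    by_cases hq : q.1 < n
    · obtain ⟨p, hp, hpn⟩ := h2
      have hpW : p ∈ W := by
        rcases List.mem_cons.mp hp with h | h
        · subst h; exact absurd hq hpn
        · exact h
      obtain ⟨A, e, B, hW, hA⟩ := ih (fun p hp => h1 p (List.mem_cons_of_mem _ hp)) ⟨p, hpW, hpn⟩
      refine ⟨q :: A, e, B, by rw [hW]; rfl, ?_⟩
      intro p hp
      rcases List.mem_cons.mp hp with h | h
      · subst h; exact hq
      · exact hA p h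
    · have h3 := h1 q (by simp)
      have h4 : q.1 = n := by omega
      refine ⟨[], q.2, W, ?_, by simp⟩
      rw [← h4]; rfl

theorem first_decomp (n : ℕ) (w : F) (h1 : w ∈ L (n + 1)) (h2 : w ∉ L n) :
    ∃ f ∈ L n, ∃ e : Bool, ∃ u ∈ L (n + 1), w = f * (yy n e * u) ∧ ¬ St n (!e) u ∧
      u.toWord.length < w.toWord.length := by
  classical
  have h1' := (mem_L_iff (n + 1) w).mp h1
  have h2' : ∃ p ∈ w.toWord, ¬ p.1 < n := by
    by_contra hcon
    push Not at hcon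
    exact h2 ((mem_L_iff n w).mpr hcon)
  obtain ⟨A, e, B, hW, hA⟩ := first_decomp_split n w.toWord h1' h2'
  have hred : FreeGroup.IsReduced (A ++ (n, e) :: B) := by
    rw [← hW]; exact FreeGroup.isReduced_toWord
  have hAr : FreeGroup.IsReduced A := List.IsChain.left_of_append hred
  have hBr : FreeGroup.IsReduced B := List.IsChain.right_of_append (l₁ := A ++ [(n, e)]) (by simpa [FreeGroup.IsReduced] using hred)
  have hnB : FreeGroup.IsReduced ((n, e) :: B) := List.IsChain.right_of_append hred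
  have hAw : (FreeGroup.mk A : F).toWord = A := by
    rw [FreeGroup.toWord_mk]; exact hAr.reduce_eq
  have hBw : (FreeGroup.mk B : F).toWord = B := by
    rw [FreeGroup.toWord_mk]; exact hBr.reduce_eq
  refine ⟨FreeGroup.mk A, ?_, e, FreeGroup.mk B, ?_, ?_, ?_, ?_⟩
  · rw [mem_L_iff, hAw]; exact hA
  · rw [mem_L_iff, hBw]
    intro p hp
    apply h1'
    rw [hW]; simp [hp]
  · have : w = FreeGroup.mk w.toWord := FreeGroup.mk_toWord.symm
    rw [this, hW, yy, FreeGroup.mul_mk, FreeGroup.mul_mk]; rfl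
  · unfold St
    rw [hBw]
    intro hB
    cases B with
    | nil => simp at hB
    | cons b B =>
      simp only [List.head?_cons, Option.some.injEq] at hB
      subst hB
      rw [FreeGroup.isReduced_cons_cons] at hnB
      have := hnB.1 rfl
      simp at this
  · rw [hBw, hW]; simp only [List.length_append, List.length_cons]; omega

theorem not_St_of_mem (n : ℕ) (e : Bool) (w : F) (h : w ∈ L n) : ¬ St n e w := by
  intro hs
  have h1 : (n, e) ∈ w.toWord := List.mem_of_mem_head? (by rw [hs]; rfl)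
  have h2 := (mem_L_iff n w).1 h _ h1
  exact lt_irrefl n h2

theorem St_excl (n : ℕ) (e e' : Bool) (w : F) (hw : St n e w) (hw' : St n e' w) : e = e' := by
  have h : some (n, e) = some (n, e') := hw.symm.trans hw'
  have h2 := Option.some.inj h
  exact (Prod.mk.inj h2).2

theorem not_St_branch (n : ℕ) (e e' : Bool) (f b : F) (hf : f ∈ L n) (hf1 : f ≠ 1)
    (hb : ¬ St n (!e') b) : ¬ St n e (f * (yy n e' * b)) := by
  have hA := (mem_L_iff n f).mp hf
  have hred : FreeGroup.IsReduced (f.toWord ++ ((n, e') :: b.toWord)) := by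
    unfold FreeGroup.IsReduced
    rw [List.isChain_append]
    refine ⟨FreeGroup.isReduced_toWord, ?_, ?_⟩
    · rw [List.isChain_cons]
      refine ⟨?_, FreeGroup.isReduced_toWord⟩
      intro y hy h1
      by_contra h2
      apply hb
      unfold St
      rw [Option.mem_def] at hy
      rw [hy]
      have h3 : y.2 = !e' := by
        cases e' <;> cases hy2 : y.2 <;> simp_all
      rw [← h3]
      have h4 : n = y.1 := h1
      rw [h4]
    · intro x hx y hy h1
      exfalso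
      have h2 : y = (n, e') := by
        simp only [List.head?_cons, Option.mem_def, Option.some.injEq] at hy
        exact hy.symm
      have h3 : x.1 < n := hA x (List.mem_of_getLast? hx)
      rw [h2] at h1
      simp only at h1
      omega
  have hw : (f * (yy n e' * b)).toWord = f.toWord ++ ((n, e') :: b.toWord) := by
    have h1 : f * (yy n e' * b) = FreeGroup.mk (f.toWord ++ ((n, e') :: b.toWord)) := by
      conv_lhs => rw [← FreeGroup.mk_toWord (x := f), ← FreeGroup.mk_toWord (x := b)]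
      unfold yy
      rw [FreeGroup.mul_mk, FreeGroup.mul_mk]
      rfl
    rw [h1, FreeGroup.toWord_mk, hred.reduce_eq]
  unfold St
  rw [hw]
  have hne : f.toWord ≠ [] := fun h => hf1 (FreeGroup.toWord_eq_nil_iff.mp h)
  obtain ⟨p, l, hpl⟩ := List.exists_cons_of_ne_nil hne
  rw [hpl, List.cons_append, List.head?_cons]
  intro h
  have h1 := hA p (by rw [hpl]; exact List.mem_cons_self)
  rw [Option.some.injEq] at h
  rw [h] at h1
  exact lt_irrefl _ h1

theorem St_yy_mul_aux (n : ℕ) (e : Bool) (w : F) : St n e w ↔ w ∈ FreeGroup.startsWith (n, e) := by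
  unfold St FreeGroup.startsWith
  rw [Set.mem_ofPred_eq, List.head?_eq_getElem?]

theorem St_yy_mul (n : ℕ) (e : Bool) (b : F) (hb : ¬ St n (!e) b) : St n e (yy n e * b) := by
  rw [St_yy_mul_aux] at hb ⊢
  exact FreeGroup.startsWith_mk_mul b hb

theorem St_cancel (n : ℕ) (e : Bool) (w : F) (hw : St n e w) : ¬ St n (!e) ((yy n e)⁻¹ * w) := by
  unfold St at hw
  rcases h : w.toWord with _ | ⟨a, B⟩
  · rw [h] at hw
    simp at hw
  · rw [h] at hw
    have ha : a = (n, e) := by simpa using hw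
    subst ha
    have hred : FreeGroup.IsReduced w.toWord := FreeGroup.isReduced_toWord
    rw [h] at hred
    have hw1 : w = yy n e * FreeGroup.mk B := by
      have e1 : FreeGroup.mk w.toWord = w := FreeGroup.mk_toWord
      rw [← e1, h]
      unfold yy
      rw [FreeGroup.mul_mk]
      rfl
    have hB : FreeGroup.IsReduced B := by
      rcases B with _ | ⟨b, B⟩
      · exact FreeGroup.IsReduced.nil
      · exact (FreeGroup.isReduced_cons_cons.mp hred).2
    have e2 : (yy n e)⁻¹ * w = FreeGroup.mk B := by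
      rw [hw1]; group
    rw [e2]
    unfold St
    rw [FreeGroup.toWord_mk, hB.reduce_eq]
    intro hc
    rcases B with _ | ⟨b, B⟩
    · simp at hc
    · have hb : b = (n, !e) := by simpa using hc
      subst hb
      have := (FreeGroup.isReduced_cons_cons.mp hred).1 rfl
      simp at this

theorem exists_retract (n : ℕ) : ∃ ρ : F →* F, (∀ w ∈ L n, ρ w = w) ∧ ∀ m e, n ≤ m → ρ (yy m e) = 1 := by
  classical
  let ρ : F →* F := FreeGroup.lift (fun i => if i < n then FreeGroup.of i else 1)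
  have hof : ∀ i, ρ (FreeGroup.of i) = if i < n then FreeGroup.of i else 1 := fun i => by
    simp [ρ]
  refine ⟨ρ, ?_, ?_⟩
  · intro w hw
    refine Subgroup.closure_induction (p := fun w _ => ρ w = w) ?_ ?_ ?_ ?_ hw
    · rintro w ⟨i, hi, rfl⟩
      rw [hof, if_pos hi]
    · exact map_one ρ
    · intro a b _ _ ha hb
      rw [map_mul, ha, hb]
    · intro a _ ha
      rw [map_inv, ha]
  · intro m e hm
    have h1 : ρ (yy m true) = 1 := by
      have : yy m true = FreeGroup.of m := rfl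
      rw [this, hof, if_neg (not_lt.2 hm)]
    cases e with
    | true => exact h1
    | false =>
      have h2 : yy m false = (yy m true)⁻¹ := by
        rw [yy_inv]
        rfl
      rw [h2, map_inv, h1, inv_one]

theorem reach_nonneg (C : ℕ → Set F) (ε : ℕ → ℝ) (hε : ∀ n, 0 ≤ ε n) (c : ℝ) (w : F) (h : Reach C ε c w) :
    0 ≤ c := by
  induction h with
  | one => exact le_rfl
  | step c w n e g hr hg ih => exact add_nonneg ih (hε n)

theorem reach_mul (C : ℕ → Set F) (ε : ℕ → ℝ) (c d : ℝ) (v w : F) (h1 : Reach C ε c v)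
    (h2 : Reach C ε d w) : Reach C ε (c + d) (v * w) := by
  induction h2 with
  | one => rw [add_zero, mul_one]; exact h1
  | step d w n e g hr hg ih =>
    rw [← add_assoc, ← mul_assoc]
    exact Reach.step _ _ n e g ih hg

theorem reach_inv (C : ℕ → Set F) (ε : ℕ → ℝ) (c : ℝ) (w : F) (h1 : Reach C ε c w) :
    Reach C ε c w⁻¹ := by
  induction h1 with
  | one => rw [inv_one]; exact Reach.one
  | step c w n e g hr hg ih =>
    have h1 : Reach C ε (0 + ε n) (1 * (g⁻¹ * yy n (!e) * g)) :=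
      Reach.step 0 1 n (!e) g Reach.one hg
    have h2 := reach_mul C ε _ _ _ _ h1 ih
    have e1 : (w * (g⁻¹ * yy n e * g))⁻¹ = 1 * (g⁻¹ * yy n (!e) * g) * w⁻¹ := by
      rw [← yy_inv]; group
    have e2 : c + ε n = 0 + ε n + c := by ring
    rw [e1, e2]
    exact h2

theorem reach_mono (C C' : ℕ → Set F) (ε : ℕ → ℝ) (c : ℝ) (w : F) (hC : ∀ n, C n ⊆ C' n)
    (h1 : Reach C ε c w) : Reach C' ε c w := by
  induction h1 with
  | one => exact Reach.one
  | step c w n e g hr hg ih => exact Reach.step _ _ n e g ih (hC n hg)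

theorem reach_exists_L (C : ℕ → Set F) (ε : ℕ → ℝ) (h : Good C ε) (n : ℕ) :
    ∀ w ∈ L n, ∃ c, Reach C ε c w := by
  induction n using Nat.strong_induction_on with
  | _ n ih =>
    intro w hw
    unfold L at hw
    induction hw using Subgroup.closure_induction with
    | mem x hx =>
      obtain ⟨i, hi, rfl⟩ := hx
      obtain ⟨g, hg⟩ := h.ne i
      have hgL : g ∈ L i := h.sub i hg
      obtain ⟨c, hc⟩ := ih i hi g hgL
      have h1 : Reach C ε (0 + ε i) (1 * (g⁻¹ * yy i true * g)) :=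
        Reach.step 0 1 i true g Reach.one hg
      have h2 := reach_mul C ε _ _ _ _ (reach_mul C ε _ _ _ _ hc h1) (reach_inv C ε _ _ hc)
      have e : g * (1 * (g⁻¹ * yy i true * g)) * g⁻¹ = FreeGroup.of i := by
        have : yy i true = FreeGroup.of i := rfl
        rw [this]; group
      rw [e] at h2
      exact ⟨_, h2⟩
    | one => exact ⟨0, Reach.one⟩
    | mul x y hx hy h1 h2 =>
      obtain ⟨c, hc⟩ := h1
      obtain ⟨d, hd⟩ := h2
      exact ⟨c + d, reach_mul C ε c d x y hc hd⟩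
    | inv x hx h1 =>
      obtain ⟨c, hc⟩ := h1
      exact ⟨c, reach_inv C ε c x hc⟩

theorem reach_exists (C : ℕ → Set F) (ε : ℕ → ℝ) (h : Good C ε) (w : F) : ∃ c, Reach C ε c w := by
  obtain ⟨n, hn⟩ := exists_mem_L w
  exact reach_exists_L C ε h n w hn

theorem N_le_of_reach (C : ℕ → Set F) (ε : ℕ → ℝ) (h : Good C ε) (c : ℝ) (w : F) (hr : Reach C ε c w) :
    N C ε w ≤ c :=
  csInf_le ⟨0, fun d hd => reach_nonneg C ε h.pos d w hd⟩ hr

theorem le_N (C : ℕ → Set F) (ε : ℕ → ℝ) (h : Good C ε) (b : ℝ) (w : F)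
    (hb : ∀ c, Reach C ε c w → b ≤ c) : b ≤ N C ε w :=
  le_csInf (reach_exists C ε h w) hb

theorem N_nonneg (C : ℕ → Set F) (ε : ℕ → ℝ) (h : Good C ε) (w : F) : 0 ≤ N C ε w :=
  le_N C ε h 0 w fun c hc => reach_nonneg C ε h.pos c w hc

theorem N_one (C : ℕ → Set F) (ε : ℕ → ℝ) (h : Good C ε) : N C ε 1 = 0 :=
  le_antisymm (N_le_of_reach C ε h 0 1 Reach.one) (N_nonneg C ε h 1)

theorem N_inv (C : ℕ → Set F) (ε : ℕ → ℝ) (h : Good C ε) (w : F) : N C ε w⁻¹ = N C ε w := by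
  apply le_antisymm
  · exact le_N C ε h _ w fun c hc => N_le_of_reach C ε h c _ (reach_inv C ε c w hc)
  · refine le_N C ε h _ w⁻¹ fun c hc => N_le_of_reach C ε h c _ ?_
    have := reach_inv C ε c _ hc
    rwa [inv_inv] at this

theorem N_mul_le (C : ℕ → Set F) (ε : ℕ → ℝ) (h : Good C ε) (v w : F) :
    N C ε (v * w) ≤ N C ε v + N C ε w := by
  have h1 : N C ε (v * w) - N C ε w ≤ N C ε v := by
    refine le_N C ε h _ v fun c hc => ?_
    have h2 : N C ε (v * w) - c ≤ N C ε w := by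
      refine le_N C ε h _ w fun d hd => ?_
      have := N_le_of_reach C ε h (c + d) (v * w) (reach_mul C ε c d v w hc hd)
      linarith
    linarith
  linarith

theorem N_gen (C : ℕ → Set F) (ε : ℕ → ℝ) (h : Good C ε) (n : ℕ) (e : Bool) (g : F) (hg : g ∈ C n) :
    N C ε (g⁻¹ * yy n e * g) ≤ ε n := by
  have h1 := Reach.step (ε := ε) 0 1 n e g Reach.one hg
  rw [one_mul, zero_add] at h1
  exact N_le_of_reach C ε h _ _ h1

theorem N_max (C : ℕ → Set F) (ε : ℕ → ℝ) (h : Good C ε) (ν : F → ℝ) (h1 : ν 1 = 0)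
    (h2 : ∀ a b, ν (a * b) ≤ ν a + ν b) (h3 : ∀ n e, ∀ g ∈ C n, ν (g⁻¹ * yy n e * g) ≤ ε n) (w : F) :
    ν w ≤ N C ε w := by
  refine le_N C ε h _ w fun c hc => ?_
  induction hc with
  | one => exact h1.le
  | step c w n e g hr hg ih => exact (h2 _ _).trans (add_le_add ih (h3 n e g hg))

theorem reach_trunc (C : ℕ → Set F) (ε : ℕ → ℝ) (h : Good C ε) (n : ℕ) (c : ℝ) (w : F) (hw : w ∈ L n)
    (hr : Reach C ε c w) : ∃ c' ≤ c, Reach (fun m => if m < n then C m else ∅) ε c' w := by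
  obtain ⟨ρ, hρ1, hρ2⟩ := exists_retract n
  have key : ∀ c w, Reach C ε c w →
      ∃ c' ≤ c, Reach (fun m => if m < n then C m else ∅) ε c' (ρ w) := by
    intro c w hr
    induction hr with
    | one => exact ⟨0, le_rfl, by rw [map_one]; exact Reach.one⟩
    | step c w m e g hr hg ih =>
      obtain ⟨c', hc', hr'⟩ := ih
      by_cases hm : m < n
      · refine ⟨c' + ε m, by linarith, ?_⟩
        have h1 : ρ (w * (g⁻¹ * yy m e * g)) = ρ w * (g⁻¹ * yy m e * g) := by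
          rw [map_mul, map_mul, map_mul, map_inv, hρ1 g (L_mono hm.le (h.sub m hg)),
            hρ1 (yy m e) (yy_mem m e n hm)]
        rw [h1]
        apply Reach.step c' (ρ w) m e g hr'
        show g ∈ (if m < n then C m else ∅)
        rw [if_pos hm]
        exact hg
      · refine ⟨c', by linarith [h.pos m], ?_⟩
        have h1 : ρ (w * (g⁻¹ * yy m e * g)) = ρ w := by
          rw [map_mul, map_mul, map_mul, map_inv, hρ2 m e (not_lt.1 hm), mul_one,
            inv_mul_cancel, mul_one]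
        rw [h1]
        exact hr'
  obtain ⟨c', hc', h1⟩ := key c w hr
  rw [hρ1 w hw] at h1
  exact ⟨c', hc', h1⟩

theorem N_congr_aux (C C' : ℕ → Set F) (ε : ℕ → ℝ) (h : Good C ε) (h' : Good C' ε) (n : ℕ)
    (hC : ∀ m < n, C m = C' m) (w : F) (hw : w ∈ L n) : N C' ε w ≤ N C ε w := by
  refine le_N C ε h _ _ fun c hc => ?_
  obtain ⟨c', hc', hr⟩ := reach_trunc C ε h n c w hw hc
  have h1 : Reach C' ε c' w := by
    refine reach_mono _ C' ε c' w (fun m => ?_) hr
    by_cases hm : m < n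
    · simp only [hm, if_true]
      exact (hC m hm).le
    · simp only [hm, if_false]
      exact Set.empty_subset _
  exact (N_le_of_reach C' ε h' c' w h1).trans hc'

theorem N_congr (C C' : ℕ → Set F) (ε : ℕ → ℝ) (h : Good C ε) (h' : Good C' ε) (n : ℕ)
    (hC : ∀ m < n, C m = C' m) (w : F) (hw : w ∈ L n) : N C ε w = N C' ε w := by
  exact le_antisymm (N_congr_aux C' C ε h' h n (fun m hm => (hC m hm).symm) w hw)
    (N_congr_aux C C' ε h h' n hC w hw)

theorem gated_congr (C C' : ℕ → Set F) (ε : ℕ → ℝ) (h : Good C ε) (h' : Good C' ε) (n : ℕ)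
    (hC : ∀ m < n, C m = C' m) (Z : Set F) (hZ : Gated C ε n Z) : Gated C' ε n Z := by
  obtain ⟨h1, h2, h3, h4⟩ := hZ
  refine ⟨h1, h2, h3, fun w hw => ?_⟩
  obtain ⟨p, hp, hpz⟩ := h4 w hw
  refine ⟨p, hp, fun z hz => ?_⟩
  have hwz : w⁻¹ * z ∈ L n := (L n).mul_mem ((L n).inv_mem hw) (h1 hz)
  have hwp : w⁻¹ * p ∈ L n := (L n).mul_mem ((L n).inv_mem hw) (h1 hp)
  have hpz' : p⁻¹ * z ∈ L n := (L n).mul_mem ((L n).inv_mem (h1 hp)) (h1 hz)
  rw [← N_congr C C' ε h h' n hC _ hwz, ← N_congr C C' ε h h' n hC _ hwp,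
    ← N_congr C C' ε h h' n hC _ hpz']
  exact hpz z hz

theorem edge_reach (C : ℕ → Set F) (ε : ℕ → ℝ) (h : Good C ε) (n : ℕ) (e : Bool) (a : F) (c : ℝ) (w : F)
    (ha : ¬ St n e a) (hr : Reach (fun m => if m < n + 1 then C m else ∅) ε c w) (haw : St n e (a * w)) :
    ∃ g ∈ C n, ∃ c1 c2 : ℝ, Reach C ε c1 (a⁻¹ * g) ∧ Reach C ε c2 ((yy n e * g)⁻¹ * (a * w)) ∧
      c1 + ε n + c2 ≤ c := by
  induction hr with
  | one =>
    rw [mul_one] at haw
    exact absurd haw ha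
  | step c w' m e' g hr' hg ih =>
    have hm : m < n + 1 ∧ g ∈ C m := by
      by_cases hm : m < n + 1
      · simp only [hm, if_true] at hg
        exact ⟨hm, hg⟩
      · simp only [hm, if_false] at hg
        exact absurd hg (Set.notMem_empty g)
    obtain ⟨hm, hgm⟩ := hm
    by_cases hs : St n e (a * w')
    · obtain ⟨g0, hg0, c1, c2, r1, r2, hle⟩ := ih hs
      refine ⟨g0, hg0, c1, c2 + ε m, r1, ?_, by linarith⟩
      have h3 := Reach.step c2 _ m e' g r2 hgm
      have e1 : (yy n e * g0)⁻¹ * (a * w') * (g⁻¹ * yy m e' * g) =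
          (yy n e * g0)⁻¹ * (a * (w' * (g⁻¹ * yy m e' * g))) := by
        simp only [mul_assoc]
      rw [e1] at h3
      exact h3
    · rcases Nat.lt_or_ge m n with hmn | hmn
      · exfalso
        have hgL : g ∈ L n := L_mono hmn.le (h.sub m hgm)
        have hz : g⁻¹ * yy m e' * g ∈ L n :=
          (L n).mul_mem ((L n).mul_mem ((L n).inv_mem hgL) (yy_mem m e' n hmn)) hgL
        have h3 := (St_mul_L n e (a * w') _ hz).mp (by rw [mul_assoc]; exact haw)
        exact hs h3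
      · have hmn' : m = n := by omega
        subst hmn'
        have hgL : g ∈ L m := h.sub m hgm
        have h1 : ¬ St m e (a * w' * g⁻¹) := by
          intro h4
          exact hs ((St_mul_L m e (a * w') g⁻¹ ((L m).inv_mem hgL)).mp h4)
        have h2 : St m e (a * w' * g⁻¹ * yy m e') := by
          rw [← St_mul_L m e _ g hgL]
          have e1 : a * w' * g⁻¹ * yy m e' * g = a * (w' * (g⁻¹ * yy m e' * g)) := by
            simp only [mul_assoc]
          rw [e1]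
          exact haw
        obtain ⟨hu, he⟩ := St_step m e e' _ h1 h2
        subst he
        have hw' : w' = a⁻¹ * g := by
          rw [mul_assoc, mul_eq_one_iff_eq_inv] at hu
          rw [hu]
          group
        refine ⟨g, hgm, c, 0, ?_, ?_, by linarith⟩
        · rw [← hw']
          refine reach_mono _ C ε c w' ?_ hr'
          intro k
          by_cases hk : k < m + 1
          · simp only [hk, if_true]; exact subset_refl _
          · simp only [hk, if_false]; exact Set.empty_subset _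
        · have e1 : (yy m e' * g)⁻¹ * (a * (w' * (g⁻¹ * yy m e' * g))) = 1 := by
            rw [hw']
            group
          rw [e1]
          exact Reach.one

theorem edge_cross (C : ℕ → Set F) (ε : ℕ → ℝ) (h : Good C ε) (n : ℕ) (e : Bool) (a b : F)
    (ha : a ∈ L (n + 1)) (hb : b ∈ L (n + 1)) (hSa : ¬ St n e a) (hSb : St n e b) :
    ∃ g ∈ C n, N C ε (a⁻¹ * b) = N C ε (a⁻¹ * g) + ε n + N C ε ((yy n e * g)⁻¹ * b) := by
  obtain ⟨g, hg, hmin⟩ := Set.exists_min_image (C n)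
    (fun g => N C ε (a⁻¹ * g) + ε n + N C ε ((yy n e * g)⁻¹ * b)) (h.fin n) (h.ne n)
  refine ⟨g, hg, le_antisymm ?_ ?_⟩
  · have e1 : a⁻¹ * b = a⁻¹ * g * (g⁻¹ * yy n e * g) * ((yy n e * g)⁻¹ * b) := by group
    have h1 := N_mul_le C ε h (a⁻¹ * g * (g⁻¹ * yy n e * g)) ((yy n e * g)⁻¹ * b)
    have h2 := N_mul_le C ε h (a⁻¹ * g) (g⁻¹ * yy n e * g)
    have h3 := N_gen C ε h n e g hg
    rw [← e1] at h1
    linarith
  · refine le_N C ε h _ _ (fun c hc => ?_)
    obtain ⟨c', hc', hr⟩ := reach_trunc C ε h (n + 1) c (a⁻¹ * b)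
      ((L (n + 1)).mul_mem ((L (n + 1)).inv_mem ha) hb) hc
    have hab : a * (a⁻¹ * b) = b := by group
    obtain ⟨g', hg', c1, c2, r1, r2, hle⟩ := edge_reach C ε h n e a c' (a⁻¹ * b) hSa hr
      (by rw [hab]; exact hSb)
    rw [hab] at r2
    have h1 := N_le_of_reach C ε h _ _ r1
    have h2 := N_le_of_reach C ε h _ _ r2
    have h3 := hmin g' hg'
    linarith

theorem gate_L_sym (C : ℕ → Set F) (ε : ℕ → ℝ) (h : Good C ε) (a b : F) :
    N C ε (a⁻¹ * b) = N C ε (b⁻¹ * a) := by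
  rw [← N_inv C ε h (a⁻¹ * b)]
  congr 1
  group

theorem gate_L_aux (C : ℕ → Set F) (ε : ℕ → ℝ) (h : Good C ε) (n : ℕ) (hg : Gated C ε n (C n)) :
    ∀ (k : ℕ) (w : F), w.toWord.length ≤ k → w ∈ L (n + 1) →
      ∃ p ∈ L n, ∀ z ∈ L n, N C ε (w⁻¹ * z) = N C ε (w⁻¹ * p) + N C ε (p⁻¹ * z) := by
  intro k
  induction k with
  | zero =>
    intro w hk hw
    by_cases h2 : w ∈ L n
    · refine ⟨w, h2, fun z _ => ?_⟩
      rw [inv_mul_cancel, N_one C ε h, zero_add]
    · obtain ⟨f, hf, e, u, hu, hwu, hSt, hlen⟩ := first_decomp n w hw h2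
      omega
  | succ k ih =>
    intro w hk hw
    by_cases h2 : w ∈ L n
    · refine ⟨w, h2, fun z _ => ?_⟩
      rw [inv_mul_cancel, N_one C ε h, zero_add]
    · obtain ⟨f, hf, e, u, hu, hwu, hSt, hlen⟩ := first_decomp n w hw h2
      obtain ⟨q, hq, hqz⟩ := ih u (by omega) hu
      obtain ⟨c, hc, hcz⟩ := hg.2.2.2 q hq
      have hcL : c ∈ L n := h.sub n hc
      refine ⟨f * c, (L n).mul_mem hf hcL, fun z hz => ?_⟩
      have ha : f⁻¹ * z ∈ L n := (L n).mul_mem ((L n).inv_mem hf) hz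
      have hb : yy n e * u ∈ L (n + 1) :=
        (L (n + 1)).mul_mem (yy_mem n e (n + 1) (Nat.lt_succ_self n)) hu
      obtain ⟨g, hgC, hN⟩ := edge_cross C ε h n e (f⁻¹ * z) (yy n e * u)
        (L_mono (Nat.le_succ n) ha) hb (not_St_of_mem n e _ ha) (St_yy_mul n e u hSt)
      have hgL : g ∈ L n := h.sub n hgC
      have e1 : (f⁻¹ * z)⁻¹ * (yy n e * u) = z⁻¹ * w := by rw [hwu]; group
      have e2 : (yy n e * g)⁻¹ * (yy n e * u) = g⁻¹ * u := by group
      have e3 : (f⁻¹ * z)⁻¹ * g = z⁻¹ * (f * g) := by group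
      rw [e1, e2, e3] at hN
      have h3 : N C ε (g⁻¹ * u) = N C ε (u⁻¹ * q) + (N C ε (q⁻¹ * c) + N C ε (c⁻¹ * g)) := by
        rw [gate_L_sym C ε h g u, hqz g hgL, hcz g hgC]
      have h4 : N C ε (z⁻¹ * (f * c)) ≤ N C ε (z⁻¹ * (f * g)) + N C ε (c⁻¹ * g) := by
        rw [gate_L_sym C ε h c g]
        have e4 : z⁻¹ * (f * c) = (z⁻¹ * (f * g)) * (g⁻¹ * c) := by group
        rw [e4]
        exact N_mul_le C ε h _ _
      have h5 : N C ε ((f * c)⁻¹ * w) ≤ ε n + (N C ε (u⁻¹ * q) + N C ε (q⁻¹ * c)) := by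
        have e5 : (f * c)⁻¹ * w = (c⁻¹ * yy n e * c) * (c⁻¹ * u) := by rw [hwu]; group
        rw [e5]
        refine (N_mul_le C ε h _ _).trans ?_
        have h6 := N_gen C ε h n e c hc
        have h7 : N C ε (c⁻¹ * u) = N C ε (u⁻¹ * q) + N C ε (q⁻¹ * c) := by
          rw [gate_L_sym C ε h c u, hqz c hcL]
        linarith
      have h8 : N C ε (z⁻¹ * w) ≤ N C ε (z⁻¹ * (f * c)) + N C ε ((f * c)⁻¹ * w) := by
        have e6 : z⁻¹ * w = (z⁻¹ * (f * c)) * ((f * c)⁻¹ * w) := by group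
        rw [e6]
        exact N_mul_le C ε h _ _
      rw [gate_L_sym C ε h w z, gate_L_sym C ε h w (f * c), gate_L_sym C ε h (f * c) z]
      linarith

theorem gate_L (C : ℕ → Set F) (ε : ℕ → ℝ) (h : Good C ε) (n : ℕ) (hg : Gated C ε n (C n)) (w : F)
    (hw : w ∈ L (n + 1)) : ∃ p ∈ L n, ∀ z ∈ L n, N C ε (w⁻¹ * z) = N C ε (w⁻¹ * p) + N C ε (p⁻¹ * z) :=
  gate_L_aux C ε h n hg _ w le_rfl hw

theorem gated_succ (C : ℕ → Set F) (ε : ℕ → ℝ) (h : Good C ε) (n : ℕ) (hg : Gated C ε n (C n)) (Z : Set F)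
    (hZ : Gated C ε n Z) : Gated C ε (n + 1) Z := by
  obtain ⟨hZ1, hZ2, hZ3, hZ4⟩ := hZ
  refine ⟨fun z hz => L_mono (Nat.le_succ n) (hZ1 hz), hZ2, hZ3, ?_⟩
  intro w hw
  obtain ⟨q, hq, hqq⟩ := gate_L C ε h n hg w hw
  obtain ⟨p, hp, hpp⟩ := hZ4 q hq
  refine ⟨p, hp, ?_⟩
  intro z hz
  have e1 := hqq z (hZ1 hz)
  have e2 := hpp z hz
  have e3 := hqq p (hZ1 hp)
  rw [e1, e2, e3]
  ring

theorem gated_up (C : ℕ → Set F) (ε : ℕ → ℝ) (h : Good C ε) (n m : ℕ) (hnm : n ≤ m)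
    (hg : ∀ j, n ≤ j → j < m → Gated C ε j (C j)) (Z : Set F)
    (hZ : Gated C ε n Z) : Gated C ε m Z := by
  induction m, hnm using Nat.le_induction with
  | base => exact hZ
  | succ k hk ih =>
    exact gated_succ C ε h k (hg k hk (Nat.lt_succ_self k)) Z
      (ih (fun j hj1 hj2 => hg j hj1 (Nat.lt_succ_of_lt hj2)))

theorem gated_branch_aux (C : ℕ → Set F) (ε : ℕ → ℝ) (h : Good C ε) (n : ℕ) (e : Bool)
    (a f q g : F) (hg : g ∈ C n) :
    N C ε (a⁻¹ * (f * (yy n e * q))) ≤ N C ε (a⁻¹ * (f * g)) + ε n + N C ε (g⁻¹ * q) := by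
  have h1 : a⁻¹ * (f * (yy n e * q)) = (a⁻¹ * (f * g)) * (g⁻¹ * yy n e * g) * (g⁻¹ * q) := by
    group
  rw [h1]
  have h2 := N_mul_le C ε h ((a⁻¹ * (f * g)) * (g⁻¹ * yy n e * g)) (g⁻¹ * q)
  have h3 := N_mul_le C ε h (a⁻¹ * (f * g)) (g⁻¹ * yy n e * g)
  have h4 := N_gen C ε h n e g hg
  linarith

theorem gated_branch (C : ℕ → Set F) (ε : ℕ → ℝ) (h : Good C ε) (n : ℕ) (hg : Gated C ε n (C n))
    (R : Set F) (hR : Gated C ε n R) (P : Set (F × Bool)) (hP : P.Finite) (hP1 : ∀ p ∈ P, p.1 ∈ L n)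
    (hP2 : ∀ p ∈ P, ∀ g ∈ C n, p.1 * g ∈ R) (B : F × Bool → Set F)
    (hB : ∀ p ∈ P, Gated C ε (n + 1) (B p)) (hB1 : ∀ p ∈ P, C n ⊆ B p)
    (hB2 : ∀ p ∈ P, ∀ b ∈ B p, ¬ St n (!p.2) b) :
    Gated C ε (n + 1) (R ∪ {w | ∃ p ∈ P, ∃ b ∈ B p, w = p.1 * (yy n p.2 * b)}) := by
  have hsym : ∀ a b : F, N C ε (a⁻¹ * b) = N C ε (b⁻¹ * a) := fun a b => by
    rw [← N_inv C ε h (a⁻¹ * b)]; congr 1; group
  have htri : ∀ a b c : F, N C ε (a⁻¹ * c) ≤ N C ε (a⁻¹ * b) + N C ε (b⁻¹ * c) := fun a b c => by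
    have h1 := N_mul_le C ε h (a⁻¹ * b) (b⁻¹ * c)
    have h2 : a⁻¹ * b * (b⁻¹ * c) = a⁻¹ * c := by group
    rwa [h2] at h1
  have hR1 := gated_succ C ε h n hg R hR
  have hmem : ∀ p ∈ P, ∀ b ∈ B p, p.1 * (yy n p.2 * b) ∈ L (n + 1) := fun p hp b hb =>
    mul_mem (L_mono (Nat.le_succ n) (hP1 p hp))
      (mul_mem (yy_mem n p.2 (n + 1) (Nat.lt_succ_self n)) ((hB p hp).1 hb))
  have hsub : (R ∪ {w | ∃ p ∈ P, ∃ b ∈ B p, w = p.1 * (yy n p.2 * b)}) ⊆ (L (n + 1) : Set F) := by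
    rintro z (hz | ⟨p, hp, b, hb, rfl⟩)
    · exact hR1.1 hz
    · exact hmem p hp b hb
  refine ⟨hsub, ?_, ?_, ?_⟩
  · refine Set.Finite.union hR.2.1 ?_
    have h1 : {w | ∃ p ∈ P, ∃ b ∈ B p, w = p.1 * (yy n p.2 * b)} =
        ⋃ p ∈ P, (fun b => p.1 * (yy n p.2 * b)) '' B p := by
      ext w
      simp only [Set.mem_ofPred_eq, Set.mem_iUnion, Set.mem_image, exists_prop]
      constructor
      · rintro ⟨p, hp, b, hb, rfl⟩
        exact ⟨p, hp, b, hb, rfl⟩
      · rintro ⟨p, hp, b, hb, rfl⟩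
        exact ⟨p, hp, b, hb, rfl⟩
    rw [h1]
    exact hP.biUnion fun p hp => (hB p hp).2.1.image _
  · obtain ⟨r, hr⟩ := hR.2.2.1
    exact ⟨r, Or.inl hr⟩
  intro w hw
  by_cases hA : ∃ p ∈ P, St n p.2 (p.1⁻¹ * w)
  · obtain ⟨p, hp, hSt⟩ := hA
    have hf1 : p.1 ∈ L (n + 1) := L_mono (Nat.le_succ n) (hP1 p hp)
    have hy1 : yy n p.2 ∈ L (n + 1) := yy_mem n p.2 (n + 1) (Nat.lt_succ_self n)
    obtain ⟨u, hu⟩ : ∃ u, u = (yy n p.2)⁻¹ * (p.1⁻¹ * w) := ⟨_, rfl⟩
    have huL : u ∈ L (n + 1) := by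
      rw [hu]; exact mul_mem (inv_mem hy1) (mul_mem (inv_mem hf1) hw)
    have hwu : w = p.1 * (yy n p.2 * u) := by rw [hu]; group
    obtain ⟨q, hq, hqg⟩ := (hB p hp).2.2.2 u huL
    refine ⟨p.1 * (yy n p.2 * q), Or.inr ⟨p, hp, q, hq, rfl⟩, fun z hz => ?_⟩
    have hw0 : w⁻¹ * (p.1 * (yy n p.2 * q)) = u⁻¹ * q := by rw [hwu]; group
    rw [hw0]
    by_cases hzS : St n p.2 (p.1⁻¹ * z)
    · have hz1 : ∃ b ∈ B p, z = p.1 * (yy n p.2 * b) := by
        rcases hz with hz | ⟨p', hp', b, hb, rfl⟩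
        · exact absurd hzS (not_St_of_mem n p.2 _ (mul_mem (inv_mem (hP1 p hp)) (hR.1 hz)))
        · by_cases hff : p'.1 = p.1
          · have h1 : p.1⁻¹ * (p'.1 * (yy n p'.2 * b)) = yy n p'.2 * b := by
              rw [hff]; group
            rw [h1] at hzS
            have h2 := St_yy_mul n p'.2 b (hB2 p' hp' b hb)
            have h3 := St_excl n p'.2 p.2 _ h2 hzS
            have h4 : p' = p := Prod.ext hff h3
            subst h4
            exact ⟨b, hb, rfl⟩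
          · exfalso
            refine not_St_branch n p.2 p'.2 (p.1⁻¹ * p'.1) b
              (mul_mem (inv_mem (hP1 p hp)) (hP1 p' hp')) ?_ (hB2 p' hp' b hb) ?_
            · intro h5
              exact hff (inv_mul_eq_one.1 h5).symm
            · rw [mul_assoc]; exact hzS
      obtain ⟨b, hb, rfl⟩ := hz1
      have h1 : w⁻¹ * (p.1 * (yy n p.2 * b)) = u⁻¹ * b := by rw [hwu]; group
      have h2 : (p.1 * (yy n p.2 * q))⁻¹ * (p.1 * (yy n p.2 * b)) = q⁻¹ * b := by group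
      rw [h1, h2]
      exact hqg b hb
    · have hzL := hsub hz
      obtain ⟨g, hgC, hge⟩ := edge_cross C ε h n p.2 (p.1⁻¹ * z) (p.1⁻¹ * w)
        (mul_mem (inv_mem hf1) hzL) (mul_mem (inv_mem hf1) hw) hzS hSt
      have h1 : (p.1⁻¹ * z)⁻¹ * (p.1⁻¹ * w) = z⁻¹ * w := by group
      have h2 : (p.1⁻¹ * z)⁻¹ * g = z⁻¹ * (p.1 * g) := by group
      have h3 : (yy n p.2 * g)⁻¹ * (p.1⁻¹ * w) = g⁻¹ * u := by rw [hu]; group
      rw [h1, h2, h3] at hge
      have h4 := hqg g (hB1 p hp hgC)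
      have h5 := gated_branch_aux C ε h n p.2 z p.1 q g hgC
      have h6 := hsym g u
      have h7 := hsym g q
      have h8 := hsym w z
      have h9 := hsym (p.1 * (yy n p.2 * q)) z
      have h10 := htri w (p.1 * (yy n p.2 * q)) z
      rw [hw0] at h10
      linarith
  · have hA' : ∀ p ∈ P, ¬ St n p.2 (p.1⁻¹ * w) := fun p hp hs => hA ⟨p, hp, hs⟩
    obtain ⟨p0, hp0, hp0g⟩ := hR1.2.2.2 w hw
    refine ⟨p0, Or.inl hp0, fun z hz => ?_⟩
    rcases hz with hz | ⟨p, hp, b, hb, rfl⟩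
    · exact hp0g z hz
    · have hf1 : p.1 ∈ L (n + 1) := L_mono (Nat.le_succ n) (hP1 p hp)
      have hy1 : yy n p.2 ∈ L (n + 1) := yy_mem n p.2 (n + 1) (Nat.lt_succ_self n)
      obtain ⟨g, hgC, hge⟩ := edge_cross C ε h n p.2 (p.1⁻¹ * w) (yy n p.2 * b)
        (mul_mem (inv_mem hf1) hw) (mul_mem hy1 ((hB p hp).1 hb)) (hA' p hp)
        (St_yy_mul n p.2 b (hB2 p hp b hb))
      have h1 : (p.1⁻¹ * w)⁻¹ * (yy n p.2 * b) = w⁻¹ * (p.1 * (yy n p.2 * b)) := by group
      have h2 : (p.1⁻¹ * w)⁻¹ * g = w⁻¹ * (p.1 * g) := by group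
      have h3 : (yy n p.2 * g)⁻¹ * (yy n p.2 * b) = g⁻¹ * b := by group
      rw [h1, h2, h3] at hge
      have h4 := hp0g (p.1 * g) (hP2 p hp g hgC)
      have h5 := gated_branch_aux C ε h n p.2 p0 p.1 b g hgC
      have h6 := htri w p0 (p.1 * (yy n p.2 * b))
      linarith

theorem gated_double (C : ℕ → Set F) (ε : ℕ → ℝ) (h : Good C ε) (n : ℕ) (hg : Gated C ε n (C n))
    (Z : Set F) (hZ : Gated C ε n Z) (hCZ : C n ⊆ Z) :
    Gated C ε (n + 1) (Z ∪ {w | ∃ z ∈ Z, w = (FreeGroup.of n)⁻¹ * z}) := by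
  have hyy : yy n false = (FreeGroup.of n)⁻¹ := by
    rw [yy, FreeGroup.of, FreeGroup.inv_mk]
    rfl
  have hB := gated_branch C ε h n hg Z hZ {((1 : F), false)} (Set.finite_singleton _)
    (by
      intro p hp
      rw [Set.mem_singleton_iff] at hp
      rw [hp]
      exact (L n).one_mem)
    (by
      intro p hp g hg'
      rw [Set.mem_singleton_iff] at hp
      rw [hp]
      simpa using hCZ hg')
    (fun _ => Z)
    (fun p _ => gated_succ C ε h n hg Z hZ)
    (fun p _ => hCZ)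
    (fun p _ b hb => not_St_of_mem n _ b (hZ.1 hb))
  have heq : (Z ∪ {w | ∃ z ∈ Z, w = (FreeGroup.of n)⁻¹ * z}) =
      (Z ∪ {w | ∃ p ∈ ({((1 : F), false)} : Set (F × Bool)), ∃ b ∈ Z, w = p.1 * (yy n p.2 * b)}) := by
    ext w
    simp [hyy]
  rw [heq]
  exact hB

theorem hull_succ_aux (C : ℕ → Set F) (ε : ℕ → ℝ) (h : Good C ε) (n : ℕ)
    (hg : Gated C ε n (C n))
    (ih : ∀ E : Set F, E.Finite → E ⊆ (L n : Set F) → ∃ Z, Gated C ε n Z ∧ E ⊆ Z) (r : ℕ) :
    ∀ E : Set F, E.Finite → E ⊆ (L (n + 1) : Set F) →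
      (∀ w ∈ E, w ∈ L n ∨ w.toWord.length ≤ r) →
      ∃ Z, Gated C ε (n + 1) Z ∧ E ⊆ Z ∧
        ∀ e, (∀ w ∈ E, ¬ St n e w) → ∀ z ∈ Z, ¬ St n e z := by
  induction r with
  | zero =>
    intro E hE hEL hr
    have hE0 : E ⊆ (L n : Set F) := by
      intro w hw
      rcases hr w hw with h1 | h1
      · exact h1
      · have h2 : w.toWord = [] := List.length_eq_zero_iff.1 (Nat.le_zero.1 h1)
        rw [FreeGroup.toWord_eq_nil_iff] at h2
        rw [h2]
        exact (L n).one_mem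
    obtain ⟨Z, hZ, hEZ⟩ := ih E hE hE0
    exact ⟨Z, gated_succ C ε h n hg Z hZ, hEZ, fun e _ z hz => not_St_of_mem n e z (hZ.1 hz)⟩
  | succ r ihr =>
    intro E hE hEL hr
    have hd : ∀ w : F, ∃ f : F, ∃ e : Bool, ∃ u : F, w ∈ L (n + 1) → w ∉ L n →
        f ∈ L n ∧ u ∈ L (n + 1) ∧ w = f * (yy n e * u) ∧ ¬ St n (!e) u ∧
          u.toWord.length < w.toWord.length := by
      intro w
      by_cases h1 : w ∈ L (n + 1)
      · by_cases h2 : w ∈ L n
        · exact ⟨1, true, 1, fun _ h3 => absurd h2 h3⟩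
        · obtain ⟨f, hf, e, u, hu, h3, h4, h5⟩ := first_decomp n w h1 h2
          exact ⟨f, e, u, fun _ _ => ⟨hf, hu, h3, h4, h5⟩⟩
      · exact ⟨1, true, 1, fun h3 => absurd h3 h1⟩
    choose f e u hfu using hd
    set E1 : Set F := {w | w ∈ E ∧ w ∉ L n} with hE1
    have hE1f : E1.Finite := hE.subset fun w hw => hw.1
    have hE1p : ∀ w ∈ E1, f w ∈ L n ∧ u w ∈ L (n + 1) ∧ w = f w * (yy n (e w) * u w) ∧
        ¬ St n (!(e w)) (u w) ∧ (u w).toWord.length < w.toWord.length :=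
      fun w hw => hfu w (hEL hw.1) hw.2
    set P : Set (F × Bool) := (fun w => (f w, e w)) '' E1 with hP
    have hPf : P.Finite := hE1f.image _
    -- the branches
    have hBex : ∀ p : F × Bool, ∃ B : Set F, p ∈ P → Gated C ε (n + 1) B ∧ C n ⊆ B ∧
        (∀ w ∈ E1, (f w, e w) = p → u w ∈ B) ∧ ∀ b ∈ B, ¬ St n (!p.2) b := by
      intro p
      by_cases hp : p ∈ P
      · obtain ⟨B, hB1, hB2, hB3⟩ := ihr (C n ∪ u '' {w | w ∈ E1 ∧ (f w, e w) = p})
          ((h.fin n).union ((hE1f.subset fun w hw => hw.1).image u)) (by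
            rintro w (hw | ⟨w', hw', rfl⟩)
            · exact L_mono (Nat.le_succ n) (h.sub n hw)
            · exact (hE1p w' hw'.1).2.1) (by
            rintro w (hw | ⟨w', hw', rfl⟩)
            · left; exact h.sub n hw
            · right
              have h1 := (hE1p w' hw'.1).2.2.2.2
              rcases hr w' hw'.1.1 with h2 | h2
              · exact absurd h2 hw'.1.2
              · omega)
        refine ⟨B, fun _ => ⟨hB1, fun g hg' => hB2 (Or.inl hg'), fun w hw hwp =>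
          hB2 (Or.inr ⟨w, ⟨hw, hwp⟩, rfl⟩), hB3 (!p.2) ?_⟩⟩
        rintro w (hw | ⟨w', hw', rfl⟩)
        · exact not_St_of_mem n _ w (h.sub n hw)
        · have h1 := (hE1p w' hw'.1).2.2.2.1
          have h2 : e w' = p.2 := by rw [← hw'.2]
          rw [h2] at h1
          exact h1
      · exact ⟨∅, fun h1 => absurd h1 hp⟩
    choose B hB using hBex
    obtain ⟨R, hR, hER⟩ := ih ({w | w ∈ E ∧ w ∈ L n} ∪
        (fun q : (F × Bool) × F => q.1.1 * q.2) '' (P ×ˢ C n))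
      ((hE.subset fun w hw => hw.1).union ((hPf.prod (h.fin n)).image _)) (by
        rintro w (hw | ⟨⟨p, g⟩, ⟨hp, hg'⟩, rfl⟩)
        · exact hw.2
        · obtain ⟨w', hw', hwp⟩ := hp
          have h1 := (hE1p w' hw').1
          have h2 : f w' = p.1 := by
            have := congrArg Prod.fst hwp
            exact this
          rw [h2] at h1
          exact (L n).mul_mem h1 (h.sub n hg'))
    have hZ := gated_branch C ε h n hg R hR P hPf (by
        rintro p ⟨w', hw', rfl⟩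
        exact (hE1p w' hw').1) (by
        intro p hp g hg'
        exact hER (Or.inr ⟨(p, g), ⟨hp, hg'⟩, rfl⟩)) B (fun p hp => (hB p hp).1)
        (fun p hp => (hB p hp).2.1) (fun p hp => (hB p hp).2.2.2)
    refine ⟨_, hZ, ?_, ?_⟩
    · intro w hw
      by_cases h1 : w ∈ L n
      · left; exact hER (Or.inl ⟨hw, h1⟩)
      · right
        have hw1 : w ∈ E1 := ⟨hw, h1⟩
        have hp : (f w, e w) ∈ P := ⟨w, hw1, rfl⟩
        exact ⟨(f w, e w), hp, u w, (hB _ hp).2.2.1 w hw1 rfl, (hE1p w hw1).2.2.1⟩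
    · rintro e0 he0 z (hz | ⟨p, hp, b, hb, rfl⟩) hSt
      · exact not_St_of_mem n e0 z (hR.1 hz) hSt
      · have hbS := (hB p hp).2.2.2 b hb
        obtain ⟨w', hw', hwp⟩ := hp
        have h2 : f w' = p.1 := by
          have := congrArg Prod.fst hwp
          exact this
        have h3 : e w' = p.2 := by
          have := congrArg Prod.snd hwp
          exact this
        obtain ⟨q1, q2, q3, q4, q5⟩ := hE1p w' hw'
        rw [h2] at q1 q3
        rw [h3] at q3 q4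
        by_cases hp1 : p.1 = 1
        · rw [hp1, one_mul] at hSt q3
          have h4 := St_yy_mul n p.2 b hbS
          have h5 := St_excl n e0 p.2 _ hSt h4
          have h6 := St_yy_mul n p.2 (u w') q4
          rw [← q3, ← h5] at h6
          exact he0 w' hw'.1 h6
        · exact not_St_branch n e0 p.2 p.1 b q1 hp1 hbS hSt

theorem hull_succ (C : ℕ → Set F) (ε : ℕ → ℝ) (h : Good C ε) (n : ℕ) (hg : Gated C ε n (C n))
    (ih : ∀ E : Set F, E.Finite → E ⊆ (L n : Set F) → ∃ Z, Gated C ε n Z ∧ E ⊆ Z) (E : Set F)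
    (hE : E.Finite) (hEL : E ⊆ (L (n + 1) : Set F)) : ∃ Z, Gated C ε (n + 1) Z ∧ E ⊆ Z := by
  classical
  obtain ⟨Z, hZ, hEZ, _⟩ := hull_succ_aux C ε h n hg ih
    (hE.toFinset.sup fun w => w.toWord.length) E hE hEL (fun w hw => Or.inr
      (Finset.le_sup (f := fun w : F => w.toWord.length) (hE.mem_toFinset.2 hw)))
  exact ⟨Z, hZ, hEZ⟩

theorem hull (C : ℕ → Set F) (ε : ℕ → ℝ) (h : Good C ε) (n : ℕ) (hg : ∀ m < n, Gated C ε m (C m))
    (E : Set F) (hE : E.Finite) (hEL : E ⊆ (L n : Set F)) : ∃ Z, Gated C ε n Z ∧ E ⊆ Z := by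
  induction n generalizing E with
  | zero =>
    refine ⟨{1}, ⟨?_, Set.finite_singleton 1, Set.singleton_nonempty 1, ?_⟩, ?_⟩
    · intro w hw
      rw [Set.mem_singleton_iff] at hw
      rw [hw]
      exact one_mem _
    · intro w hw
      have hw1 : w = 1 := (L_zero w).mp hw
      refine ⟨1, rfl, ?_⟩
      intro z hz
      rw [Set.mem_singleton_iff] at hz
      rw [hz, hw1]
      simp [N_one C ε h]
    · intro w hw
      exact (L_zero w).mp (hEL hw)
  | succ n ih =>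
    exact hull_succ C ε h n (hg n (Nat.lt_succ_self n))
      (fun E' hE' hEL' => ih (fun m hm => hg m (by omega)) E' hE' hEL') E hE hEL

theorem psd_push (K : F → ℝ) (S : Set F) (h : PSDOn K S) {ι : Type} (T : Finset ι) (P : ι → F)
    (hP : ∀ x ∈ T, P x ∈ S) (a : ι → ℝ) : 0 ≤ ∑ x ∈ T, ∑ y ∈ T, a x * a y * K ((P x)⁻¹ * P y) := by
  classical
  obtain ⟨c, hc⟩ : ∃ c : F → ℝ, c = fun p => ∑ x ∈ T.filter (fun x => P x = p), a x := ⟨_, rfl⟩
  have push : ∀ G : F → ℝ, ∑ x ∈ T, a x * G (P x) = ∑ p ∈ T.image P, c p * G p := by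
    intro G
    rw [← Finset.sum_fiberwise_of_maps_to (g := P) (t := T.image P)
      (fun x hx => Finset.mem_image_of_mem P hx)]
    refine Finset.sum_congr rfl fun p _ => ?_
    rw [hc, Finset.sum_mul]
    refine Finset.sum_congr rfl fun x hx => ?_
    rw [(Finset.mem_filter.mp hx).2]
  have h1 : ∑ x ∈ T, ∑ y ∈ T, a x * a y * K ((P x)⁻¹ * P y) =
      ∑ p ∈ T.image P, ∑ q ∈ T.image P, c p * c q * K (p⁻¹ * q) := by
    have h2 : ∀ x, ∑ y ∈ T, a x * a y * K ((P x)⁻¹ * P y) =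
        a x * ∑ q ∈ T.image P, c q * K ((P x)⁻¹ * q) := by
      intro x
      rw [← push (fun q => K ((P x)⁻¹ * q)), Finset.mul_sum]
      exact Finset.sum_congr rfl fun y _ => by ring
    rw [Finset.sum_congr rfl fun x _ => h2 x,
      push (fun p => ∑ q ∈ T.image P, c q * K (p⁻¹ * q))]
    refine Finset.sum_congr rfl fun p _ => ?_
    rw [Finset.mul_sum]
    exact Finset.sum_congr rfl fun q _ => by ring
  rw [h1]
  apply h
  intro p hp
  rw [Finset.mem_coe, Finset.mem_image] at hp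
  obtain ⟨x, hx, rfl⟩ := hp
  exact hP x hx

theorem psd_resid (K : F → ℝ) (hK : ∀ w, K w⁻¹ = K w) (S : Set F) (h : PSDOn K S) {ι : Type} (T : Finset ι)
    (u c : ι → F) (hu : ∀ x ∈ T, u x ∈ S) (hc : ∀ x ∈ T, c x ∈ S)
    (hgate : ∀ x ∈ T, ∀ y ∈ T, K ((u x)⁻¹ * c y) = K ((u x)⁻¹ * c x) * K ((c x)⁻¹ * c y))
    (ρ : ℝ) (hρ0 : 0 ≤ ρ) (hρ1 : ρ ≤ 1) (a : ι → ℝ) :
    0 ≤ ∑ x ∈ T, ∑ y ∈ T, a x * a y *
      (K ((u x)⁻¹ * u y) - ρ ^ 2 * K ((u x)⁻¹ * c x) * K ((c x)⁻¹ * c y) * K ((c y)⁻¹ * u y)) := by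
  classical
  have hk : ∀ y, K ((c y)⁻¹ * u y) = K ((u y)⁻¹ * c y) := by
    intro y
    rw [← hK ((c y)⁻¹ * u y)]
    congr 1
    group
  have hB := psd_push K S h T c hc (fun x => a x * K ((u x)⁻¹ * c x))
  have hA := psd_push K S h (T ×ˢ (Finset.univ : Finset Bool)) (fun p => if p.2 then u p.1 else c p.1)
    (by
      rintro ⟨x, b⟩ hx
      rw [Finset.mem_product] at hx
      cases b
      · simpa using hc x hx.1
      · simpa using hu x hx.1)
    (fun p => if p.2 then a p.1 else -(a p.1 * K ((u p.1)⁻¹ * c p.1)))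
  have hA' : 0 ≤ ∑ x ∈ T, ∑ y ∈ T, a x * a y *
      (K ((u x)⁻¹ * u y) - K ((u x)⁻¹ * c x) * K ((c x)⁻¹ * c y) * K ((u y)⁻¹ * c y)) := by
    refine hA.trans_eq ?_
    rw [Finset.sum_product]
    refine Finset.sum_congr rfl fun x hx => ?_
    rw [Fintype.sum_bool, Finset.sum_product, Finset.sum_product, ← Finset.sum_add_distrib]
    refine Finset.sum_congr rfl fun y hy => ?_
    rw [Fintype.sum_bool, Fintype.sum_bool]
    simp only [if_true, Bool.false_eq_true, if_false]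
    have e1 := hgate x hx y hy
    have e2 : K ((c x)⁻¹ * u y) = K ((u y)⁻¹ * c y) * K ((c x)⁻¹ * c y) := by
      have e3 : K ((c x)⁻¹ * u y) = K ((u y)⁻¹ * c x) := by
        rw [← hK ((c x)⁻¹ * u y)]
        congr 1
        group
      have e4 : K ((c y)⁻¹ * c x) = K ((c x)⁻¹ * c y) := by
        rw [← hK ((c y)⁻¹ * c x)]
        congr 1
        group
      rw [e3, hgate y hy x hx, e4]
    rw [e1, e2]
    ring
  have hsum : ∑ x ∈ T, ∑ y ∈ T, a x * a y *
      (K ((u x)⁻¹ * u y) - ρ ^ 2 * K ((u x)⁻¹ * c x) * K ((c x)⁻¹ * c y) * K ((c y)⁻¹ * u y)) =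
      (∑ x ∈ T, ∑ y ∈ T, a x * a y *
        (K ((u x)⁻¹ * u y) - K ((u x)⁻¹ * c x) * K ((c x)⁻¹ * c y) * K ((u y)⁻¹ * c y))) +
      (1 - ρ ^ 2) * ∑ x ∈ T, ∑ y ∈ T, (a x * K ((u x)⁻¹ * c x)) * (a y * K ((u y)⁻¹ * c y)) *
        K ((c x)⁻¹ * c y) := by
    rw [Finset.mul_sum, ← Finset.sum_add_distrib]
    refine Finset.sum_congr rfl fun x hx => ?_
    rw [Finset.mul_sum, ← Finset.sum_add_distrib]
    refine Finset.sum_congr rfl fun y hy => ?_
    rw [hk y]
    ring
  rw [hsum]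
  have h1 : 0 ≤ 1 - ρ ^ 2 := by nlinarith
  have h2 := mul_nonneg h1 hB
  linarith

theorem psd_glue (K : F → ℝ) (hK : ∀ w, K w⁻¹ = K w) (S : Set F) (h : PSDOn K S) (T : Finset F)
    (B : Set F) (lb : F → F × Bool) (P : F → F) (κ : F → ℝ) (u c : F → F)
    (ρ : ℝ) (hρ0 : 0 ≤ ρ) (hρ1 : ρ ≤ 1)
    (hP : ∀ x ∈ T, P x ∈ S)
    (hnB : ∀ x ∈ T, x ∉ B → P x = x ∧ κ x = 1)
    (hAB : ∀ x ∈ T, x ∉ B → ∀ y ∈ T, y ∈ B → K (x⁻¹ * y) = κ y * K (x⁻¹ * P y))
    (hdiff : ∀ x ∈ T, x ∈ B → ∀ y ∈ T, y ∈ B → lb x ≠ lb y →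
      K (x⁻¹ * y) = κ x * κ y * K ((P x)⁻¹ * P y))
    (hsame : ∀ x ∈ T, x ∈ B → ∀ y ∈ T, y ∈ B → lb x = lb y →
      K (x⁻¹ * y) = K ((u x)⁻¹ * u y) ∧ (P x)⁻¹ * P y = (c x)⁻¹ * c y ∧
      K ((u x)⁻¹ * c y) = K ((u x)⁻¹ * c x) * K ((c x)⁻¹ * c y))
    (hu : ∀ x ∈ T, x ∈ B → u x ∈ S ∧ c x ∈ S ∧ κ x = ρ * K ((u x)⁻¹ * c x))
    (a : F → ℝ) : 0 ≤ ∑ x ∈ T, ∑ y ∈ T, a x * a y * K (x⁻¹ * y) := by
  classical
  have key : ∀ x ∈ T, ∀ y ∈ T, ¬ (x ∈ B ∧ y ∈ B ∧ lb x = lb y) →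
      K (x⁻¹ * y) = κ x * κ y * K ((P x)⁻¹ * P y) := by
    intro x hx y hy hne
    by_cases hxB : x ∈ B
    · by_cases hyB : y ∈ B
      · have hl : lb x ≠ lb y := fun hl => hne ⟨hxB, hyB, hl⟩
        exact hdiff x hx hxB y hy hyB hl
      · obtain ⟨hPy, hκy⟩ := hnB y hy hyB
        have h1 : K (x⁻¹ * y) = K (y⁻¹ * x) := by
          rw [← hK (x⁻¹ * y)]
          congr 1
          group
        have h2 : K ((P x)⁻¹ * P y) = K (y⁻¹ * P x) := by
          rw [hPy, ← hK ((P x)⁻¹ * y)]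
          congr 1
          group
        rw [h1, h2, hAB y hy hyB x hx hxB, hκy]
        ring
    · obtain ⟨hPx, hκx⟩ := hnB x hx hxB
      by_cases hyB : y ∈ B
      · rw [hAB x hx hxB y hy hyB, hPx, hκx]
        ring
      · obtain ⟨hPy, hκy⟩ := hnB y hy hyB
        rw [hPx, hκx, hPy, hκy]
        ring
  have hsplit : ∑ x ∈ T, ∑ y ∈ T, a x * a y * K (x⁻¹ * y) =
      (∑ x ∈ T, ∑ y ∈ T, (a x * κ x) * (a y * κ y) * K ((P x)⁻¹ * P y)) +
      ∑ x ∈ T, ∑ y ∈ T, a x * a y * (K (x⁻¹ * y) - κ x * κ y * K ((P x)⁻¹ * P y)) := by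
    rw [← Finset.sum_add_distrib]
    refine Finset.sum_congr rfl fun x _ => ?_
    rw [← Finset.sum_add_distrib]
    refine Finset.sum_congr rfl fun y _ => ?_
    ring
  have h1 : 0 ≤ ∑ x ∈ T, ∑ y ∈ T, (a x * κ x) * (a y * κ y) * K ((P x)⁻¹ * P y) :=
    psd_push K S h T P hP (fun x => a x * κ x)
  have hR0 : ∀ x ∈ T, ∀ y ∈ T, ¬ (x ∈ B ∧ y ∈ B ∧ lb x = lb y) →
      a x * a y * (K (x⁻¹ * y) - κ x * κ y * K ((P x)⁻¹ * P y)) = 0 := by
    intro x hx y hy hne
    rw [key x hx y hy hne]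
    ring
  have h2 : ∑ x ∈ T, ∑ y ∈ T, a x * a y * (K (x⁻¹ * y) - κ x * κ y * K ((P x)⁻¹ * P y)) =
      ∑ l ∈ (T.filter (fun x => x ∈ B)).image lb,
        ∑ x ∈ T.filter (fun x => x ∈ B ∧ lb x = l), ∑ y ∈ T.filter (fun x => x ∈ B ∧ lb x = l),
          a x * a y * (K (x⁻¹ * y) - κ x * κ y * K ((P x)⁻¹ * P y)) := by
    have e1 : ∑ x ∈ T, ∑ y ∈ T, a x * a y * (K (x⁻¹ * y) - κ x * κ y * K ((P x)⁻¹ * P y)) =
        ∑ x ∈ T.filter (fun x => x ∈ B), ∑ y ∈ T,
          a x * a y * (K (x⁻¹ * y) - κ x * κ y * K ((P x)⁻¹ * P y)) := by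
      rw [Finset.sum_filter]
      refine Finset.sum_congr rfl fun x hx => ?_
      by_cases hxB : x ∈ B
      · rw [if_pos hxB]
      · rw [if_neg hxB]
        exact Finset.sum_eq_zero fun y hy => hR0 x hx y hy (fun hh => hxB hh.1)
    rw [e1]
    rw [← Finset.sum_fiberwise_of_maps_to (s := T.filter (fun x => x ∈ B))
      (t := (T.filter (fun x => x ∈ B)).image lb) (g := lb)
      (fun x hx => Finset.mem_image_of_mem lb hx)]
    refine Finset.sum_congr rfl fun l _ => ?_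
    rw [Finset.filter_filter]
    refine Finset.sum_congr rfl fun x hx => ?_
    rw [Finset.mem_filter] at hx
    rw [Finset.sum_filter]
    refine Finset.sum_congr rfl fun y hy => ?_
    by_cases hyB : y ∈ B ∧ lb y = l
    · rw [if_pos hyB]
    · rw [if_neg hyB]
      refine hR0 x hx.1 y hy (fun hh => hyB ⟨hh.2.1, ?_⟩)
      rw [← hh.2.2]
      exact hx.2.2
  have h3 : 0 ≤ ∑ l ∈ (T.filter (fun x => x ∈ B)).image lb,
        ∑ x ∈ T.filter (fun x => x ∈ B ∧ lb x = l), ∑ y ∈ T.filter (fun x => x ∈ B ∧ lb x = l),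
          a x * a y * (K (x⁻¹ * y) - κ x * κ y * K ((P x)⁻¹ * P y)) := by
    refine Finset.sum_nonneg fun l _ => ?_
    have hmem : ∀ x ∈ T.filter (fun x => x ∈ B ∧ lb x = l), x ∈ T ∧ x ∈ B ∧ lb x = l := by
      intro x hx
      exact Finset.mem_filter.mp hx
    have h4 := psd_resid K hK S h (T.filter (fun x => x ∈ B ∧ lb x = l)) u c
      (fun x hx => (hu x (hmem x hx).1 (hmem x hx).2.1).1)
      (fun x hx => (hu x (hmem x hx).1 (hmem x hx).2.1).2.1)
      (fun x hx y hy => (hsame x (hmem x hx).1 (hmem x hx).2.1 y (hmem y hy).1 (hmem y hy).2.1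
        (by rw [(hmem x hx).2.2, (hmem y hy).2.2])).2.2) ρ hρ0 hρ1 a
    refine le_of_le_of_eq h4 ?_
    refine Finset.sum_congr rfl fun x hx => ?_
    refine Finset.sum_congr rfl fun y hy => ?_
    obtain ⟨hxT, hxB, hxl⟩ := hmem x hx
    obtain ⟨hyT, hyB, hyl⟩ := hmem y hy
    obtain ⟨e1, e2, e3⟩ := hsame x hxT hxB y hyT hyB (by rw [hxl, hyl])
    have e4 : K ((c y)⁻¹ * u y) = K ((u y)⁻¹ * c y) := by
      rw [← hK ((c y)⁻¹ * u y)]
      congr 1
      group
    rw [e1, e2, (hu x hxT hxB).2.2, (hu y hyT hyB).2.2, e4]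
    ring
  rw [hsplit, h2]
  exact add_nonneg h1 h3

theorem psd_succ_near (C : ℕ → Set F) (ε : ℕ → ℝ) (h : Good C ε) (n : ℕ) (f : F) (e : Bool)
    (u c x : F) (hf : f ∈ L n) (hu : u ∈ L (n + 1)) (hb : ¬ St n (!e) u) (hc : c ∈ C n)
    (hgate : ∀ z ∈ C n, N C ε (u⁻¹ * z) = N C ε (u⁻¹ * c) + N C ε (c⁻¹ * z))
    (hx : x ∈ L (n + 1)) (hnx : ¬ St n e (f⁻¹ * x)) :
    N C ε (x⁻¹ * (f * (yy n e * u))) = N C ε (x⁻¹ * (f * c)) + ε n + N C ε (u⁻¹ * c) := by
  have hfL : f ∈ L (n + 1) := L_mono (Nat.le_succ n) hf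
  have ha : f⁻¹ * x ∈ L (n + 1) := (L (n + 1)).mul_mem ((L (n + 1)).inv_mem hfL) hx
  have hbm : yy n e * u ∈ L (n + 1) := (L (n + 1)).mul_mem (yy_mem n e (n + 1) (Nat.lt_succ_self n)) hu
  obtain ⟨g, hg, hN⟩ := edge_cross C ε h n e (f⁻¹ * x) (yy n e * u) ha hbm hnx (St_yy_mul n e u hb)
  have e1 : (f⁻¹ * x)⁻¹ * (yy n e * u) = x⁻¹ * (f * (yy n e * u)) := by group
  have e2 : (f⁻¹ * x)⁻¹ * g = x⁻¹ * (f * g) := by group
  have e3 : (yy n e * g)⁻¹ * (yy n e * u) = (u⁻¹ * g)⁻¹ := by group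
  rw [e1, e2, e3, N_inv C ε h, hgate g hg] at hN
  apply le_antisymm
  · have e4 : x⁻¹ * (f * (yy n e * u)) = (x⁻¹ * (f * c)) * (c⁻¹ * yy n e * c) * (u⁻¹ * c)⁻¹ := by
      group
    rw [e4]
    have t1 := N_mul_le C ε h ((x⁻¹ * (f * c)) * (c⁻¹ * yy n e * c)) ((u⁻¹ * c)⁻¹)
    have t2 := N_mul_le C ε h (x⁻¹ * (f * c)) (c⁻¹ * yy n e * c)
    have t3 := N_gen C ε h n e c hc
    rw [N_inv C ε h] at t1
    linarith
  · have e5 : x⁻¹ * (f * c) = (x⁻¹ * (f * g)) * (c⁻¹ * g)⁻¹ := by group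
    have t1 := N_mul_le C ε h (x⁻¹ * (f * g)) ((c⁻¹ * g)⁻¹)
    rw [N_inv C ε h, ← e5] at t1
    linarith

theorem psd_succ_step (C : ℕ → Set F) (ε : ℕ → ℝ) (h : Good C ε) (n : ℕ) (hg : Gated C ε n (C n))
    (K : F → ℝ) (hKd : ∀ w, K w = Real.exp (-(N C ε w))) (r : ℕ)
    (ih : PSDOn K {w | w ∈ L (n + 1) ∧ (w ∈ L n ∨ w.toWord.length ≤ r)}) :
    PSDOn K {w | w ∈ L (n + 1) ∧ (w ∈ L n ∨ w.toWord.length ≤ r + 1)} := by
  classical
  intro T hT a
  have hgs : Gated C ε (n + 1) (C n) := gated_succ C ε h n hg (C n) hg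
  have hdata : ∀ w : F, ∃ d : F × Bool × F × F, w ∈ L (n + 1) → w ∉ L n →
      d.1 ∈ L n ∧ d.2.2.1 ∈ L (n + 1) ∧ w = d.1 * (yy n d.2.1 * d.2.2.1) ∧
      ¬ St n (!d.2.1) d.2.2.1 ∧ d.2.2.1.toWord.length < w.toWord.length ∧ d.2.2.2 ∈ C n ∧
      ∀ z ∈ C n, N C ε (d.2.2.1⁻¹ * z) = N C ε (d.2.2.1⁻¹ * d.2.2.2) + N C ε (d.2.2.2⁻¹ * z) := by
    intro w
    by_cases h1 : w ∈ L (n + 1)
    · by_cases h2 : w ∈ L n
      · exact ⟨(1, true, 1, 1), fun _ h3 => absurd h2 h3⟩
      · obtain ⟨f, hf, e, u, hu, hw, hb, hl⟩ := first_decomp n w h1 h2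
        obtain ⟨c, hc, hgc⟩ := hgs.2.2.2 u hu
        exact ⟨(f, e, u, c), fun _ _ => ⟨hf, hu, hw, hb, hl, hc, hgc⟩⟩
    · exact ⟨(1, true, 1, 1), fun h3 => absurd h3 h1⟩
  choose d hd using hdata
  have hLn : ∀ w, w ∈ L n → w ∈ L (n + 1) := fun w hw => L_mono (Nat.le_succ n) hw
  have hCL : ∀ w, w ∈ C n → w ∈ L n := fun w hw => h.sub n hw
  have hKinv : ∀ w, K w⁻¹ = K w := by
    intro w
    rw [hKd, hKd, N_inv C ε h]
  have hTL : ∀ x ∈ T, x ∈ L (n + 1) := fun x hx => (hT (Finset.mem_coe.mpr hx)).1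
  have hTl : ∀ x ∈ T, x ∉ L n → x.toWord.length ≤ r + 1 := by
    intro x hx hxn
    rcases (hT (Finset.mem_coe.mpr hx)).2 with h1 | h1
    · exact absurd h1 hxn
    · exact h1
  -- the near formula
  have hnear : ∀ w, w ∈ L (n + 1) → w ∉ L n → ∀ x, x ∈ L (n + 1) → ¬ St n (d w).2.1 ((d w).1⁻¹ * x) →
      K (x⁻¹ * w) = (Real.exp (-(ε n)) * K ((d w).2.2.1⁻¹ * (d w).2.2.2)) *
        K (x⁻¹ * ((d w).1 * (d w).2.2.2)) := by
    intro w h1 h2 x hx hnx
    obtain ⟨hf, hu, hw, hb, hl, hc, hgc⟩ := hd w h1 h2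
    have hN := psd_succ_near C ε h n (d w).1 (d w).2.1 (d w).2.2.1 (d w).2.2.2 x hf hu hb hc hgc hx hnx
    rw [← hw] at hN
    rw [hKd, hKd, hKd, hN, ← Real.exp_add, ← Real.exp_add]
    congr 1
    ring
  refine psd_glue K hKinv {w | w ∈ L (n + 1) ∧ (w ∈ L n ∨ w.toWord.length ≤ r)} ih T {w | w ∉ L n}
    (fun w => ((d w).1, (d w).2.1))
    (fun w => if w ∈ L n then w else (d w).1 * (d w).2.2.2)
    (fun w => if w ∈ L n then 1 else Real.exp (-(ε n)) * K ((d w).2.2.1⁻¹ * (d w).2.2.2))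
    (fun w => (d w).2.2.1) (fun w => (d w).2.2.2) (Real.exp (-(ε n))) (Real.exp_pos _).le ?_ ?_ ?_ ?_ ?_ ?_ ?_ a
  · rw [Real.exp_le_one_iff]
    have := h.pos n
    linarith
  · intro x hx
    by_cases hxn : x ∈ L n
    · simp only [hxn, if_true]
      exact ⟨hLn x hxn, Or.inl hxn⟩
    · simp only [hxn, if_false]
      obtain ⟨hf, hu, hw, hb, hl, hc, hgc⟩ := hd x (hTL x hx) hxn
      have hm : (d x).1 * (d x).2.2.2 ∈ L n := (L n).mul_mem hf (hCL _ hc)
      exact ⟨hLn _ hm, Or.inl hm⟩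
  · intro x hx hxB
    have hxn : x ∈ L n := by
      by_contra hcon
      exact hxB hcon
    simp only [hxn, if_true]
    exact ⟨trivial, trivial⟩
  · intro x hx hxB y hy hyB
    have hxn : x ∈ L n := by
      by_contra hcon
      exact hxB hcon
    have hyn : y ∉ L n := hyB
    simp only [hyn, if_false]
    obtain ⟨hf, hu, hw, hb, hl, hc, hgc⟩ := hd y (hTL y hy) hyn
    apply hnear y (hTL y hy) hyn x (hTL x hx)
    exact not_St_of_mem n _ _ ((L n).mul_mem ((L n).inv_mem hf) hxn)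
  · intro x hx hxB y hy hyB hlb
    have hxn : x ∉ L n := hxB
    have hyn : y ∉ L n := hyB
    simp only [hyn, hxn, if_false]
    obtain ⟨hf, hu, hw, hb, hl, hc, hgc⟩ := hd y (hTL y hy) hyn
    obtain ⟨hf', hu', hw', hb', hl', hc', hgc'⟩ := hd x (hTL x hx) hxn
    have hns : ¬ St n (d y).2.1 ((d y).1⁻¹ * x) := by
      by_cases hff : (d x).1 = (d y).1
      · have hee : (d x).2.1 ≠ (d y).2.1 := by
          intro hcon
          exact hlb (Prod.ext hff hcon)
        have hx2 : (d y).1⁻¹ * x = yy n (d x).2.1 * (d x).2.2.1 := by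
          conv_lhs => rw [hw']
          rw [hff]
          group
        rw [hx2]
        intro hst
        exact hee (St_excl n _ _ _ (St_yy_mul n (d x).2.1 (d x).2.2.1 hb') hst)
      · have hx2 : (d y).1⁻¹ * x = ((d y).1⁻¹ * (d x).1) * (yy n (d x).2.1 * (d x).2.2.1) := by
          conv_lhs => rw [hw']
          group
        rw [hx2]
        apply not_St_branch n _ _ _ _ ((L n).mul_mem ((L n).inv_mem hf) hf') _ hb'
        intro hcon
        apply hff
        have := inv_mul_eq_one.mp hcon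
        exact this.symm
    rw [hnear y (hTL y hy) hyn x (hTL x hx) hns]
    have hm : (d y).1 * (d y).2.2.2 ∈ L n := (L n).mul_mem hf (hCL _ hc)
    have hns2 : ¬ St n (d x).2.1 ((d x).1⁻¹ * ((d y).1 * (d y).2.2.2)) :=
      not_St_of_mem n _ _ ((L n).mul_mem ((L n).inv_mem hf') hm)
    have hk := hnear x (hTL x hx) hxn ((d y).1 * (d y).2.2.2) (hLn _ hm) hns2
    have e1 : x⁻¹ * ((d y).1 * (d y).2.2.2) = (((d y).1 * (d y).2.2.2)⁻¹ * x)⁻¹ := by group
    have e2 : ((d x).1 * (d x).2.2.2)⁻¹ * ((d y).1 * (d y).2.2.2) =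
        (((d y).1 * (d y).2.2.2)⁻¹ * ((d x).1 * (d x).2.2.2))⁻¹ := by group
    rw [e1, hKinv, hk, e2, hKinv]
    ring
  · intro x hx hxB y hy hyB hlb
    have hxn : x ∉ L n := hxB
    have hyn : y ∉ L n := hyB
    simp only [hyn, hxn, if_false]
    obtain ⟨hf, hu, hw, hb, hl, hc, hgc⟩ := hd y (hTL y hy) hyn
    obtain ⟨hf', hu', hw', hb', hl', hc', hgc'⟩ := hd x (hTL x hx) hxn
    have hff : (d x).1 = (d y).1 := (Prod.mk.inj hlb).1
    have hee : (d x).2.1 = (d y).2.1 := (Prod.mk.inj hlb).2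
    refine ⟨?_, ?_, ?_⟩
    · have e1 : x⁻¹ * y = (d x).2.2.1⁻¹ * (d y).2.2.1 := by
        conv_lhs => rw [hw', hw]
        rw [hff, hee]
        group
      rw [e1]
    · rw [hff]
      group
    · rw [hKd, hKd, hKd, hgc' _ hc, ← Real.exp_add]
      congr 1
      ring
  · intro x hx hxB
    have hxn : x ∉ L n := hxB
    simp only [hxn, if_false]
    obtain ⟨hf', hu', hw', hb', hl', hc', hgc'⟩ := hd x (hTL x hx) hxn
    refine ⟨⟨hu', Or.inr ?_⟩, ⟨hLn _ (hCL _ hc'), Or.inl (hCL _ hc')⟩, trivial⟩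
    have := hTl x hx hxn
    omega

theorem psd_succ_all (C : ℕ → Set F) (ε : ℕ → ℝ) (h : Good C ε) (n : ℕ) (hg : Gated C ε n (C n))
    (K : F → ℝ) (hKd : ∀ w, K w = Real.exp (-(N C ε w)))
    (hn : PSDOn K (L n : Set F)) (r : ℕ) :
    PSDOn K {w | w ∈ L (n + 1) ∧ (w ∈ L n ∨ w.toWord.length ≤ r)} := by
  induction r with
  | zero =>
    intro T hT a
    apply hn T _ a
    intro x hx
    rcases (hT hx).2 with h1 | h1
    · exact h1
    · have hx1 : x.toWord = [] := List.length_eq_zero_iff.mp (Nat.le_zero.mp h1)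
      have hx2 : x = 1 := FreeGroup.toWord_eq_nil_iff.mp hx1
      rw [hx2]
      exact (L n).one_mem
  | succ r ih => exact psd_succ_step C ε h n hg K hKd r ih

theorem psd_succ (C : ℕ → Set F) (ε : ℕ → ℝ) (h : Good C ε) (n : ℕ) (hg : Gated C ε n (C n))
    (hn : PSDOn (fun w => Real.exp (-(N C ε w))) (L n : Set F)) :
    PSDOn (fun w => Real.exp (-(N C ε w))) (L (n + 1) : Set F) := by
  intro T hT a
  apply psd_succ_all C ε h n hg (fun w => Real.exp (-(N C ε w))) (fun _ => rfl) hn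
    (T.sup (fun w => w.toWord.length)) T _ a
  intro x hx
  exact ⟨hT hx, Or.inr (Finset.le_sup (f := fun w : F => w.toWord.length) (Finset.mem_coe.mp hx))⟩

theorem psd_all_aux (C : ℕ → Set F) (ε : ℕ → ℝ) (h : Good C ε) (hg : ∀ n, Gated C ε n (C n)) (n : ℕ) :
    PSDOn (fun w => Real.exp (-(N C ε w))) (L n : Set F) := by
  induction n with
  | zero =>
    intro T hT c
    have hsub : T ⊆ {1} := by
      intro x hx
      have : x ∈ L 0 := hT hx
      rw [L_zero] at this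
      simp [this]
    rcases Finset.subset_singleton_iff.mp hsub with h0 | h0
    · subst h0; simp
    · subst h0
      simp only [Finset.sum_singleton]
      exact mul_nonneg (mul_self_nonneg _) (Real.exp_nonneg _)
  | succ n ih => exact psd_succ C ε h n (hg n) ih

theorem psd_all_fin (T : Finset F) : ∃ n, (T : Set F) ⊆ (L n : Set F) := by
  classical
  induction T using Finset.induction_on with
  | empty => exact ⟨0, by simp⟩
  | insert a s ha ih =>
    obtain ⟨n, hn⟩ := ih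
    obtain ⟨m, hm⟩ := exists_mem_L a
    refine ⟨max n m, ?_⟩
    intro x hx
    rcases Finset.mem_insert.mp (Finset.mem_coe.mp hx) with h1 | h1
    · subst h1
      exact L_mono (le_max_right n m) hm
    · exact L_mono (le_max_left n m) (hn (Finset.mem_coe.mpr h1))

theorem psd_all (C : ℕ → Set F) (ε : ℕ → ℝ) (h : Good C ε) (hg : ∀ n, Gated C ε n (C n))
    (T : Finset F) (c : F → ℝ) : 0 ≤ ∑ x ∈ T, ∑ y ∈ T, c x * c y * Real.exp (-(N C ε (x⁻¹ * y))) := by
  obtain ⟨n, hn⟩ := psd_all_fin T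
  exact psd_all_aux C ε h hg n T hn c

open Classical in
noncomputable def rec_exists_G {α : Type} [Inhabited α] (P : ℕ → (ℕ → α) → Prop) :
    ℕ → (ℕ → α)
  | 0 => fun _ => default
  | r + 1 => Function.update (rec_exists_G P r) r
      (if h : ∃ a, P r (Function.update (rec_exists_G P r) r a) then Classical.choose h
        else default)

theorem rec_exists_agree {α : Type} [Inhabited α] (P : ℕ → (ℕ → α) → Prop) (r : ℕ) :
    ∀ j, j < r → rec_exists_G P r j = rec_exists_G P (j + 1) j := by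
  induction r with
  | zero => intro j hj; omega
  | succ r ih =>
    intro j hj
    by_cases hjr : j = r
    · subst hjr; rfl
    · rw [← ih j (by omega)]
      change Function.update (rec_exists_G P r) r _ j = _
      rw [Function.update_of_ne hjr]

theorem rec_exists {α : Type} [Inhabited α] (P : ℕ → (ℕ → α) → Prop)
    (hloc : ∀ r (Z Z' : ℕ → α), (∀ j ≤ r, Z j = Z' j) → P r Z → P r Z')
    (hstep : ∀ r (Z : ℕ → α), (∀ j < r, P j Z) → ∃ a : α, P r (Function.update Z r a)) :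
    ∃ Z : ℕ → α, ∀ r, P r Z := by
  refine ⟨fun r => rec_exists_G P (r + 1) r, ?_⟩
  intro r
  induction r using Nat.strong_induction_on with
  | _ r ih =>
    have h1 : ∀ j < r, P j (rec_exists_G P r) := by
      intro j hj
      refine hloc j _ _ ?_ (ih j hj)
      intro i hi
      exact (rec_exists_agree P r i (by omega)).symm
    have h2 := hstep r (rec_exists_G P r) h1
    have h3 : P r (rec_exists_G P (r + 1)) := by
      have h4 : rec_exists_G P (r + 1) = Function.update (rec_exists_G P r) r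
          (Classical.choose h2) := by
        change Function.update (rec_exists_G P r) r _ = _
        rw [dif_pos h2]
      rw [h4]
      exact Classical.choose_spec h2
    refine hloc r _ _ ?_ h3
    intro j hj
    exact rec_exists_agree P (r + 1) j (by omega)

theorem exists_E_countable : Countable F := (FreeGroup.toWord_injective (α := ℕ)).countable

theorem exists_E : ∃ E : ℕ → Set F, (∀ r, (E r).Finite ∧ E r ⊆ (L (r + 1) : Set F)) ∧
    ∀ g : F, ∃ r0, ∀ r ≥ r0, g ∈ E r := by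
  haveI := exists_E_countable
  obtain ⟨en, hen⟩ := exists_surjective_nat F
  refine ⟨fun r => {g | ∃ i, i ≤ r ∧ en i = g ∧ g ∈ L (r + 1)}, fun r => ⟨?_, ?_⟩, ?_⟩
  · apply ((Set.finite_Iic r).image en).subset
    rintro g ⟨i, hi, rfl, _⟩
    exact ⟨i, hi, rfl⟩
  · rintro g ⟨i, hi, rfl, h⟩
    exact h
  · intro g
    obtain ⟨i, rfl⟩ := hen g
    obtain ⟨k, hk⟩ := exists_mem_L (en i)
    refine ⟨max i k, fun r hr => ⟨i, by omega, rfl, L_mono (by omega) hk⟩⟩

theorem cut_good_aux (ε : ℕ → ℝ) (E : ℕ → Set F) (Z : ℕ → Set F) (r : ℕ)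
    (hs : ∀ j < r, Spec ε E Z j) (m : ℕ) :
    cut (r + 1) (COf Z) m ⊆ (L m : Set F) ∧ (cut (r + 1) (COf Z) m).Nonempty ∧
      (cut (r + 1) (COf Z) m).Finite := by
  have h1 : ({1} : Set F) ⊆ (L m : Set F) ∧ ({1} : Set F).Nonempty ∧ ({1} : Set F).Finite := by
    refine ⟨?_, Set.singleton_nonempty _, Set.finite_singleton _⟩
    intro w hw
    rw [Set.mem_singleton_iff] at hw
    rw [hw]
    exact (L m).one_mem
  unfold cut
  by_cases hm : m < r + 1
  · rw [if_pos hm]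
    unfold COf
    by_cases hm0 : m = 0
    · rw [if_pos hm0]
      exact h1
    · rw [if_neg hm0]
      unfold CcOf
      have hp := par_lt m hm0
      by_cases hr0 : par m = 0
      · rw [if_pos hr0]
        exact h1
      · rw [if_neg hr0]
        have hp2 := par_lt (par m) hr0
        obtain ⟨⟨hsub, hfin, hne, _⟩, _⟩ := hs (par (par m)) (by omega)
        have hsub' : ∀ z ∈ Z (par (par m)), z ∈ L m := fun z hz =>
          L_mono (by omega) (hsub hz)
        have hof : FreeGroup.of (par m) ∈ L m := Subgroup.subset_closure ⟨par m, hp, rfl⟩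
        refine ⟨?_, hne.inl, ?_⟩
        · rintro w (hw | ⟨z, hz, rfl⟩)
          · exact hsub' w hw
          · exact (L m).mul_mem ((L m).inv_mem hof) (hsub' z hz)
        · refine hfin.union ?_
          refine (hfin.image (fun z => (FreeGroup.of (par m))⁻¹ * z)).subset ?_
          rintro w ⟨z, hz, rfl⟩
          exact ⟨z, hz, rfl⟩
  · rw [if_neg hm]
    exact h1

theorem cut_good (ε : ℕ → ℝ) (hε : ∀ n, 0 ≤ ε n) (E : ℕ → Set F) (Z : ℕ → Set F) (r : ℕ)
    (hs : ∀ j < r, Spec ε E Z j) : Good (cut (r + 1) (COf Z)) ε :=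
  ⟨fun m => (cut_good_aux ε E Z r hs m).1, fun m => (cut_good_aux ε E Z r hs m).2.1,
    fun m => (cut_good_aux ε E Z r hs m).2.2, hε⟩

theorem cut_gated_one (C : ℕ → Set F) (ε : ℕ → ℝ) (h : Good C ε) (m : ℕ) :
    Gated C ε m {1} := by
  refine ⟨?_, Set.finite_singleton 1, Set.singleton_nonempty 1, ?_⟩
  · intro x hx
    rw [Set.mem_singleton_iff] at hx
    rw [hx]
    exact (L m).one_mem
  · intro w _
    refine ⟨1, rfl, ?_⟩
    intro z hz
    rw [Set.mem_singleton_iff] at hz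
    rw [hz, inv_one, mul_one (1 : F), N_one C ε h, add_zero]

theorem cut_gated_eq (r : ℕ) (Z : ℕ → Set F) (j : ℕ) (hj : j ≤ r) :
    cut (r + 1) (COf Z) j = COf Z j := by
  unfold cut
  rw [if_pos (Nat.lt_succ_of_le hj)]

theorem cut_gated (ε : ℕ → ℝ) (hε : ∀ n, 0 ≤ ε n) (E : ℕ → Set F) (Z : ℕ → Set F) (r : ℕ)
    (hs : ∀ j < r, Spec ε E Z j) (m : ℕ) (hm : m ≤ r) :
    Gated (cut (r + 1) (COf Z)) ε m (COf Z m) := by
  have h := cut_good ε hε E Z r hs
  induction m using Nat.strong_induction_on with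
  | _ m ih =>
    have hC : ∀ j, j < m → Gated (cut (r + 1) (COf Z)) ε j (cut (r + 1) (COf Z) j) := by
      intro j hj
      rw [cut_gated_eq r Z j (by omega)]
      exact ih j hj (by omega)
    by_cases hm0 : m = 0
    · have e : COf Z m = {1} := by
        unfold COf
        rw [if_pos hm0]
      rw [e]
      exact cut_gated_one _ _ h m
    · have e : COf Z m = CcOf Z (par m) := by
        unfold COf
        rw [if_neg hm0]
      rw [e]
      have hpm := par_lt m hm0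
      by_cases hp0 : par m = 0
      · have e1 : CcOf Z (par m) = {1} := by
          unfold CcOf
          rw [if_pos hp0]
        rw [e1]
        exact cut_gated_one _ _ h m
      · obtain ⟨r', hr'⟩ : ∃ r', par m = r' := ⟨_, rfl⟩
        rw [hr'] at hpm hp0 ⊢
        have hq := par_lt r' hp0
        obtain ⟨q, hq'⟩ : ∃ q, par r' = q := ⟨_, rfl⟩
        rw [hq'] at hq
        obtain ⟨hs1, hs2, _, _⟩ := hs q (by omega)
        have hgq : Good (cut (q + 1) (COf Z)) ε :=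
          cut_good ε hε E Z q (fun j hj => hs j (by omega))
        have h1 : Gated (cut (r + 1) (COf Z)) ε (q + 1) (Z q) := by
          refine gated_congr _ _ ε hgq h (q + 1) ?_ (Z q) hs1
          intro j hj
          rw [cut_gated_eq r Z j (by omega), cut_gated_eq q Z j (by omega)]
        have h2 : Gated (cut (r + 1) (COf Z)) ε r' (Z q) :=
          gated_up _ ε h (q + 1) r' (by omega) (fun j _ hj => hC j (by omega)) (Z q) h1
        have e2 : cut (r + 1) (COf Z) r' = CcOf Z q := by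
          rw [cut_gated_eq r Z r' (by omega)]
          unfold COf
          rw [if_neg hp0, hq']
        have h3 := gated_double _ ε h r' (hC r' hpm) (Z q) h2 (by rw [e2]; exact hs2)
        have e3 : CcOf Z r' = Z q ∪ {w | ∃ z ∈ Z q, w = (FreeGroup.of r')⁻¹ * z} := by
          unfold CcOf
          rw [if_neg hp0, hq']
        rw [e3]
        exact gated_up _ ε h (r' + 1) m (by omega) (fun j _ hj => hC j hj) _ h3

theorem exists_Spec_CcOf_congr (Z Z' : ℕ → Set F) (s : ℕ) (h : ∀ j < s, Z j = Z' j) :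
    CcOf Z s = CcOf Z' s := by
  unfold CcOf
  split_ifs with h0
  · rfl
  · rw [h (par s) (par_lt s h0)]

theorem exists_Spec_COf_congr (Z Z' : ℕ → Set F) (m : ℕ) (h : ∀ j < m, Z j = Z' j) :
    COf Z m = COf Z' m := by
  unfold COf
  split_ifs with h0
  · rfl
  · exact exists_Spec_CcOf_congr Z Z' (par m) fun j hj => h j (hj.trans (par_lt m h0))

theorem exists_Spec_cut_congr (Z Z' : ℕ → Set F) (r : ℕ) (h : ∀ j < r, Z j = Z' j) :
    cut (r + 1) (COf Z) = cut (r + 1) (COf Z') := by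
  funext m
  unfold cut
  split_ifs with hm
  · exact exists_Spec_COf_congr Z Z' m fun j hj => h j (by omega)
  · rfl

theorem exists_Spec (ε : ℕ → ℝ) (hε : ∀ n, 0 ≤ ε n) (E : ℕ → Set F)
    (hE : ∀ r, (E r).Finite ∧ E r ⊆ (L (r + 1) : Set F)) : ∃ Z : ℕ → Set F, ∀ r, Spec ε E Z r := by
  classical
  apply rec_exists (fun r Z => Spec ε E Z r)
  · intro r Z Z' h hs
    have h1 := exists_Spec_cut_congr Z Z' r (fun j hj => h j hj.le)
    have h2 := exists_Spec_CcOf_congr Z Z' r (fun j hj => h j hj.le)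
    have h3 := h r le_rfl
    unfold Spec at hs ⊢
    rw [← h1, ← h2, ← h3]
    exact hs
  · intro r Z hs
    have hgood := cut_good ε hε E Z r hs
    have hg : ∀ m < r + 1, Gated (cut (r + 1) (COf Z)) ε m (cut (r + 1) (COf Z) m) := by
      intro m hm
      have h1 := cut_gated ε hε E Z r hs m (by omega)
      have h2 : cut (r + 1) (COf Z) m = COf Z m := by
        unfold cut
        rw [if_pos hm]
      rw [h2]
      exact h1
    have hcf : (CcOf Z r).Finite ∧ CcOf Z r ⊆ (L (r + 1) : Set F) := by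
      unfold CcOf
      split_ifs with h0
      · refine ⟨Set.finite_singleton _, ?_⟩
        rintro w rfl
        exact one_mem _
      · have hp := par_lt r h0
        obtain ⟨hs1, -⟩ := hs (par r) hp
        obtain ⟨hsub, hfin, -⟩ := hs1
        have hle : L (par r + 1) ≤ L (r + 1) := L_mono (by omega)
        refine ⟨hfin.union ?_, ?_⟩
        · have : {w | ∃ z ∈ Z (par r), w = (FreeGroup.of r)⁻¹ * z} =
              (fun z => (FreeGroup.of r)⁻¹ * z) '' Z (par r) := by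
            ext w
            constructor
            · rintro ⟨z, hz, rfl⟩
              exact ⟨z, hz, rfl⟩
            · rintro ⟨z, hz, rfl⟩
              exact ⟨z, hz, rfl⟩
          rw [this]
          exact hfin.image _
        · rintro w (hw | ⟨z, hz, rfl⟩)
          · exact hle (hsub hw)
          · have h1 : (FreeGroup.of r : F) ∈ L (r + 1) :=
              Subgroup.subset_closure ⟨r, Nat.lt_succ_self r, rfl⟩
            exact mul_mem (inv_mem h1) (hle (hsub hz))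
    obtain ⟨Zr, hZr, hEZ⟩ := hull (cut (r + 1) (COf Z)) ε hgood (r + 1) hg
      (CcOf Z r ∪ E r ∪ (fun g => (xx r)⁻¹ * g) '' E r)
      ((hcf.1.union (hE r).1).union ((hE r).1.image _)) (by
        rintro w ((hw | hw) | ⟨g, hg, rfl⟩)
        · exact hcf.2 hw
        · exact (hE r).2 hw
        · exact mul_mem (inv_mem (xx_mem r)) ((hE r).2 hg))
    refine ⟨Zr, ?_⟩
    have hupd : ∀ j < r, Z j = Function.update Z r Zr j := by
      intro j hj
      rw [Function.update_of_ne (by omega)]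
    have h1 := exists_Spec_cut_congr Z (Function.update Z r Zr) r hupd
    have h2 := exists_Spec_CcOf_congr Z (Function.update Z r Zr) r hupd
    show Spec ε E (Function.update Z r Zr) r
    unfold Spec
    rw [← h1, ← h2, Function.update_self]
    exact ⟨hZr, fun w hw => hEZ (Or.inl (Or.inl hw)), fun w hw => hEZ (Or.inl (Or.inr hw)),
      fun g hg => hEZ (Or.inr ⟨g, hg, rfl⟩)⟩

theorem exists_comb_ee (n : ℕ) : 0 ≤ ee n := by
  unfold ee
  positivity

theorem exists_comb : ∃ (Nn : F → ℝ) (Z : ℕ → Set F), Comb Nn Z := by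
  obtain ⟨E, hE, hEx⟩ := exists_E
  obtain ⟨Z, hs⟩ := exists_Spec ee exists_comb_ee E hE
  have hcut : ∀ n m, m < n → cut n (COf Z) m = COf Z m := by
    intro n m h
    unfold cut
    rw [if_pos h]
  have hgr : ∀ r, Good (cut (r + 1) (COf Z)) ee := fun r =>
    cut_good ee exists_comb_ee E Z r (fun j _ => hs j)
  have hgood : Good (COf Z) ee := by
    refine ⟨fun n => ?_, fun n => ?_, fun n => ?_, exists_comb_ee⟩
    · have := (hgr n).sub n
      rwa [hcut (n + 1) n (Nat.lt_succ_self n)] at this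
    · have := (hgr n).ne n
      rwa [hcut (n + 1) n (Nat.lt_succ_self n)] at this
    · have := (hgr n).fin n
      rwa [hcut (n + 1) n (Nat.lt_succ_self n)] at this
  have hgated : ∀ n, Gated (COf Z) ee n (COf Z n) := by
    intro n
    have h1 := cut_gated ee exists_comb_ee E Z n (fun j _ => hs j) n le_rfl
    exact gated_congr (cut (n + 1) (COf Z)) (COf Z) ee (hgr n) hgood n
      (fun m hm => hcut (n + 1) m (hm.trans (Nat.lt_succ_self n))) _ h1
  refine ⟨N (COf Z) ee, Z, ?_⟩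
  refine ⟨N_one _ _ hgood, N_inv _ _ hgood, N_mul_le _ _ hgood, psd_all _ _ hgood hgated,
    fun r => (hs r).1.2.1, fun r => (hs r).1.1, ?_, N_gen _ _ hgood, ?_⟩
  · intro g
    obtain ⟨r0, hr0⟩ := hEx g
    refine ⟨r0, fun r hr => ⟨(hs r).2.2.1 (hr0 r hr), (hs r).2.2.2 g (hr0 r hr)⟩⟩
  · intro ν h1 h2 h3 w
    exact N_max _ _ hgood ν h1 h2 h3 w

end Pool.Agent.Helper289.UO
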