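import Mathlib

set_option autoImplicit false
set_option linter.all false

namespace Pool.Agent.Helper289.UO

open Filter Topology

/-- the Hilbert space `ℓ²(ℕ, ℂ)` -/
noncomputable abbrev E2 := lp (fun _ : ℕ => ℂ) 2

/-- its unitary group -/
noncomputable abbrev UU := E2 ≃ₗᵢ[ℂ] E2

/-- strong operator topology -/
noncomputable instance instTopUU : TopologicalSpace UU :=
  TopologicalSpace.induced (fun U : UU => (⇑U : E2 → E2)) inferInstance

/-- compatible bounded group norm -/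
structure IsGNorm {H : Type} [TopologicalSpace H] [Group H] (ν : H → ℝ) : Prop where
  one : ν 1 = 0
  le_one : ∀ h, ν h ≤ 1
  inv : ∀ h, ν h⁻¹ = ν h
  mul : ∀ g h, ν (g * h) ≤ ν g + ν h
  nhds : ∀ s : Set H, s ∈ 𝓝 (1 : H) ↔ ∃ r > 0, {h | ν h < r} ⊆ s

/-- functions `U → [0,1]` which are 1-Lipschitz for the left invariant distance `ν (x⁻¹ y)` -/
def KK {U : Type} [Group U] (ν : U → ℝ) : Set (U → ℝ) :=
  {f | (∀ x, 0 ≤ f x ∧ f x ≤ 1) ∧ ∀ x y, f x - f y ≤ ν (x⁻¹ * y)}

theorem KK_tr {U : Type} [Group U] (ν : U → ℝ) (u : U) (f : U → ℝ) (hf : f ∈ KK ν) :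
    (fun h => f (u⁻¹ * h)) ∈ KK ν := by
  refine ⟨fun x => hf.1 _, fun x y => ?_⟩
  have := hf.2 (u⁻¹ * x) (u⁻¹ * y)
  simpa [mul_assoc] using this

/-- left translation action -/
def tr {U : Type} [Group U] (ν : U → ℝ) (u : U) (f : KK ν) : KK ν :=
  ⟨fun h => f.1 (u⁻¹ * h), KK_tr ν u f.1 f.2⟩

/-- `min 1 (distance to S)` -/
noncomputable def dd {U : Type} [Group U] (ν : U → ℝ) (S : Set U) (h : U) : ℝ :=
  sInf (insert 1 ((fun s => ν (h⁻¹ * s)) '' S))

theorem uu_topgroup_ind : Topology.IsInducing (fun U : UU => (⇑U : E2 → E2)) := ⟨rfl⟩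

theorem uu_topgroup_tendsto {α : Type} {l : Filter α} {f : α → UU} {U : UU} :
    Tendsto f l (𝓝 U) ↔ ∀ x : E2, Tendsto (fun a => f a x) l (𝓝 (U x)) := by
  rw [uu_topgroup_ind.tendsto_nhds_iff, tendsto_pi_nhds]
  rfl

theorem uu_topgroup : IsTopologicalGroup UU := by
  refine { continuous_mul := ?_, continuous_inv := ?_ }
  · rw [continuous_iff_continuousAt]
    rintro ⟨U, V⟩
    rw [ContinuousAt, uu_topgroup_tendsto]
    intro x
    have h1 : Tendsto (fun p : UU × UU => p.1 (V x)) (𝓝 (U, V)) (𝓝 (U (V x))) :=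
      (uu_topgroup_tendsto.1 (continuous_fst.tendsto (U,V))) (V x)
    have h2 : Tendsto (fun p : UU × UU => p.2 x) (𝓝 (U,V)) (𝓝 (V x)) :=
      (uu_topgroup_tendsto.1 (continuous_snd.tendsto (U,V))) x
    rw [tendsto_iff_norm_sub_tendsto_zero] at h1 h2 ⊢
    refine squeeze_zero (fun _ => norm_nonneg _) (fun p => ?_) (by simpa using h2.add h1)
    show ‖p.1 (p.2 x) - U (V x)‖ ≤ ‖p.2 x - V x‖ + ‖p.1 (V x) - U (V x)‖
    calc ‖p.1 (p.2 x) - U (V x)‖ = ‖p.1 (p.2 x - V x) + (p.1 (V x) - U (V x))‖ := by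
          rw [map_sub]; congr 1; abel
      _ ≤ ‖p.1 (p.2 x - V x)‖ + ‖p.1 (V x) - U (V x)‖ := norm_add_le _ _
      _ = _ := by rw [LinearIsometryEquiv.norm_map]
  · rw [continuous_iff_continuousAt]
    intro U
    rw [ContinuousAt, uu_topgroup_tendsto]
    intro x
    have h1 : Tendsto (fun p : UU => p (U⁻¹ x)) (𝓝 U) (𝓝 (U (U⁻¹ x))) :=
      (uu_topgroup_tendsto.1 (tendsto_id (x := 𝓝 U))) (U⁻¹ x)
    rw [tendsto_iff_norm_sub_tendsto_zero] at h1 ⊢
    refine h1.congr (fun p => ?_)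
    have e1 : U (U⁻¹ x) = x := U.apply_symm_apply x
    have e2 : p (p⁻¹ x) = x := p.apply_symm_apply x
    rw [e1]
    have e3 : ‖p⁻¹ x - U⁻¹ x‖ = ‖p (p⁻¹ x - U⁻¹ x)‖ := (LinearIsometryEquiv.norm_map p _).symm
    rw [e3, map_sub, e2, norm_sub_rev]

theorem uu_polish_sep : TopologicalSpace.SeparableSpace E2 := by
  let b : HilbertBasis ℕ ℂ E2 := HilbertBasis.ofRepr (LinearIsometryEquiv.refl ℂ E2)
  have h1 : TopologicalSpace.IsSeparable (Set.range b) := (Set.countable_range b).isSeparable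
  have h2 : TopologicalSpace.IsSeparable
      (closure ((Submodule.span ℂ (Set.range b) : Submodule ℂ E2) : Set E2)) :=
    (TopologicalSpace.IsSeparable.span (R := ℂ) h1).closure
  have h3 : closure ((Submodule.span ℂ (Set.range b) : Submodule ℂ E2) : Set E2) = Set.univ := by
    rw [← Submodule.topologicalClosure_coe, b.dense_span]
    rfl
  rw [h3] at h2
  exact TopologicalSpace.isSeparable_univ_iff.1 h2

theorem uu_polish_lim {D : ℕ → E2} (hD : DenseRange D) (l : Filter UU) (A : UU)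
    (h : ∀ n, Tendsto (fun V : UU => V (D n)) l (𝓝 (A (D n)))) (x : E2) :
    Tendsto (fun V : UU => V x) l (𝓝 (A x)) := by
  rw [Metric.tendsto_nhds]
  intro ε hε
  obtain ⟨n, hn⟩ := hD.exists_dist_lt x (show 0 < ε / 3 by linarith)
  filter_upwards [(Metric.tendsto_nhds.1 (h n)) (ε / 3) (by linarith)] with V hV
  have e1 : dist (V x) (V (D n)) < ε / 3 := by rwa [V.dist_map]
  have e2 : dist (A (D n)) (A x) < ε / 3 := by rwa [A.dist_map, dist_comm]
  have e3 := dist_triangle4 (V x) (V (D n)) (A (D n)) (A x)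
  linarith

theorem uu_polish_cauchy {D : ℕ → E2} (hD : DenseRange D) (l : Filter UU) [l.NeBot]
    (g : UU → UU) (a : ℕ → E2)
    (h : ∀ n, Tendsto (fun V : UU => g V (D n)) l (𝓝 (a n))) (x : E2) :
    ∃ y, Tendsto (fun V : UU => g V x) l (𝓝 y) := by
  have hc : Cauchy (map (fun V : UU => g V x) l) := by
    rw [Metric.cauchy_iff]
    refine ⟨inferInstance, ?_⟩
    intro ε hε
    obtain ⟨n, hn⟩ := hD.exists_dist_lt x (show 0 < ε / 4 by linarith)
    have hs := (Metric.tendsto_nhds.1 (h n)) (ε / 4) (by linarith)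
    refine ⟨_, image_mem_map hs, ?_⟩
    rintro _ ⟨V, hV, rfl⟩ _ ⟨W, hW, rfl⟩
    have hV' : dist (g V (D n)) (a n) < ε / 4 := hV
    have hW' : dist (g W (D n)) (a n) < ε / 4 := hW
    have e1 : dist (g V x) (g V (D n)) < ε / 4 := by rwa [(g V).dist_map]
    have e2 : dist (g W (D n)) (g W x) < ε / 4 := by rwa [(g W).dist_map, dist_comm]
    have e3 := dist_triangle4 (g V x) (g V (D n)) (g W (D n)) (g W x)
    have e4 := dist_triangle_right (g V (D n)) (g W (D n)) (a n)
    linarith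
  exact CompleteSpace.complete hc

theorem uu_polish : PolishSpace UU := by
  have htg := uu_topgroup
  have hsep := uu_polish_sep
  have hsc : SecondCountableTopology E2 := UniformSpace.secondCountable_of_separable E2
  obtain ⟨D, hD⟩ := TopologicalSpace.exists_dense_seq E2
  let Φ : UU → (ℕ → E2) × (ℕ → E2) := fun U => (fun n => U (D n), fun n => U⁻¹ (D n))
  have hev : ∀ x : E2, Continuous (fun U : UU => U x) := fun x =>
    (continuous_apply x).comp continuous_induced_dom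
  have hΦ : Continuous Φ := by
    apply Continuous.prodMk
    · exact continuous_pi fun n => hev (D n)
    · exact continuous_pi fun n => (hev (D n)).comp continuous_inv
  have hind : IsInducing Φ := by
    rw [isInducing_iff_nhds]
    intro U
    apply le_antisymm
    · exact hΦ.continuousAt.tendsto.le_comap
    · have h1 : 𝓝 U = comap (fun V : UU => (⇑V : E2 → E2)) (𝓝 (⇑U : E2 → E2)) :=
        nhds_induced _ _
      rw [h1, ← tendsto_iff_comap, tendsto_pi_nhds]
      apply uu_polish_lim hD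
      intro n
      have h2 : Tendsto Φ (comap Φ (𝓝 (Φ U))) (𝓝 (Φ U)) := tendsto_comap
      exact tendsto_pi_nhds.1 ((continuous_fst.tendsto _).comp h2) n
  have hinj : Function.Injective Φ := by
    intro U V hUV
    have h1 : ∀ n, U (D n) = V (D n) := fun n => congrFun (congrArg Prod.fst hUV) n
    have h2 : (⇑U : E2 → E2) = ⇑V := by
      apply hD.equalizer U.continuous V.continuous
      funext n
      exact h1 n
    exact DFunLike.coe_injective h2
  have hcl : IsClosed (Set.range Φ) := by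
    apply isClosed_of_closure_subset
    intro p hp
    let l : Filter UU := comap Φ (𝓝 p)
    have hl : l.NeBot := by
      rw [comap_neBot_iff]
      intro t ht
      obtain ⟨_, h1, ⟨U, rfl⟩⟩ := mem_closure_iff_nhds.1 hp t ht
      exact ⟨U, h1⟩
    have hΦl : Tendsto Φ l (𝓝 p) := tendsto_comap
    have ha : ∀ n, Tendsto (fun V : UU => V (D n)) l (𝓝 (p.1 n)) := fun n =>
      tendsto_pi_nhds.1 ((continuous_fst.tendsto _).comp hΦl) n
    have hb : ∀ n, Tendsto (fun V : UU => V⁻¹ (D n)) l (𝓝 (p.2 n)) := fun n =>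
      tendsto_pi_nhds.1 ((continuous_snd.tendsto _).comp hΦl) n
    choose A hA using fun x => uu_polish_cauchy hD l (fun V => V) p.1 ha x
    choose B hB using fun x => uu_polish_cauchy hD l (fun V => V⁻¹) p.2 hb x
    have hBA : ∀ x, B (A x) = x := by
      intro x
      have h1 := hB (A x)
      have h2 : Tendsto (fun V : UU => V⁻¹ (A x)) l (𝓝 x) := by
        rw [tendsto_iff_dist_tendsto_zero]
        have h3 := tendsto_iff_dist_tendsto_zero.1 (hA x)
        refine h3.congr fun V => ?_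
        have h4 : V (V⁻¹ (A x)) = A x := V.apply_symm_apply (A x)
        rw [← V.dist_map (V⁻¹ (A x)) x, h4, dist_comm]
      exact tendsto_nhds_unique h1 h2
    have hAB : ∀ x, A (B x) = x := by
      intro x
      have h1 := hA (B x)
      have h2 : Tendsto (fun V : UU => V (B x)) l (𝓝 x) := by
        rw [tendsto_iff_dist_tendsto_zero]
        have h3 := tendsto_iff_dist_tendsto_zero.1 (hB x)
        refine h3.congr fun V => ?_
        have h4 : V (V⁻¹ x) = x := V.apply_symm_apply x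
        rw [← V.dist_map (V⁻¹ x) (B x), h4, dist_comm]
      exact tendsto_nhds_unique h1 h2
    have hadd : ∀ x y, A (x + y) = A x + A y := by
      intro x y
      refine tendsto_nhds_unique (hA (x + y)) ?_
      refine ((hA x).add (hA y)).congr fun V => ?_
      exact (map_add V x y).symm
    have hsmul : ∀ (c : ℂ) x, A (c • x) = c • A x := by
      intro c x
      refine tendsto_nhds_unique (hA (c • x)) ?_
      refine ((hA x).const_smul c).congr fun V => ?_
      exact (map_smul V c x).symm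
    have hnorm : ∀ x, ‖A x‖ = ‖x‖ := by
      intro x
      refine tendsto_nhds_unique (hA x).norm ?_
      refine tendsto_const_nhds.congr fun V => ?_
      exact (V.norm_map x).symm
    let U : UU :=
      { toFun := A
        map_add' := hadd
        map_smul' := hsmul
        invFun := B
        left_inv := hBA
        right_inv := hAB
        norm_map' := hnorm }
    refine ⟨U, ?_⟩
    apply Prod.ext
    · funext n
      exact tendsto_nhds_unique (hA (D n)) (ha n)
    · funext n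
      exact tendsto_nhds_unique (hB (D n)) (hb n)
  exact (IsClosedEmbedding.mk ⟨hind, hinj⟩ hcl).polishSpace

theorem group_norm_nbhd (H : Type) [TopologicalSpace H] [Group H] [IsTopologicalGroup H]
    (U : Set H) (hU : U ∈ 𝓝 (1:H)) :
    ∃ W : Set H, W ∈ 𝓝 (1:H) ∧ (∀ x ∈ W, x⁻¹ ∈ W) ∧
      ∀ a ∈ W, ∀ b ∈ W, ∀ c ∈ W, a * b * c ∈ U := by
  obtain ⟨V, hV, hV4⟩ := exists_nhds_one_split4 hU
  refine ⟨V ∩ V⁻¹, Filter.inter_mem hV (inv_mem_nhds_one H hV), ?_, ?_⟩
  · rintro x ⟨h1, h2⟩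
    refine ⟨h2, ?_⟩
    rw [Set.mem_inv, inv_inv]
    exact h1
  · intro a ha b hb c hc
    have := hV4 ha.1 hb.1 hc.1 (mem_of_mem_nhds hV)
    rwa [mul_one] at this

theorem group_norm_seq (H : Type) [TopologicalSpace H] [Group H] [IsTopologicalGroup H]
    [FirstCountableTopology H] : ∃ V : ℕ → Set H, (∀ n, V n ∈ 𝓝 (1:H)) ∧
      (∀ n, ∀ x ∈ V n, x⁻¹ ∈ V n) ∧
      (∀ n, ∀ a ∈ V (n+1), ∀ b ∈ V (n+1), ∀ c ∈ V (n+1), a * b * c ∈ V n) ∧
      (∀ s ∈ 𝓝 (1:H), ∃ n, V n ⊆ s) := by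
  obtain ⟨B, hB⟩ := (𝓝 (1:H)).exists_antitone_basis
  choose! f hf1 hf2 hf3 using group_norm_nbhd H
  let V : ℕ → Set H := fun n =>
    Nat.rec (motive := fun _ => Set H) Set.univ (fun n U => f (U ∩ B n)) n
  have hVs : ∀ n, V (n + 1) = f (V n ∩ B n) := fun n => rfl
  have hV : ∀ n, V n ∈ 𝓝 (1:H) := by
    intro n
    induction n with
    | zero => exact Filter.univ_mem
    | succ n ih =>
      rw [hVs]
      exact hf1 _ (Filter.inter_mem ih (hB.mem n))
  have hI : ∀ n, V n ∩ B n ∈ 𝓝 (1:H) := fun n => Filter.inter_mem (hV n) (hB.mem n)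
  refine ⟨V, hV, ?_, ?_, ?_⟩
  · intro n
    cases n with
    | zero => intro x _; exact Set.mem_univ _
    | succ n =>
      rw [hVs]
      exact hf2 _ (hI n)
  · intro n a ha b hb c hc
    rw [hVs] at ha hb hc
    exact (hf3 _ (hI n) a ha b hb c hc).1
  · intro s hs
    obtain ⟨n, -, hn⟩ := hB.1.mem_iff.1 hs
    refine ⟨n + 1, fun x hx => hn ?_⟩
    have h1 : (1:H) ∈ V (n + 1) := mem_of_mem_nhds (hV (n + 1))
    rw [hVs] at hx h1
    have := (hf3 _ (hI n) x hx 1 h1 1 h1).2
    rwa [mul_one, mul_one] at this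

open Classical in
/-- the gauge of a predicate -/
noncomputable def group_norm_G (P : ℕ → Prop) : NNReal :=
  if h : ∃ n, P n then (1 / 2) ^ Nat.find h else 0

theorem group_norm_G_pos (P : ℕ → Prop) (h : ∃ n, P n) :
    ∃ m, P m ∧ (∀ k < m, ¬ P k) ∧ group_norm_G P = (1 / 2) ^ m := by
  classical
  unfold group_norm_G
  rw [dif_pos h]
  exact ⟨_, Nat.find_spec h, fun k hk => Nat.find_min h hk, rfl⟩

theorem group_norm_G_zero (P : ℕ → Prop) (h : ∀ n, ¬ P n) : group_norm_G P = 0 := by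
  unfold group_norm_G
  rw [dif_neg]
  rintro ⟨n, hn⟩
  exact h n hn

/-- the gauge of a sequence of sets -/
noncomputable def group_norm_rho {H : Type} (V : ℕ → Set H) (x : H) : NNReal :=
  group_norm_G (fun n => x ∉ V n)

theorem group_norm_half_lt : (1 / 2 : NNReal) < 1 := by
  rw [← NNReal.coe_lt_coe]; norm_num

theorem group_norm_rho_le {H : Type} (V : ℕ → Set H) (hV : ∀ n, V (n + 1) ⊆ V n) (x : H) (n : ℕ) :
    (1 / 2 : NNReal) ^ n ≤ group_norm_rho V x ↔ x ∉ V n := by
  have hanti : Antitone V := antitone_nat_of_succ_le hV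
  by_cases h : ∃ n, x ∉ V n
  · obtain ⟨m, hm1, hm2, hm3⟩ := group_norm_G_pos (fun n => x ∉ V n) h
    have hm3' : group_norm_rho V x = (1 / 2) ^ m := hm3
    rw [hm3', (pow_right_strictAnti₀ (by positivity : (0:NNReal) < 1 / 2)
      group_norm_half_lt).le_iff_ge]
    constructor
    · intro hmn hn
      exact hm1 (hanti hmn hn)
    · intro hn
      by_contra hlt
      exact hm2 n (not_le.1 hlt) hn
  · have h' : ∀ n, x ∈ V n := by push Not at h; exact h
    have h0 : group_norm_rho V x = 0 := group_norm_G_zero _ (fun n hn => hn (h' n))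
    rw [h0]
    constructor
    · intro h1 _
      exact absurd h1 (not_le.2 (pow_pos (by positivity : (0:NNReal) < 1 / 2) n))
    · intro h1
      exact absurd (h' n) h1

theorem group_norm_rho_le_one {H : Type} (V : ℕ → Set H) (x : H) : group_norm_rho V x ≤ 1 := by
  by_cases h : ∃ n, x ∉ V n
  · obtain ⟨m, hm1, hm2, hm3⟩ := group_norm_G_pos (fun n => x ∉ V n) h
    have hm3' : group_norm_rho V x = (1 / 2) ^ m := hm3
    rw [hm3']
    exact pow_le_one₀ (by positivity) group_norm_half_lt.le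
  · have h' : ∀ n, x ∈ V n := by push Not at h; exact h
    have h0 : group_norm_rho V x = 0 := group_norm_G_zero _ (fun n hn => hn (h' n))
    rw [h0]
    exact zero_le_one

theorem group_norm_rho_zero {H : Type} (V : ℕ → Set H) (x : H) (h : ∀ n, x ∈ V n) :
    group_norm_rho V x = 0 := group_norm_G_zero _ (fun n hn => hn (h n))

theorem group_norm_rho_congr {H : Type} (V : ℕ → Set H) (x y : H) (h : ∀ n, x ∈ V n ↔ y ∈ V n) :
    group_norm_rho V x = group_norm_rho V y := by
  have hP : (fun n => x ∉ V n) = (fun n => y ∉ V n) := funext fun n => propext (not_congr (h n))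
  unfold group_norm_rho
  rw [hP]

theorem group_norm_tri {H : Type} [Group H] (V : ℕ → Set H) (hV : ∀ n, V (n + 1) ⊆ V n)
    (h3 : ∀ n, ∀ a ∈ V (n+1), ∀ b ∈ V (n+1), ∀ c ∈ V (n+1), a * b * c ∈ V n)
    (a b c : H) : group_norm_rho V (a * b * c) ≤
      2 * max (group_norm_rho V a) (max (group_norm_rho V b) (group_norm_rho V c)) := by
  by_cases h : ∃ n, a * b * c ∉ V n
  · obtain ⟨m, hm, -, h1'⟩ := group_norm_G_pos (fun n => a * b * c ∉ V n) h
    have h1 : group_norm_rho V (a * b * c) = (1 / 2) ^ m := h1'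
    have h2 : (1 / 2 : NNReal) ^ (m + 1) ≤
        max (group_norm_rho V a) (max (group_norm_rho V b) (group_norm_rho V c)) := by
      rw [le_max_iff, le_max_iff, group_norm_rho_le V hV, group_norm_rho_le V hV,
        group_norm_rho_le V hV]
      by_contra hcon
      push Not at hcon
      exact hm (h3 _ a hcon.1 b hcon.2.1 c hcon.2.2)
    rw [h1]
    calc (1 / 2 : NNReal) ^ m = 2 * (1 / 2 : NNReal) ^ (m + 1) := by
          rw [pow_succ]
          have : (2 : NNReal) * (1 / 2) = 1 := by norm_num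
          rw [mul_comm ((1 / 2 : NNReal) ^ m), ← mul_assoc, this, one_mul]
      _ ≤ _ := mul_le_mul_right h2 _
  · rw [group_norm_rho_zero V _ (by push Not at h; exact h)]
    exact zero_le

/-- the pseudodistance before chains -/
noncomputable def group_norm_d {H : Type} [Group H] (V : ℕ → Set H) (x y : H) : NNReal :=
  group_norm_rho V (x⁻¹ * y)

theorem group_norm_d_left {H : Type} [Group H] (V : ℕ → Set H) (g x y : H) :
    group_norm_d V (g * x) (g * y) = group_norm_d V x y := by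
  unfold group_norm_d
  rw [mul_inv_rev, mul_assoc, inv_mul_cancel_left]

/-- the chain infimum -/
noncomputable def group_norm_D {H : Type} [Group H] (V : ℕ → Set H) (x y : H) : NNReal :=
  ⨅ l : List H, ((x::l).zipWith (group_norm_d V) (l ++ [y])).sum

theorem group_norm_D_left_le {H : Type} [Group H] (V : ℕ → Set H) (g x y : H) :
    group_norm_D V (g * x) (g * y) ≤ group_norm_D V x y := by
  refine le_ciInf fun l => ?_
  refine (ciInf_le (OrderBot.bddBelow _) (l.map (g * ·))).trans_eq ?_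
  have h1 : (g * x :: l.map (g * ·)) = (x :: l).map (g * ·) := rfl
  have h2 : (l.map (g * ·) ++ [g * y]) = (l ++ [y]).map (g * ·) := by simp
  rw [h1, h2, List.zipWith_map]
  simp only [group_norm_d_left]

theorem group_norm_D_left {H : Type} [Group H] (V : ℕ → Set H) (g x y : H) :
    group_norm_D V (g * x) (g * y) = group_norm_D V x y := by
  refine le_antisymm (group_norm_D_left_le V g x y) ?_
  have := group_norm_D_left_le V g⁻¹ (g * x) (g * y)
  rwa [inv_mul_cancel_left, inv_mul_cancel_left] at this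

theorem group_norm (H : Type) [TopologicalSpace H] [Group H] [IsTopologicalGroup H] [T2Space H]
    [FirstCountableTopology H] : ∃ ν : H → ℝ, IsGNorm ν := by
  obtain ⟨V, hV, hsym, h3, hbas⟩ := group_norm_seq H
  have h1 : ∀ n, (1:H) ∈ V n := fun n => mem_of_mem_nhds (hV n)
  have hmono : ∀ n, V (n + 1) ⊆ V n := by
    intro n x hx
    have := h3 n x hx 1 (h1 _) 1 (h1 _)
    rwa [mul_one, mul_one] at this
  have d_self : ∀ x, group_norm_d V x x = 0 := by
    intro x
    unfold group_norm_d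
    rw [inv_mul_cancel]
    exact group_norm_rho_zero V 1 h1
  have d_comm : ∀ x y, group_norm_d V x y = group_norm_d V y x := by
    intro x y
    unfold group_norm_d
    refine group_norm_rho_congr V _ _ fun n => ?_
    have e1 : (x⁻¹ * y)⁻¹ = y⁻¹ * x := by rw [mul_inv_rev, inv_inv]
    constructor
    · intro h
      rw [← e1]
      exact hsym n _ h
    · intro h
      have := hsym n _ h
      rwa [← e1, inv_inv] at this
  have hd : ∀ x₁ x₂ x₃ x₄, group_norm_d V x₁ x₄ ≤
      2 * max (group_norm_d V x₁ x₂) (max (group_norm_d V x₂ x₃) (group_norm_d V x₃ x₄)) := by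
    intro x₁ x₂ x₃ x₄
    have := group_norm_tri V hmono h3 (x₁⁻¹ * x₂) (x₂⁻¹ * x₃) (x₃⁻¹ * x₄)
    have e : x₁⁻¹ * x₂ * (x₂⁻¹ * x₃) * (x₃⁻¹ * x₄) = x₁⁻¹ * x₄ := by group
    rw [e] at this
    exact this
  let inst : PseudoMetricSpace H := PseudoMetricSpace.ofPreNNDist (group_norm_d V) d_self d_comm
  have hdist : ∀ x y : H, @dist H inst.toDist x y = (group_norm_D V x y : ℝ) := fun x y => rfl
  have hself : ∀ x : H, (group_norm_D V x x : ℝ) = 0 := fun x => by
    rw [← hdist]; exact @dist_self H inst x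
  have hcomm : ∀ x y : H, (group_norm_D V x y : ℝ) = group_norm_D V y x := fun x y => by
    rw [← hdist, ← hdist]; exact @dist_comm H inst x y
  have htri : ∀ x y z : H, (group_norm_D V x z : ℝ) ≤ group_norm_D V x y + group_norm_D V y z :=
    fun x y z => by
      rw [← hdist, ← hdist, ← hdist]; exact @dist_triangle H inst x y z
  have hle : ∀ x y : H, (group_norm_D V x y : ℝ) ≤ group_norm_d V x y := fun x y => by
    rw [← hdist]
    exact PseudoMetricSpace.dist_ofPreNNDist_le (group_norm_d V) d_self d_comm x y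
  have hge : ∀ x y : H, (group_norm_d V x y : ℝ) ≤ 2 * group_norm_D V x y := fun x y => by
    rw [← hdist]
    exact PseudoMetricSpace.le_two_mul_dist_ofPreNNDist (group_norm_d V) d_self d_comm hd x y
  have hd1 : ∀ h : H, group_norm_d V 1 h = group_norm_rho V h := fun h => by
    unfold group_norm_d
    rw [inv_one, one_mul]
  refine ⟨fun h => (group_norm_D V 1 h : ℝ), hself 1, ?_, ?_, ?_, ?_⟩
  · intro h
    refine (hle 1 h).trans ?_
    rw [hd1]
    exact_mod_cast group_norm_rho_le_one V h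
  · intro h
    show (group_norm_D V 1 h⁻¹ : ℝ) = group_norm_D V 1 h
    rw [← group_norm_D_left V h 1 h⁻¹, mul_one, mul_inv_cancel]
    exact hcomm h 1
  · intro g h
    refine (htri 1 g (g * h)).trans ?_
    have : group_norm_D V g (g * h) = group_norm_D V 1 h := by
      have := group_norm_D_left V g 1 h
      rwa [mul_one] at this
    rw [this]
  · intro s
    constructor
    · intro hs
      obtain ⟨n, hn⟩ := hbas s hs
      refine ⟨(1 / 2) ^ n / 2, by positivity, fun h hh => hn ?_⟩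
      by_contra hcon
      have h5 := (group_norm_rho_le V hmono h n).2 hcon
      have h6 := hge 1 h
      rw [hd1] at h6
      have h7 : ((1 / 2 : ℝ)) ^ n ≤ group_norm_rho V h := by exact_mod_cast h5
      have h8 : (group_norm_D V 1 h : ℝ) < (1 / 2) ^ n / 2 := hh
      linarith
    · rintro ⟨r, hr, hsub⟩
      obtain ⟨n, hn⟩ := exists_pow_lt_of_lt_one hr (by norm_num : (1 / 2 : ℝ) < 1)
      refine Filter.mem_of_superset (hV n) fun h hh => hsub ?_
      have h5 : ¬ (1 / 2 : NNReal) ^ n ≤ group_norm_rho V h := by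
        rw [group_norm_rho_le V hmono]
        exact not_not.2 hh
      push Not at h5
      have h6 := hle 1 h
      rw [hd1] at h6
      have h7 : (group_norm_rho V h : ℝ) < (1 / 2) ^ n := by exact_mod_cast h5
      show (group_norm_D V 1 h : ℝ) < r
      linarith

theorem two_sided_complete (H : Type) [TopologicalSpace H] [Group H] [IsTopologicalGroup H]
    [PolishSpace H] (x : ℕ → H)
    (h1 : Tendsto (fun p : ℕ × ℕ => (x p.1)⁻¹ * x p.2) (atTop ×ˢ atTop) (𝓝 1))
    (h2 : Tendsto (fun p : ℕ × ℕ => x p.1 * (x p.2)⁻¹) (atTop ×ˢ atTop) (𝓝 1)) :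
    ∃ a, Tendsto x atTop (𝓝 a) := by
  letI := TopologicalSpace.upgradeIsCompletelyMetrizable H
  have hC1 : ∀ N ∈ 𝓝 (1:H), ∃ I0, ∀ I, I0 ≤ I → ∀ J, I0 ≤ J → (x I)⁻¹ * x J ∈ N := by
    intro N hN
    have := h1 hN
    rw [Filter.mem_map, prod_atTop_atTop_eq, mem_atTop_sets] at this
    obtain ⟨⟨a, b⟩, hab⟩ := this
    refine ⟨max a b, fun I hI J hJ => ?_⟩
    exact hab (I, J) (Prod.mk_le_mk.2 ⟨le_trans (le_max_left _ _) hI,
      le_trans (le_max_right _ _) hJ⟩)
  have hC2 : ∀ N ∈ 𝓝 (1:H), ∃ I0, ∀ I, I0 ≤ I → ∀ J, I0 ≤ J → x I * (x J)⁻¹ ∈ N := by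
    intro N hN
    have := h2 hN
    rw [Filter.mem_map, prod_atTop_atTop_eq, mem_atTop_sets] at this
    obtain ⟨⟨a, b⟩, hab⟩ := this
    refine ⟨max a b, fun I hI J hJ => ?_⟩
    exact hab (I, J) (Prod.mk_le_mk.2 ⟨le_trans (le_max_left _ _) hI,
      le_trans (le_max_right _ _) hJ⟩)
  let W : ℕ → Set H := fun k => {h | ∃ I : ℕ, ∃ B : Set H, IsOpen B ∧ h ∈ B ∧
    ∀ i, I ≤ i → ∀ j, I ≤ j → ∀ b ∈ B, ∀ b' ∈ B, dist (x i * b) (x j * b') < 1 / ((k:ℝ) + 1)}
  have hWo : ∀ k, IsOpen (W k) := by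
    intro k
    rw [isOpen_iff_mem_nhds]
    rintro h ⟨I, B, hB, hh, hd⟩
    refine Filter.mem_of_superset (hB.mem_nhds hh) ?_
    intro g hg
    exact ⟨I, B, hB, hg, hd⟩
  have hWd : ∀ k, Dense (W k) := by
    intro k
    rw [dense_iff_inter_open]
    rintro V hV ⟨v, hv⟩
    have hc1 : Continuous fun g : H => g * v := continuous_id.mul continuous_const
    have hN : {g : H | g * v ∈ V} ∈ 𝓝 (1:H) := by
      apply (hV.preimage hc1).mem_nhds
      simpa using hv
    obtain ⟨J, hJ⟩ := hC1 _ hN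
    set a : H := x J * v with ha
    have hk : (0:ℝ) < 1 / (2 * ((k:ℝ) + 1)) := by positivity
    have hm : (fun p : H × H => p.1 * p.2) ⁻¹' Metric.ball a (1 / (2 * ((k:ℝ) + 1))) ∈
        𝓝 ((1:H), a) := by
      apply (Metric.isOpen_ball.preimage continuous_mul).mem_nhds
      rw [Set.mem_preimage, one_mul]
      exact Metric.mem_ball_self hk
    rw [mem_nhds_prod_iff'] at hm
    obtain ⟨N0, M0, hN0, h1N, hM0, haM, hsub⟩ := hm
    obtain ⟨I0, hI0⟩ := hC2 N0 (hN0.mem_nhds h1N)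
    set I := max I0 J with hI
    refine ⟨(x I)⁻¹ * x J * v, ?_, I, {b | x I * b ∈ M0}, ?_, ?_, ?_⟩
    · exact hJ I (le_max_right _ _) J le_rfl
    · exact hM0.preimage (continuous_const.mul continuous_id)
    · have : x I * ((x I)⁻¹ * x J * v) = a := by rw [ha]; group
      rw [Set.mem_setOf_eq, this]
      exact haM
    · intro i hi j hj b hb b' hb'
      have key : ∀ i, I ≤ i → ∀ b, x I * b ∈ M0 → dist (x i * b) a < 1 / (2 * ((k:ℝ) + 1)) := by
        intro i hi b hb
        have e : x i * b = (x i * (x I)⁻¹) * (x I * b) := by group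
        have hin : (x i * (x I)⁻¹, x I * b) ∈ N0 ×ˢ M0 :=
          ⟨hI0 i (le_trans (le_max_left _ _) hi) I (le_max_left _ _), hb⟩
        have := hsub hin
        rw [Set.mem_preimage, Metric.mem_ball] at this
        rw [e]
        exact this
      have k1 := key i hi b hb
      have k2 := key j hj b' hb'
      have k3 := dist_triangle_right (x i * b) (x j * b') a
      have e : 1 / ((k:ℝ) + 1) = 1 / (2 * ((k:ℝ) + 1)) + 1 / (2 * ((k:ℝ) + 1)) := by
        field_simp
        norm_num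
      rw [e]
      linarith
  have hD : Dense (⋂ k, W k) := dense_iInter_of_isOpen hWo hWd
  haveI : Nonempty H := ⟨1⟩
  obtain ⟨h, hh⟩ := hD.nonempty
  have hcs : CauchySeq fun n => x n * h := by
    rw [Metric.cauchySeq_iff]
    intro ε hε
    obtain ⟨k, hk⟩ := exists_nat_one_div_lt hε
    obtain ⟨I, B, hB, hhB, hd⟩ := Set.mem_iInter.1 hh k
    exact ⟨I, fun m hm n hn => lt_trans (hd m hm n hn h hhB h hhB) hk⟩
  obtain ⟨c, hc⟩ := cauchySeq_tendsto_of_complete hcs
  refine ⟨c * h⁻¹, ?_⟩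
  have := hc.mul_const h⁻¹
  refine this.congr fun n => ?_
  group

theorem closed_image_tend {U H Γ : Type} [TopologicalSpace U] [Group U] [TopologicalSpace H]
    [Group H] [Group Γ] (π : Γ →* U) (φ : Γ →* H) (h1 : Tendsto φ (comap π (𝓝 1)) (𝓝 1))
    {α : Type} (l : Filter α) (f : α → Γ) (h : Tendsto (fun x => π (f x)) l (𝓝 1)) :
    Tendsto (fun x => φ (f x)) l (𝓝 1) :=
  h1.comp (tendsto_comap_iff.2 h)

theorem closed_image_lim (U H : Type) [TopologicalSpace U] [Group U] [IsTopologicalGroup U]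
    [PolishSpace U]
    [TopologicalSpace H] [Group H] [IsTopologicalGroup H] [PolishSpace H] (Γ : Type) [Group Γ]
    (π : Γ →* U) (φ : Γ →* H) (h1 : Tendsto φ (comap π (𝓝 1)) (𝓝 1)) (u : U)
    (hne : (comap π (𝓝 u)).NeBot) : ∃ a, Tendsto φ (comap π (𝓝 u)) (𝓝 a) := by
  obtain ⟨w, hw⟩ := Filter.exists_seq_tendsto (comap π (𝓝 u))
  have hπ : Tendsto π (comap π (𝓝 u)) (𝓝 u) := tendsto_comap
  have hwπ : Tendsto (fun n => π (w n)) atTop (𝓝 u) := hπ.comp hw
  have hleft : Tendsto (fun p : ℕ × ℕ => φ ((w p.1)⁻¹ * w p.2)) (atTop ×ˢ atTop) (𝓝 1) := by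
    apply closed_image_tend π φ h1
    have h2 : Tendsto (fun p : ℕ × ℕ => (π (w p.1))⁻¹ * π (w p.2)) (atTop ×ˢ atTop)
        (𝓝 (u⁻¹ * u)) :=
      ((hwπ.comp tendsto_fst).inv).mul (hwπ.comp tendsto_snd)
    rw [inv_mul_cancel] at h2
    simpa only [map_mul, map_inv] using h2
  have hright : Tendsto (fun p : ℕ × ℕ => φ (w p.1 * (w p.2)⁻¹)) (atTop ×ˢ atTop) (𝓝 1) := by
    apply closed_image_tend π φ h1
    have h2 : Tendsto (fun p : ℕ × ℕ => π (w p.1) * (π (w p.2))⁻¹) (atTop ×ˢ atTop)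
        (𝓝 (u * u⁻¹)) :=
      (hwπ.comp tendsto_fst).mul ((hwπ.comp tendsto_snd).inv)
    rw [mul_inv_cancel] at h2
    simpa only [map_mul, map_inv] using h2
  obtain ⟨a, ha⟩ := two_sided_complete H (fun n => φ (w n))
    (by simpa only [map_mul, map_inv] using hleft) (by simpa only [map_mul, map_inv] using hright)
  refine ⟨a, ?_⟩
  have h3 : Tendsto (fun p : ℕ × Γ => φ ((w p.1)⁻¹ * p.2)) (atTop ×ˢ comap π (𝓝 u)) (𝓝 1) := by
    apply closed_image_tend π φ h1
    have h2 : Tendsto (fun p : ℕ × Γ => (π (w p.1))⁻¹ * π p.2) (atTop ×ˢ comap π (𝓝 u))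
        (𝓝 (u⁻¹ * u)) :=
      ((hwπ.comp tendsto_fst).inv).mul (hπ.comp tendsto_snd)
    rw [inv_mul_cancel] at h2
    simpa only [map_mul, map_inv] using h2
  have h4 : Tendsto (fun p : ℕ × Γ => φ (w p.1) * φ ((w p.1)⁻¹ * p.2)) (atTop ×ˢ comap π (𝓝 u))
      (𝓝 (a * 1)) := (ha.comp tendsto_fst).mul h3
  have h5 : (fun p : ℕ × Γ => φ (w p.1) * φ ((w p.1)⁻¹ * p.2)) = φ ∘ Prod.snd := by
    ext p
    rw [← map_mul, mul_inv_cancel_left]
    rfl
  rw [h5, mul_one, ← tendsto_map'_iff, map_snd_prod] at h4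
  exact h4

theorem closed_image (U H : Type) [TopologicalSpace U] [Group U] [IsTopologicalGroup U] [PolishSpace U]
    [TopologicalSpace H] [Group H] [IsTopologicalGroup H] [PolishSpace H] (Γ : Type) [Group Γ]
    (π : Γ →* U) (φ : Γ →* H) (h1 : Tendsto φ (comap π (𝓝 1)) (𝓝 1))
    (h2 : ∀ h : H, ∃ s : ℕ → Γ, Tendsto (fun k => φ (s k)) atTop (𝓝 h) ∧
      Tendsto (fun p : ℕ × ℕ => π ((s p.1)⁻¹ * s p.2)) (atTop ×ˢ atTop) (𝓝 1) ∧
      Tendsto (fun p : ℕ × ℕ => π (s p.1 * (s p.2)⁻¹)) (atTop ×ˢ atTop) (𝓝 1)) :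
    ∃ (G : Subgroup U) (p : G →* H), IsClosed (G : Set U) ∧ Continuous p ∧ Function.Surjective p := by
  classical
  have hne : ∀ u : (π.range).topologicalClosure, (comap π (𝓝 (u : U))).NeBot := by
    intro u
    rw [comap_neBot_iff]
    intro t ht
    have hu : (u : U) ∈ closure (π.range : Set U) := u.2
    obtain ⟨x, hx, y, hy⟩ := mem_closure_iff_nhds.1 hu t ht
    exact ⟨y, hy ▸ hx⟩
  choose p hp using fun u : (π.range).topologicalClosure =>
    closed_image_lim U H Γ π φ h1 (u : U) (hne u)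
  have hmul : ∀ u v, p (u * v) = p u * p v := by
    intro u v
    haveI := hne u
    haveI := hne v
    have e1 : Tendsto (fun q : Γ × Γ => φ q.1 * φ q.2)
        (comap π (𝓝 (u : U)) ×ˢ comap π (𝓝 (v : U))) (𝓝 (p u * p v)) :=
      ((hp u).comp tendsto_fst).mul ((hp v).comp tendsto_snd)
    have e2 : Tendsto (fun q : Γ × Γ => q.1 * q.2)
        (comap π (𝓝 (u : U)) ×ˢ comap π (𝓝 (v : U))) (comap π (𝓝 ((u * v :
          (π.range).topologicalClosure) : U))) := by
      rw [tendsto_comap_iff]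
      have e3 : Tendsto (fun q : Γ × Γ => π q.1 * π q.2)
          (comap π (𝓝 (u : U)) ×ˢ comap π (𝓝 (v : U))) (𝓝 ((u : U) * (v : U))) :=
        (tendsto_comap.comp tendsto_fst).mul (tendsto_comap.comp tendsto_snd)
      have e4 : (π ∘ fun q : Γ × Γ => q.1 * q.2) = fun q => π q.1 * π q.2 := by
        ext q
        exact map_mul π _ _
      rw [e4]
      exact e3
    have e5 := (hp (u * v)).comp e2
    have e6 : (φ ∘ fun q : Γ × Γ => q.1 * q.2) = fun q => φ q.1 * φ q.2 := by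
      ext q
      exact map_mul φ _ _
    rw [e6] at e5
    exact tendsto_nhds_unique e5 e1
  refine ⟨(π.range).topologicalClosure, MonoidHom.mk' p hmul,
    Subgroup.isClosed_topologicalClosure _, ?_, ?_⟩
  · change Continuous p
    rw [continuous_iff_continuousAt]
    intro u
    rw [ContinuousAt, (closed_nhds_basis (p u)).tendsto_right_iff]
    rintro V ⟨hV, hVc⟩
    have h3 := hp u hV
    obtain ⟨O, hO, hOV⟩ := mem_comap.1 (mem_map.1 h3)
    obtain ⟨O', hO'O, hO'o, huO'⟩ := mem_nhds_iff.1 hO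
    have h4 : ∀ᶠ v : (π.range).topologicalClosure in 𝓝 u, (v : U) ∈ O' :=
      continuous_subtype_val.continuousAt.eventually_mem (hO'o.mem_nhds huO')
    refine h4.mono fun v hv => ?_
    haveI := hne v
    refine hVc.mem_of_tendsto (hp v) ?_
    exact mem_comap.2 ⟨O', hO'o.mem_nhds hv, fun g hg => hOV (hO'O hg)⟩
  · intro h
    obtain ⟨s, hs1, hs2, hs3⟩ := h2 h
    obtain ⟨u, hu⟩ := two_sided_complete U (fun n => π (s n))
      (by simpa only [map_mul, map_inv] using hs2) (by simpa only [map_mul, map_inv] using hs3)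
    have hmem : u ∈ (π.range).topologicalClosure :=
      mem_closure_of_tendsto hu (Eventually.of_forall fun n => ⟨s n, rfl⟩)
    refine ⟨⟨u, hmem⟩, ?_⟩
    have h3 : Tendsto s atTop (comap π (𝓝 u)) := tendsto_comap_iff.2 hu
    have h4 := (hp ⟨u, hmem⟩).comp h3
    exact tendsto_nhds_unique h4 hs1

noncomputable def kernel_space_K {Γ : Type} (k : Γ → Γ → ℝ) : Matrix Γ Γ (ℂ →L[ℂ] ℂ) :=
  fun x y => ((k x y : ℝ) : ℂ) • (1 : ℂ →L[ℂ] ℂ)

theorem kernel_space_herm {Γ : Type} (k : Γ → Γ → ℝ) (hsymm : ∀ x y, k x y = k y x) :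
    (kernel_space_K k).IsHermitian := by
  ext x y
  simp only [Matrix.conjTranspose_apply, kernel_space_K, star_smul, star_one, hsymm y x]
  simp

theorem kernel_space_psd {Γ : Type} (k : Γ → Γ → ℝ) (hsymm : ∀ x y, k x y = k y x)
    (hpsd : ∀ (T : Finset Γ) (c : Γ → ℝ), 0 ≤ ∑ x ∈ T, ∑ y ∈ T, c x * c y * k x y) :
    (kernel_space_K k).PosSemidef := by
  have key := ((RKHS.posSemidef_tfae (𝕜 := ℂ) (K := kernel_space_K k)).out 0 2).mpr
  refine key ⟨kernel_space_herm k hsymm, fun vv => ?_⟩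
  have h1 := hpsd vv.support (fun x => (vv x).re)
  have h2 := hpsd vv.support (fun x => (vv x).im)
  have h3 : RCLike.re (vv.sum fun x w ↦ vv.sum fun x' w' ↦
      inner ℂ (kernel_space_K k x' x w) w') =
      (∑ x ∈ vv.support, ∑ y ∈ vv.support, (vv x).re * (vv y).re * k x y) +
      ∑ x ∈ vv.support, ∑ y ∈ vv.support, (vv x).im * (vv y).im * k x y := by
    simp only [Finsupp.sum, map_sum]
    rw [← Finset.sum_add_distrib]
    refine Finset.sum_congr rfl fun x _ => ?_
    rw [← Finset.sum_add_distrib]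
    refine Finset.sum_congr rfl fun y _ => ?_
    simp [kernel_space_K, hsymm y x]
    ring
  rw [h3]
  exact add_nonneg h1 h2

theorem kernel_space (Γ : Type) [Countable Γ] (k : Γ → Γ → ℝ) (hsymm : ∀ x y, k x y = k y x)
    (hpsd : ∀ (T : Finset Γ) (c : Γ → ℝ), 0 ≤ ∑ x ∈ T, ∑ y ∈ T, c x * c y * k x y) :
    ∃ (E : Type) (_ : NormedAddCommGroup E) (_ : InnerProductSpace ℂ E) (_ : CompleteSpace E)
      (_ : TopologicalSpace.SeparableSpace E) (ξ : Γ → E),
      (∀ x y, inner ℂ (ξ x) (ξ y) = ((k x y : ℝ) : ℂ)) ∧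
      Dense ((Submodule.span ℂ (Set.range ξ) : Submodule ℂ E) : Set E) := by
  haveI : Fact (kernel_space_K k).PosSemidef := ⟨kernel_space_psd k hsymm hpsd⟩
  obtain ⟨ξ, hξ⟩ : ∃ ξ : Γ → RKHS.OfKernel (kernel_space_K k),
      ∀ x, ξ x = RKHS.kerFun (RKHS.OfKernel (kernel_space_K k)) x (1 : ℂ) := ⟨_, fun _ => rfl⟩
  have hd : Dense ((Submodule.span ℂ (Set.range ξ) :
      Submodule ℂ (RKHS.OfKernel (kernel_space_K k))) : Set (RKHS.OfKernel (kernel_space_K k))) := by
    rw [Submodule.dense_iff_topologicalClosure_eq_top, eq_top_iff,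
      ← RKHS.kerFun_dense (RKHS.OfKernel (kernel_space_K k))]
    apply Submodule.topologicalClosure_mono
    rw [Submodule.span_le]
    rintro _ ⟨x, v, rfl⟩
    have h1 : RKHS.kerFun (RKHS.OfKernel (kernel_space_K k)) x v = v • ξ x := by
      rw [hξ, ← map_smul]; simp
    rw [h1]
    exact Submodule.smul_mem _ _ (Submodule.subset_span ⟨x, rfl⟩)
  have hsep : TopologicalSpace.SeparableSpace (RKHS.OfKernel (kernel_space_K k)) := by
    rw [← TopologicalSpace.isSeparable_univ_iff, ← hd.closure_eq]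
    exact ((Set.countable_range ξ).isSeparable.span (R := ℂ)).closure
  refine ⟨RKHS.OfKernel (kernel_space_K k), inferInstance, inferInstance, inferInstance, hsep, ξ,
    fun x y => ?_, hd⟩
  rw [hξ, hξ, RKHS.kerFun_inner, RKHS.kerFun_apply, RKHS.OfKernel.kernel_ofKernel]
  simp [kernel_space_K]

theorem gram_equiv_inner (Γ : Type) (E : Type) [NormedAddCommGroup E] [InnerProductSpace ℂ E]
    (ξ : Γ → E) (c : Γ →₀ ℂ) :
    inner ℂ (Finsupp.linearCombination ℂ ξ c) (Finsupp.linearCombination ℂ ξ c)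
      = ∑ x ∈ c.support, ∑ y ∈ c.support, (starRingEnd ℂ (c x)) * (c y * inner ℂ (ξ x) (ξ y)) := by
  rw [Finsupp.linearCombination_apply, Finsupp.sum, sum_inner]
  refine Finset.sum_congr rfl fun x _ => ?_
  rw [inner_sum]
  refine Finset.sum_congr rfl fun y _ => ?_
  rw [inner_smul_left, inner_smul_right]

theorem gram_equiv (Γ : Type) (E : Type) [NormedAddCommGroup E] [InnerProductSpace ℂ E] [CompleteSpace E]
    (ξ ξ' : Γ → E) (h : ∀ x y, inner ℂ (ξ x) (ξ y) = inner ℂ (ξ' x) (ξ' y))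
    (h1 : Dense ((Submodule.span ℂ (Set.range ξ) : Submodule ℂ E) : Set E))
    (h2 : Dense ((Submodule.span ℂ (Set.range ξ') : Submodule ℂ E) : Set E)) :
    ∃ T : E ≃ₗᵢ[ℂ] E, ∀ x, T (ξ x) = ξ' x := by
  have hd : ∀ η : Γ → E, Dense ((Submodule.span ℂ (Set.range η) : Submodule ℂ E) : Set E) →
      DenseRange (Finsupp.linearCombination ℂ η : (Γ →₀ ℂ) →ₗ[ℂ] E) := by
    intro η hη
    have e : Set.range (Finsupp.linearCombination ℂ η : (Γ →₀ ℂ) →ₗ[ℂ] E)
        = ((Submodule.span ℂ (Set.range η) : Submodule ℂ E) : Set E) := by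
      rw [← Finsupp.range_linearCombination, LinearMap.coe_range]
    unfold DenseRange
    rw [e]
    exact hη
  have hn : ∀ c : Γ →₀ ℂ, ‖Finsupp.linearCombination ℂ ξ' (LinearEquiv.refl ℂ (Γ →₀ ℂ) c)‖
      = ‖Finsupp.linearCombination ℂ ξ c‖ := by
    intro c
    rw [LinearEquiv.refl_apply]
    have e1 : inner ℂ (Finsupp.linearCombination ℂ ξ' c) (Finsupp.linearCombination ℂ ξ' c)
        = inner ℂ (Finsupp.linearCombination ℂ ξ c) (Finsupp.linearCombination ℂ ξ c) := by
      rw [gram_equiv_inner, gram_equiv_inner]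
      simp only [h]
    rw [@norm_eq_sqrt_re_inner ℂ, @norm_eq_sqrt_re_inner ℂ, e1]
  refine ⟨(LinearEquiv.refl ℂ (Γ →₀ ℂ)).extendOfIsometry (Finsupp.linearCombination ℂ ξ)
    (Finsupp.linearCombination ℂ ξ') (hd ξ h1) (hd ξ' h2) hn, fun x => ?_⟩
  have e2 := (LinearEquiv.refl ℂ (Γ →₀ ℂ)).extendOfIsometry_eq (Finsupp.linearCombination ℂ ξ)
    (Finsupp.linearCombination ℂ ξ') (hd ξ h1) (hd ξ' h2) hn (Finsupp.single x 1)
  simpa using e2

theorem gns_rep_ext {Γ E : Type} [NormedAddCommGroup E] [InnerProductSpace ℂ E] (ξ : Γ → E)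
    (hd : Dense ((Submodule.span ℂ (Set.range ξ) : Submodule ℂ E) : Set E))
    (S T : E ≃ₗᵢ[ℂ] E) (h : ∀ x, S (ξ x) = T (ξ x)) : S = T := by
  have h1 : Set.EqOn (⇑S) (⇑T) ((Submodule.span ℂ (Set.range ξ) : Submodule ℂ E) : Set E) := by
    intro v hv
    induction hv using Submodule.span_induction with
    | mem y hy => obtain ⟨x, rfl⟩ := hy; exact h x
    | zero => simp
    | add y z _ _ hy hz => rw [map_add, map_add, hy, hz]
    | smul a y _ hy => rw [map_smul, map_smul, hy]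
  have h2 : (⇑S : E → E) = ⇑T := Continuous.ext_on hd S.continuous T.continuous h1
  exact DFunLike.coe_injective h2

theorem gns_rep (Γ : Type) [Group Γ] [Countable Γ] (K : Γ → ℝ) (hinv : ∀ w, K w⁻¹ = K w)
    (hpsd : ∀ (T : Finset Γ) (c : Γ → ℝ), 0 ≤ ∑ x ∈ T, ∑ y ∈ T, c x * c y * K (x⁻¹ * y)) :
    ∃ (E : Type) (_ : NormedAddCommGroup E) (_ : InnerProductSpace ℂ E) (_ : CompleteSpace E)
      (_ : TopologicalSpace.SeparableSpace E) (π : Γ →* (E ≃ₗᵢ[ℂ] E)) (ξ : Γ → E),
      (∀ x y, inner ℂ (ξ x) (ξ y) = ((K (x⁻¹ * y) : ℝ) : ℂ)) ∧ (∀ g x, π g (ξ x) = ξ (g * x)) ∧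
      Dense ((Submodule.span ℂ (Set.range ξ) : Submodule ℂ E) : Set E) := by
  obtain ⟨E, i1, i2, i3, i4, ξ, hξ, hd⟩ := kernel_space Γ (fun x y => K (x⁻¹ * y))
    (fun x y => by rw [← hinv (x⁻¹ * y)]; simp) hpsd
  have hT : ∀ g : Γ, ∃ T : E ≃ₗᵢ[ℂ] E, ∀ x, T (ξ x) = ξ (g * x) := fun g => by
    refine gram_equiv Γ E ξ (fun x => ξ (g * x)) ?_ hd ?_
    · intro x y
      rw [hξ, hξ]
      have e : x⁻¹ * y = (g * x)⁻¹ * (g * y) := by group
      rw [e]
    · have : Set.range (fun x => ξ (g * x)) = Set.range ξ :=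
        (Equiv.mulLeft g).surjective.range_comp ξ
      rw [this]; exact hd
  choose π hπ using hT
  refine ⟨E, i1, i2, i3, i4, MonoidHom.mk' π (fun g h => gns_rep_ext ξ hd _ _ fun x => ?_), ξ,
    hξ, hπ, hd⟩
  change π (g * h) (ξ x) = π g (π h (ξ x))
  rw [hπ, hπ, hπ, mul_assoc]

theorem pad_equiv_sep : TopologicalSpace.SeparableSpace E2 := by
  let b : HilbertBasis ℕ ℂ E2 := HilbertBasis.ofRepr (LinearIsometryEquiv.refl ℂ E2)
  have h1 : TopologicalSpace.IsSeparable (Set.range b) := (Set.countable_range b).isSeparable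
  have h2 : TopologicalSpace.IsSeparable ((Submodule.span ℂ (Set.range b) : Submodule ℂ E2) : Set E2) :=
    h1.span
  have h3 := h2.closure
  have h4 : closure ((Submodule.span ℂ (Set.range b) : Submodule ℂ E2) : Set E2) = Set.univ := by
    have h5 := b.dense_span
    rw [← Submodule.topologicalClosure_coe, h5]
    rfl
  rw [h4] at h3
  exact TopologicalSpace.isSeparable_univ_iff.1 h3

theorem pad_equiv_countable (V : Type) [NormedAddCommGroup V] [InnerProductSpace ℂ V]
    [TopologicalSpace.SeparableSpace V] (w : Set V) (hw : Orthonormal ℂ ((↑) : w → V)) :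
    w.Countable := by
  have hdist : ∀ x ∈ w, ∀ y ∈ w, x ≠ y → 1 ≤ dist x y := by
    intro x hx y hy hxy
    have hx1 : ‖x‖ = 1 := hw.1 ⟨x, hx⟩
    have hy1 : ‖y‖ = 1 := hw.1 ⟨y, hy⟩
    have hin : inner ℂ x y = 0 := hw.2 (i := ⟨x, hx⟩) (j := ⟨y, hy⟩) (by
      intro h
      exact hxy (congrArg Subtype.val h))
    have e := norm_sub_sq (𝕜 := ℂ) x y
    rw [hin, hx1, hy1] at e
    simp at e
    rw [dist_eq_norm]
    nlinarith [norm_nonneg (x - y)]
  have hd : w.PairwiseDisjoint (fun x : V => Metric.ball x (1 / 2)) := by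
    intro x hx y hy hxy
    change Disjoint (Metric.ball x (1 / 2)) (Metric.ball y (1 / 2))
    apply Metric.ball_disjoint_ball
    have := hdist x hx y hy hxy
    linarith
  exact hd.countable_of_isOpen (fun x _ => Metric.isOpen_ball)
    (fun x _ => Metric.nonempty_ball.2 (by norm_num))

theorem pad_equiv_infdim (V : Type) [NormedAddCommGroup V] [InnerProductSpace ℂ V]
    (ι : E2 →ₗ[ℂ] V) (hι : Function.Injective ι) : ¬ Module.Finite ℂ V := by
  intro hfin
  have : Module.Finite ℂ E2 := Module.Finite.of_injective ι hι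
  let b : HilbertBasis ℕ ℂ E2 := HilbertBasis.ofRepr (LinearIsometryEquiv.refl ℂ E2)
  have h1 : LinearIndependent ℂ b := b.orthonormal.linearIndependent
  have h2 : Finite ℕ := h1.finite
  exact not_finite ℕ

theorem pad_equiv (E : Type) [NormedAddCommGroup E] [InnerProductSpace ℂ E] [CompleteSpace E]
    [TopologicalSpace.SeparableSpace E] : Nonempty (WithLp 2 (E × E2) ≃ₗᵢ[ℂ] E2) := by
  have := pad_equiv_sep
  have : SecondCountableTopology E := UniformSpace.secondCountable_of_separable E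
  have : SecondCountableTopology E2 := UniformSpace.secondCountable_of_separable E2
  have : TopologicalSpace.SeparableSpace (WithLp 2 (E × E2)) := inferInstance
  obtain ⟨w, b, hb⟩ := exists_hilbertBasis ℂ (WithLp 2 (E × E2))
  have hw : Orthonormal ℂ ((↑) : w → WithLp 2 (E × E2)) := by
    rw [← hb]
    exact b.orthonormal
  have hwc : w.Countable := pad_equiv_countable _ w hw
  have : Countable w := hwc.to_subtype
  have hinf : Infinite w := by
    by_contra hcon
    have hfin : Finite w := not_infinite_iff_finite.1 hcon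
    have := Fintype.ofFinite w
    have hM : Module.Finite ℂ (WithLp 2 (E × E2)) :=
      Module.Finite.of_basis b.toOrthonormalBasis.toBasis
    refine pad_equiv_infdim (WithLp 2 (E × E2))
      ((WithLp.linearEquiv 2 ℂ (E × E2)).symm.toLinearMap ∘ₗ LinearMap.inr ℂ E E2) ?_ hM
    exact (WithLp.linearEquiv 2 ℂ (E × E2)).symm.injective.comp LinearMap.inr_injective
  obtain ⟨e⟩ : Nonempty (ℕ ≃ w) := nonempty_equiv_of_countable
  have ho : Orthonormal ℂ (fun n => b (e n)) := b.orthonormal.comp e e.injective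
  have hsp : ⊤ ≤ (Submodule.span ℂ (Set.range fun n => b (e n))).topologicalClosure := by
    have : (Set.range fun n => b (e n)) = Set.range b := by
      have h1 : (fun n => b (e n)) = b ∘ e := rfl
      rw [h1, Set.range_comp, e.range_eq_univ, Set.image_univ]
    rw [this, b.dense_span]
  exact ⟨(HilbertBasis.mk ho hsp).repr⟩

theorem gns_pad_ext {E : Type} [NormedAddCommGroup E] [InnerProductSpace ℂ E]
    (w w' : WithLp 2 (E × E2)) (h1 : w.fst = w'.fst) (h2 : w.snd = w'.snd) : w = w' :=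
  WithLp.ofLp_injective 2 (Prod.ext h1 h2)

theorem gns_pad_prod {E : Type} [NormedAddCommGroup E] [InnerProductSpace ℂ E]
    (a : E ≃ₗᵢ[ℂ] E) : ∃ b : WithLp 2 (E × E2) ≃ₗᵢ[ℂ] WithLp 2 (E × E2),
      ∀ w, (b w).fst = a w.fst ∧ (b w).snd = w.snd := by
  refine ⟨⟨(WithLp.linearEquiv 2 ℂ (E × E2)).trans
    ((a.toLinearEquiv.prodCongr (LinearEquiv.refl ℂ E2)).trans
      (WithLp.linearEquiv 2 ℂ (E × E2)).symm), ?_⟩, ?_⟩
  · intro w
    have h : ‖((WithLp.linearEquiv 2 ℂ (E × E2)).trans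
      ((a.toLinearEquiv.prodCongr (LinearEquiv.refl ℂ E2)).trans
      (WithLp.linearEquiv 2 ℂ (E × E2)).symm)) w‖ ^ 2 = ‖w‖ ^ 2 := by
      rw [WithLp.prod_norm_sq_eq_of_L2, WithLp.prod_norm_sq_eq_of_L2]
      have h1 : (((WithLp.linearEquiv 2 ℂ (E × E2)).trans
        ((a.toLinearEquiv.prodCongr (LinearEquiv.refl ℂ E2)).trans
        (WithLp.linearEquiv 2 ℂ (E × E2)).symm)) w).fst = a w.fst := rfl
      have h2 : (((WithLp.linearEquiv 2 ℂ (E × E2)).trans
        ((a.toLinearEquiv.prodCongr (LinearEquiv.refl ℂ E2)).trans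
        (WithLp.linearEquiv 2 ℂ (E × E2)).symm)) w).snd = w.snd := rfl
      rw [h1, h2, a.norm_map]
    exact (pow_left_inj₀ (norm_nonneg _) (norm_nonneg _) (by norm_num)).mp h
  · intro w
    exact ⟨rfl, rfl⟩

theorem gns_pad (Γ : Type) [Group Γ] [Countable Γ] (K : Γ → ℝ) (hinv : ∀ w, K w⁻¹ = K w)
    (hpsd : ∀ (T : Finset Γ) (c : Γ → ℝ), 0 ≤ ∑ x ∈ T, ∑ y ∈ T, c x * c y * K (x⁻¹ * y)) :
    ∃ (π : Γ →* UU) (ξ : Γ → E2) (M : Submodule ℂ E2),
      (∀ x y, inner ℂ (ξ x) (ξ y) = ((K (x⁻¹ * y) : ℝ) : ℂ)) ∧ (∀ g x, π g (ξ x) = ξ (g * x)) ∧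
      (∀ g, ∀ v ∈ M, π g v = v) ∧
      Dense ((Submodule.span ℂ (Set.range ξ) ⊔ M : Submodule ℂ E2) : Set E2) := by
  obtain ⟨E, i1, i2, i3, i4, π, ξ, hξ, hπ, hd⟩ := gns_rep Γ K hinv hpsd
  obtain ⟨T⟩ := pad_equiv E
  choose b hb using fun g => gns_pad_prod (π g)
  obtain ⟨M, hM⟩ : ∃ M : Submodule ℂ E2, ∀ v, v ∈ M ↔ (T.symm v).fst = 0 :=
    ⟨{ carrier := {v | (T.symm v).fst = 0}
       zero_mem' := by
        change (T.symm 0).fst = 0
        rw [map_zero]
        rfl
       add_mem' := by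
        intro x y hx hy
        change (T.symm (x + y)).fst = 0
        have hx' : (T.symm x).fst = 0 := hx
        have hy' : (T.symm y).fst = 0 := hy
        rw [map_add, WithLp.add_fst, hx', hy', add_zero]
       smul_mem' := by
        intro c x hx
        change (T.symm (c • x)).fst = 0
        have hx' : (T.symm x).fst = 0 := hx
        rw [map_smul, WithLp.smul_fst, hx', smul_zero] }, fun v => Iff.rfl⟩
  obtain ⟨L, hL⟩ : ∃ L : E →ₗ[ℂ] E2, ∀ y, L y = T (WithLp.toLp 2 (y, 0)) :=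
    ⟨T.toLinearEquiv.toLinearMap ∘ₗ (WithLp.linearEquiv 2 ℂ (E × E2)).symm.toLinearMap ∘ₗ
      LinearMap.inl ℂ E E2, fun y => rfl⟩
  have hLs : ∀ y, T.symm (L y) = WithLp.toLp 2 (y, 0) := by
    intro y
    rw [hL, T.symm_apply_apply]
  refine ⟨{ toFun := fun g => (T.symm.trans (b g)).trans T
            map_one' := ?_
            map_mul' := ?_ }, fun x => L (ξ x), M, ?_, ?_, ?_, ?_⟩
  · ext1 v
    change T (b 1 (T.symm v)) = v
    have h1 : b 1 (T.symm v) = T.symm v := by
      apply gns_pad_ext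
      · rw [(hb 1 _).1, map_one]
        rfl
      · rw [(hb 1 _).2]
    rw [h1, T.apply_symm_apply]
  · intro g h
    ext1 v
    change T (b (g * h) (T.symm v)) = T (b g (T.symm (T (b h (T.symm v)))))
    rw [T.symm_apply_apply]
    congr 1
    apply gns_pad_ext
    · rw [(hb _ _).1, (hb _ _).1, (hb _ _).1, map_mul]
      rfl
    · rw [(hb _ _).2, (hb _ _).2, (hb _ _).2]
  · intro x y
    change inner ℂ (L (ξ x)) (L (ξ y)) = _
    rw [hL, hL, T.inner_map_map, WithLp.prod_inner_apply]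
    change inner ℂ (ξ x) (ξ y) + inner ℂ (0 : E2) (0 : E2) = _
    rw [inner_zero_left, add_zero, hξ]
  · intro g x
    change T (b g (T.symm (L (ξ x)))) = L (ξ (g * x))
    rw [hLs, hL]
    congr 1
    apply gns_pad_ext
    · rw [(hb _ _).1]
      exact hπ g x
    · rw [(hb _ _).2]
      rfl
  · intro g v hv
    rw [hM] at hv
    change T (b g (T.symm v)) = v
    have h1 : b g (T.symm v) = T.symm v := by
      apply gns_pad_ext
      · rw [(hb g _).1, hv, map_zero]
      · rw [(hb g _).2]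
    rw [h1, T.apply_symm_apply]
  · intro v
    obtain ⟨c, hc⟩ : ∃ c : E2, c = (T.symm v).snd := ⟨_, rfl⟩
    have hF : Continuous (fun y : E => T (WithLp.toLp 2 (y, c))) := by
      apply T.continuous.comp
      apply (WithLp.prod_continuous_toLp 2 E E2).comp
      fun_prop
    have hv : T (WithLp.toLp 2 ((T.symm v).fst, c)) = v := by
      have h1 : (WithLp.toLp 2 ((T.symm v).fst, c) : WithLp 2 (E × E2)) = T.symm v := by
        apply gns_pad_ext
        · rfl
        · exact hc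
      rw [h1, T.apply_symm_apply]
    have hsp : ∀ y ∈ Submodule.span ℂ (Set.range ξ),
        L y ∈ Submodule.span ℂ (Set.range (fun x => L (ξ x))) := by
      have h1 : Submodule.span ℂ (Set.range ξ) ≤
          (Submodule.span ℂ (Set.range (fun x => L (ξ x)))).comap L := by
        rw [Submodule.span_le]
        rintro _ ⟨x, rfl⟩
        exact Submodule.subset_span ⟨x, rfl⟩
      exact h1
    have hmt : Set.MapsTo (fun y : E => T (WithLp.toLp 2 (y, c)))
        ((Submodule.span ℂ (Set.range ξ) : Submodule ℂ E) : Set E)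
        ((Submodule.span ℂ (Set.range (fun x => L (ξ x))) ⊔ M : Submodule ℂ E2) : Set E2) := by
      intro y hy
      have h1 : T (WithLp.toLp 2 (y, c)) = L y + T (WithLp.toLp 2 ((0 : E), c)) := by
        rw [hL, ← map_add]
        congr 1
        apply gns_pad_ext
        · rw [WithLp.add_fst]
          exact (add_zero y).symm
        · rw [WithLp.add_snd]
          exact (zero_add c).symm
      change T (WithLp.toLp 2 (y, c)) ∈ Submodule.span ℂ (Set.range (fun x => L (ξ x))) ⊔ M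
      rw [h1]
      apply Submodule.add_mem_sup (hsp y hy)
      rw [hM, T.symm_apply_apply]
      rfl
    have h2 := map_mem_closure hF (hd (T.symm v).fst) hmt
    rw [hv] at h2
    exact h2

lemma gns_tendsto_iff {ι : Type} (l : Filter ι) (W : ι → UU) : Tendsto W l (𝓝 1) ↔
    ∀ v : E2, Tendsto (fun i => W i v) l (𝓝 v) := by
  have hind : Topology.IsInducing (fun U : UU => (⇑U : E2 → E2)) := ⟨rfl⟩
  rw [hind.tendsto_nhds_iff, tendsto_pi_nhds]
  rfl

lemma gns_norm {Γ : Type} [Group Γ] {K : Γ → ℝ} (hone : K 1 = 1) {ξ : Γ → E2}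
    (hin : ∀ x y, inner ℂ (ξ x) (ξ y) = ((K (x⁻¹ * y) : ℝ) : ℂ)) (x : Γ) : ‖ξ x‖ ^ 2 = 1 := by
  have h1 : RCLike.re (inner ℂ (ξ x) (ξ x)) = ‖ξ x‖ ^ 2 := inner_self_eq_norm_sq (𝕜 := ℂ) (ξ x)
  rw [← h1, hin, inv_mul_cancel, hone]
  simp

lemma gns_sub {Γ : Type} [Group Γ] {K : Γ → ℝ} (hone : K 1 = 1) {ξ : Γ → E2}
    (hin : ∀ x y, inner ℂ (ξ x) (ξ y) = ((K (x⁻¹ * y) : ℝ) : ℂ)) (x y : Γ) :
    ‖ξ y - ξ x‖ ^ 2 = 2 - 2 * K (y⁻¹ * x) := by
  rw [norm_sub_sq (𝕜 := ℂ), gns_norm hone hin, gns_norm hone hin, hin]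
  have : RCLike.re (((K (y⁻¹ * x) : ℝ) : ℂ)) = K (y⁻¹ * x) := by simp
  rw [this]
  ring

theorem gns (Γ : Type) [Group Γ] [Countable Γ] (K : Γ → ℝ) (hone : K 1 = 1) (hinv : ∀ w, K w⁻¹ = K w)
    (hpsd : ∀ (T : Finset Γ) (c : Γ → ℝ), 0 ≤ ∑ x ∈ T, ∑ y ∈ T, c x * c y * K (x⁻¹ * y)) :
    ∃ π : Γ →* UU, ∀ (ι : Type) (l : Filter ι) (w : ι → Γ), Tendsto (fun i => π (w i)) l (𝓝 1) ↔
      ∀ g : Γ, Tendsto (fun i => K (g⁻¹ * w i * g)) l (𝓝 1) := by
  obtain ⟨π, ξ, M, hin, hpi, hM, hdense⟩ := gns_pad Γ K hinv hpsd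
  refine ⟨π, fun ι l w => ⟨fun h g => ?_, fun h => ?_⟩⟩
  · rw [gns_tendsto_iff] at h
    have h1 := h (ξ g)
    have h2 : Tendsto (fun i => (inner ℂ (ξ g) (π (w i) (ξ g))).re) l
        (𝓝 (inner ℂ (ξ g) (ξ g)).re) :=
      (Complex.continuous_re.tendsto _).comp
        (((continuous_const (y := ξ g)).inner continuous_id).tendsto (ξ g) |>.comp h1)
    have h3 : (inner ℂ (ξ g) (ξ g)).re = 1 := by
      rw [hin, inv_mul_cancel, hone]; simp
    rw [h3] at h2
    refine h2.congr fun i => ?_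
    rw [hpi, hin, Complex.ofReal_re, mul_assoc]
  · rw [gns_tendsto_iff]
    let V : Submodule ℂ E2 :=
      { carrier := {v | Tendsto (fun i => π (w i) v) l (𝓝 v)}
        add_mem' := by
          intro a b ha hb
          have ha' : Tendsto (fun i => π (w i) a) l (𝓝 a) := ha
          have hb' : Tendsto (fun i => π (w i) b) l (𝓝 b) := hb
          show Tendsto (fun i => π (w i) (a + b)) l (𝓝 (a + b))
          refine (ha'.add hb').congr fun i => ?_
          rw [map_add]
        zero_mem' := by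
          show Tendsto (fun i => π (w i) (0 : E2)) l (𝓝 0)
          refine tendsto_const_nhds.congr fun i => ?_
          rw [map_zero]
        smul_mem' := by
          intro c a ha
          have ha' : Tendsto (fun i => π (w i) a) l (𝓝 a) := ha
          show Tendsto (fun i => π (w i) (c • a)) l (𝓝 (c • a))
          refine (ha'.const_smul c).congr fun i => ?_
          rw [map_smul] }
    have hV1 : Submodule.span ℂ (Set.range ξ) ≤ V := by
      rw [Submodule.span_le]
      rintro _ ⟨g, rfl⟩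
      show Tendsto (fun i => π (w i) (ξ g)) l (𝓝 (ξ g))
      rw [tendsto_iff_norm_sub_tendsto_zero]
      have h1 : Tendsto (fun i => 2 - 2 * K (g⁻¹ * w i * g)) l (𝓝 (2 - 2 * 1)) :=
        ((h g).const_mul 2).const_sub 2
      have h2 : Tendsto (fun i => ‖π (w i) (ξ g) - ξ g‖ ^ 2) l (𝓝 0) := by
        have e0 : (2 - 2 * 1 : ℝ) = 0 := by norm_num
        rw [e0] at h1
        refine h1.congr fun i => ?_
        rw [hpi, gns_sub hone hin, ← hinv ((w i * g)⁻¹ * g)]
        congr 3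
        group
      have h3 := (Real.continuous_sqrt.tendsto 0).comp h2
      rw [Real.sqrt_zero] at h3
      refine h3.congr fun i => ?_
      simp only [Function.comp_apply]
      exact Real.sqrt_sq (norm_nonneg _)
    have hV2 : M ≤ V := by
      intro v hv
      show Tendsto (fun i => π (w i) v) l (𝓝 v)
      refine tendsto_const_nhds.congr fun i => ?_
      rw [hM _ v hv]
    have hV : Submodule.span ℂ (Set.range ξ) ⊔ M ≤ V := sup_le hV1 hV2
    intro v
    rw [Metric.tendsto_nhds]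
    intro ε hε
    obtain ⟨v', hv', hd⟩ := Metric.dense_iff.1 hdense v (ε / 3) (by positivity)
    have hd1 : dist v' v < ε / 3 := hv'
    have hv'' : Tendsto (fun i => π (w i) v') l (𝓝 v') := hV hd
    filter_upwards [Metric.tendsto_nhds.1 hv'' (ε / 3) (by positivity)] with i hi
    have h1 : dist (π (w i) v) (π (w i) v') = dist v v' := (π (w i)).dist_map v v'
    calc dist (π (w i) v) v ≤ dist (π (w i) v) (π (w i) v') + dist (π (w i) v') v' + dist v' v :=
          dist_triangle4 _ _ _ _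
      _ < ε := by rw [h1, dist_comm v v']; linarith

theorem kk_polish_cont (U : Type) [TopologicalSpace U] [Group U] [IsTopologicalGroup U]
    (ν : U → ℝ) (hν : IsGNorm ν) (f : U → ℝ) (hf : f ∈ KK ν) : Continuous f := by
  rw [continuous_iff_continuousAt]
  intro x
  rw [Metric.continuousAt_iff']
  intro ε hε
  have h1 : {h | ν h < ε} ∈ 𝓝 (1 : U) := (hν.nhds _).2 ⟨ε, hε, subset_rfl⟩
  have h2 : Tendsto (fun y : U => x⁻¹ * y) (𝓝 x) (𝓝 1) := by
    have : ContinuousAt (fun y : U => x⁻¹ * y) x := by fun_prop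
    have h3 := this.tendsto
    rwa [inv_mul_cancel] at h3
  filter_upwards [h2 h1] with y hy
  have hy' : ν (x⁻¹ * y) < ε := hy
  rw [Real.dist_eq, abs_lt]
  have a1 := hf.2 x y
  have a2 := hf.2 y x
  have e : ν (y⁻¹ * x) = ν (x⁻¹ * y) := by
    rw [← hν.inv]; simp
  rw [e] at a2
  constructor <;> linarith

theorem kk_polish_closed {U : Type} [Group U] (ν : U → ℝ) : IsClosed (KK ν) := by
  have e : KK ν = (⋂ x : U, {f : U → ℝ | 0 ≤ f x ∧ f x ≤ 1}) ∩
      ⋂ x : U, ⋂ y : U, {f : U → ℝ | f x - f y ≤ ν (x⁻¹ * y)} := by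
    ext f
    simp only [KK, Set.mem_inter_iff, Set.mem_iInter]
    exact Iff.rfl
  rw [e]
  refine IsClosed.inter ?_ ?_
  · refine isClosed_iInter fun x => ?_
    have h1 : IsClosed {f : U → ℝ | 0 ≤ f x} := isClosed_le continuous_const (continuous_apply x)
    have h2 : IsClosed {f : U → ℝ | f x ≤ 1} := isClosed_le (continuous_apply x) continuous_const
    exact h1.inter h2
  · refine isClosed_iInter fun x => isClosed_iInter fun y => ?_
    exact isClosed_le ((continuous_apply x).sub (continuous_apply y)) continuous_const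

theorem kk_polish (U : Type) [TopologicalSpace U] [Group U] [IsTopologicalGroup U] [PolishSpace U]
    (ν : U → ℝ) (hν : IsGNorm ν) : PolishSpace (KK ν) := by
  have hc : IsCompact (KK ν) := by
    have h1 : IsCompact (Set.pi Set.univ (fun _ : U => Set.Icc (0 : ℝ) 1)) :=
      isCompact_univ_pi fun _ => isCompact_Icc
    refine h1.of_isClosed_subset (kk_polish_closed ν) ?_
    intro f hf x _
    exact hf.1 x
  haveI : CompactSpace (KK ν) := isCompact_iff_compactSpace.1 hc
  haveI : Nonempty U := ⟨1⟩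
  let D := TopologicalSpace.denseSeq U
  have hD : DenseRange D := TopologicalSpace.denseRange_denseSeq U
  let Φ : KK ν → (ℕ → ℝ) := fun f n => f.1 (D n)
  have hΦ : Continuous Φ := by
    refine continuous_pi fun n => ?_
    exact (continuous_apply (D n)).comp continuous_subtype_val
  have hinj : Function.Injective Φ := by
    intro f g hfg
    apply Subtype.ext
    have c1 := kk_polish_cont U ν hν f.1 f.2
    have c2 := kk_polish_cont U ν hν g.1 g.2
    refine Continuous.ext_on (s := Set.range D) hD c1 c2 ?_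
    rintro _ ⟨n, rfl⟩
    exact congrFun hfg n
  exact (hΦ.isClosedEmbedding hinj).polishSpace

theorem tr_cont_nonneg (U : Type) [TopologicalSpace U] [Group U]
    (ν : U → ℝ) (hν : IsGNorm ν) (x : U) : 0 ≤ ν x := by
  have h1 := hν.mul x x⁻¹
  rw [mul_inv_cancel, hν.one, hν.inv] at h1
  linarith

theorem tr_cont_abs (U : Type) [TopologicalSpace U] [Group U]
    (ν : U → ℝ) (hν : IsGNorm ν) (f : U → ℝ) (hf : f ∈ KK ν) (x y : U) :
    |f x - f y| ≤ ν (x⁻¹ * y) := by
  rw [abs_le]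
  have h1 := hf.2 x y
  have h2 := hf.2 y x
  have h3 : ν (y⁻¹ * x) = ν (x⁻¹ * y) := by
    rw [← hν.inv (x⁻¹ * y)]
    congr 1
    group
  constructor <;> linarith

theorem tr_cont_tendsto (U : Type) [TopologicalSpace U] [Group U]
    (ν : U → ℝ) (hν : IsGNorm ν) : Tendsto ν (𝓝 1) (𝓝 0) := by
  rw [Metric.tendsto_nhds]
  intro ε hε
  have h1 : {h | ν h < ε} ∈ 𝓝 (1 : U) := (hν.nhds _).2 ⟨ε, hε, subset_rfl⟩
  filter_upwards [h1] with h hh
  rw [Real.dist_eq, sub_zero, abs_of_nonneg (tr_cont_nonneg U ν hν h)]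
  exact hh

theorem tr_cont (U : Type) [TopologicalSpace U] [Group U] [IsTopologicalGroup U]
    (ν : U → ℝ) (hν : IsGNorm ν) : Continuous (fun p : U × KK ν => tr ν p.1 p.2) := by
  refine Continuous.subtype_mk (continuous_pi fun h => ?_) _
  rw [continuous_iff_continuousAt]
  rintro ⟨u0, f0⟩
  show Tendsto (fun p : U × KK ν => p.2.1 (p.1⁻¹ * h)) (𝓝 (u0, f0)) (𝓝 (f0.1 (u0⁻¹ * h)))
  rw [tendsto_iff_norm_sub_tendsto_zero]
  have hb : ∀ p : U × KK ν, ‖p.2.1 (p.1⁻¹ * h) - f0.1 (u0⁻¹ * h)‖ ≤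
      ν ((p.1⁻¹ * h)⁻¹ * (u0⁻¹ * h)) + |p.2.1 (u0⁻¹ * h) - f0.1 (u0⁻¹ * h)| := by
    intro p
    rw [Real.norm_eq_abs]
    have h1 := tr_cont_abs U ν hν p.2.1 p.2.2 (p.1⁻¹ * h) (u0⁻¹ * h)
    have h2 := abs_sub_le (p.2.1 (p.1⁻¹ * h)) (p.2.1 (u0⁻¹ * h)) (f0.1 (u0⁻¹ * h))
    linarith
  refine squeeze_zero (fun _ => norm_nonneg _) hb ?_
  have h1 : Tendsto (fun p : U × KK ν => ν ((p.1⁻¹ * h)⁻¹ * (u0⁻¹ * h))) (𝓝 (u0, f0)) (𝓝 0) := by
    refine (tr_cont_tendsto U ν hν).comp ?_
    have hc : Continuous (fun p : U × KK ν => (p.1⁻¹ * h)⁻¹ * (u0⁻¹ * h)) := by fun_prop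
    have h2 := hc.tendsto (u0, f0)
    simp only [inv_mul_cancel] at h2
    exact h2
  have h2 : Tendsto (fun p : U × KK ν => |p.2.1 (u0⁻¹ * h) - f0.1 (u0⁻¹ * h)|)
      (𝓝 (u0, f0)) (𝓝 0) := by
    have hc : Continuous (fun p : U × KK ν => |p.2.1 (u0⁻¹ * h) - f0.1 (u0⁻¹ * h)|) := by
      have h3 : Continuous (fun p : U × KK ν => p.2.1 (u0⁻¹ * h)) :=
        (continuous_apply _).comp (continuous_subtype_val.comp continuous_snd)
      exact (h3.sub continuous_const).abs
    have h3 := hc.tendsto (u0, f0)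
    simp only [sub_self, abs_zero] at h3
    exact h3
  have h3 := h1.add h2
  rw [add_zero] at h3
  exact h3

theorem act_cont (U : Type) [TopologicalSpace U] [Group U] [IsTopologicalGroup U]
    (ν : U → ℝ) (hν : IsGNorm ν) :
    Continuous (fun p : U × (ℕ → KK ν) => (fun n => tr ν p.1 (p.2 n) : ℕ → KK ν)) :=
  continuous_pi fun n => (tr_cont U ν hν).comp
    (continuous_fst.prodMk ((continuous_apply n).comp continuous_snd))

theorem measurable_of_eval_compact (U : Type) [Group U] (ν : U → ℝ) : CompactSpace (KK ν) := by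
  rw [← isCompact_iff_compactSpace]
  have hbox : IsCompact (Set.pi Set.univ (fun _ : U => Set.Icc (0 : ℝ) 1)) :=
    isCompact_univ_pi fun _ => isCompact_Icc
  refine hbox.of_isClosed_subset ?_ ?_
  · have h1 : KK ν = (⋂ x : U, {f : U → ℝ | 0 ≤ f x ∧ f x ≤ 1}) ∩
        (⋂ x : U, ⋂ y : U, {f : U → ℝ | f x - f y ≤ ν (x⁻¹ * y)}) := by
      ext f
      simp [KK, Set.mem_iInter]
    rw [h1]
    apply IsClosed.inter
    · apply isClosed_iInter
      intro x
      exact (isClosed_le continuous_const (continuous_apply x)).inter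
        (isClosed_le (continuous_apply x) continuous_const)
    · apply isClosed_iInter
      intro x
      apply isClosed_iInter
      intro y
      exact isClosed_le ((continuous_apply x).sub (continuous_apply y)) continuous_const
  · intro f hf x _
    exact hf.1 x

theorem measurable_of_eval_dense (U : Type) [TopologicalSpace U] [Group U] [IsTopologicalGroup U]
    (ν : U → ℝ) (hν : IsGNorm ν) (D : ℕ → U) (hD : DenseRange D) (x : U) (ε : ℝ) (hε : 0 < ε) :
    ∃ k, ν ((D k)⁻¹ * x) < ε := by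
  have h1 : {h : U | ν h < ε} ∈ 𝓝 (1 : U) := (hν.nhds _).mpr ⟨ε, hε, fun _ h => h⟩
  have hc : Continuous (fun y : U => y⁻¹ * x) := by fun_prop
  have h2 : (fun y : U => y⁻¹ * x) ⁻¹' {h : U | ν h < ε} ∈ 𝓝 x := by
    apply hc.continuousAt
    simpa using h1
  obtain ⟨k, hk⟩ := hD.exists_mem_open isOpen_interior ⟨x, mem_interior_iff_mem_nhds.mpr h2⟩
  have hk2 : D k ∈ (fun y : U => y⁻¹ * x) ⁻¹' {h : U | ν h < ε} := interior_subset hk
  exact ⟨k, hk2⟩

theorem measurable_of_eval_inj (U : Type) [TopologicalSpace U] [Group U] [IsTopologicalGroup U]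
    (ν : U → ℝ) (hν : IsGNorm ν) (D : ℕ → U) (hD : DenseRange D) (f g : KK ν)
    (h : ∀ k, f.1 (D k) = g.1 (D k)) : f = g := by
  apply Subtype.ext
  funext x
  by_contra hne
  have hpos : 0 < |f.1 x - g.1 x| := abs_pos.mpr (sub_ne_zero.mpr hne)
  obtain ⟨k, hk⟩ := measurable_of_eval_dense U ν hν D hD x (|f.1 x - g.1 x| / 2) (by linarith)
  have hk' : ν (x⁻¹ * D k) = ν ((D k)⁻¹ * x) := by
    rw [← hν.inv ((D k)⁻¹ * x)]
    congr 1
    group
  have f1 := f.2.2 x (D k)
  have f2 := f.2.2 (D k) x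
  have g1 := g.2.2 x (D k)
  have g2 := g.2.2 (D k) x
  have hk2 := h k
  rcases abs_cases (f.1 x - g.1 x) with ⟨h1, _⟩ | ⟨h1, _⟩ <;> linarith

theorem measurable_of_eval (U : Type) [TopologicalSpace U] [Group U] [IsTopologicalGroup U] [PolishSpace U]
    (ν : U → ℝ) (hν : IsGNorm ν) (Y : Type) [MeasurableSpace Y] (f : Y → (ℕ → KK ν))
    (hf : ∀ n h, Measurable (fun y => (f y n).1 h)) :
    @Measurable Y (ℕ → KK ν) _ (borel (ℕ → KK ν)) f := by
  haveI := measurable_of_eval_compact U ν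
  let D := TopologicalSpace.denseSeq U
  have hD : DenseRange D := TopologicalSpace.denseRange_denseSeq U
  let Φ : (ℕ → KK ν) → (ℕ → ℕ → ℝ) := fun g n k => (g n).1 (D k)
  have hΦc : Continuous Φ := by
    refine continuous_pi fun n => continuous_pi fun k => ?_
    exact (continuous_apply (D k)).comp (continuous_subtype_val.comp (continuous_apply n))
  have hΦi : Function.Injective Φ := by
    intro g g' h
    funext n
    apply measurable_of_eval_inj U ν hν D hD
    intro k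
    exact congrFun (congrFun h n) k
  have hemb := hΦc.isClosedEmbedding hΦi
  have hb : borel (ℕ → KK ν) = MeasurableSpace.comap Φ (borel (ℕ → ℕ → ℝ)) := by
    rw [hemb.isInducing.eq_induced]
    exact borel_comap
  rw [hb]
  rw [measurable_comap_iff]
  have hb2 : borel (ℕ → ℕ → ℝ) = MeasurableSpace.pi := (BorelSpace.measurable_eq).symm
  rw [hb2]
  rw [measurable_pi_iff]
  intro n
  rw [measurable_pi_iff]
  intro k
  exact hf n (D k)

theorem dd_mem_nonneg (U : Type) [TopologicalSpace U] [Group U] (ν : U → ℝ) (hν : IsGNorm ν) (h : U) :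
    0 ≤ ν h := by
  have h1 := hν.mul h h⁻¹
  rw [mul_inv_cancel, hν.one, hν.inv] at h1
  linarith

theorem dd_mem_bdd (U : Type) [TopologicalSpace U] [Group U] (ν : U → ℝ) (hν : IsGNorm ν) (S : Set U)
    (h : U) : BddBelow (insert (1 : ℝ) ((fun s => ν (h⁻¹ * s)) '' S)) := by
  refine ⟨0, ?_⟩
  rintro b (rfl | ⟨s, _, rfl⟩)
  · exact zero_le_one
  · exact dd_mem_nonneg U ν hν _

theorem dd_mem_nn (U : Type) [TopologicalSpace U] [Group U] (ν : U → ℝ) (hν : IsGNorm ν) (S : Set U)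
    (h : U) : 0 ≤ dd ν S h := by
  refine le_csInf ⟨1, Set.mem_insert _ _⟩ ?_
  rintro b (rfl | ⟨s, _, rfl⟩)
  · exact zero_le_one
  · exact dd_mem_nonneg U ν hν _

theorem dd_mem_le1 (U : Type) [TopologicalSpace U] [Group U] (ν : U → ℝ) (hν : IsGNorm ν) (S : Set U)
    (h : U) : dd ν S h ≤ 1 := csInf_le (dd_mem_bdd U ν hν S h) (Set.mem_insert _ _)

theorem dd_mem_le (U : Type) [TopologicalSpace U] [Group U] (ν : U → ℝ) (hν : IsGNorm ν) (S : Set U)
    (h s : U) (hs : s ∈ S) : dd ν S h ≤ ν (h⁻¹ * s) :=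
  csInf_le (dd_mem_bdd U ν hν S h) (Set.mem_insert_of_mem _ ⟨s, hs, rfl⟩)

theorem dd_mem (U : Type) [TopologicalSpace U] [Group U] (ν : U → ℝ) (hν : IsGNorm ν) (S : Set U) :
    dd ν S ∈ KK ν := by
  refine ⟨fun x => ⟨dd_mem_nn U ν hν S x, dd_mem_le1 U ν hν S x⟩, fun x y => ?_⟩
  have h1 : dd ν S x - ν (x⁻¹ * y) ≤ dd ν S y := by
    refine le_csInf ⟨1, Set.mem_insert _ _⟩ ?_
    rintro b (rfl | ⟨s, hs, rfl⟩)
    · have h2 := dd_mem_le1 U ν hν S x
      have h3 := dd_mem_nonneg U ν hν (x⁻¹ * y)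
      linarith
    · have h2 := dd_mem_le U ν hν S x s hs
      have h3 := hν.mul (x⁻¹ * y) (y⁻¹ * s)
      have h4 : x⁻¹ * y * (y⁻¹ * s) = x⁻¹ * s := by group
      rw [h4] at h3
      simp only
      linarith
  linarith

theorem dd_lt_iff (U : Type) [TopologicalSpace U] [Group U] (ν : U → ℝ) (hν : IsGNorm ν) (S : Set U)
    (h : U) (r : ℝ) (hr : r ≤ 1) : dd ν S h < r ↔ ∃ s ∈ S, ν (h⁻¹ * s) < r := by
  unfold dd
  rw [csInf_lt_iff (dd_mem_bdd U ν hν S h) ⟨1, Set.mem_insert _ _⟩]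
  constructor
  · rintro ⟨b, (rfl | ⟨s, hs, rfl⟩), hb⟩
    · exact absurd hb (not_lt.mpr hr)
    · exact ⟨s, hs, hb⟩
  · rintro ⟨s, hs, hb⟩
    exact ⟨_, Set.mem_insert_of_mem _ ⟨s, hs, rfl⟩, hb⟩

theorem dd_translate (U : Type) [Group U] (ν : U → ℝ) (S : Set U) (u h : U) :
    dd ν {x | u⁻¹ * x ∈ S} h = dd ν S (u⁻¹ * h) := by
  unfold dd
  congr 2
  ext r
  constructor
  · rintro ⟨s, hs, rfl⟩
    refine ⟨u⁻¹ * s, hs, ?_⟩
    simp only
    congr 1
    group
  · rintro ⟨t, ht, rfl⟩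
    refine ⟨u * t, ?_, ?_⟩
    · show u⁻¹ * (u * t) ∈ S
      rw [inv_mul_cancel_left]
      exact ht
    · simp only
      congr 1
      group

theorem dd_zero_iff (U : Type) [TopologicalSpace U] [Group U] [IsTopologicalGroup U] (ν : U → ℝ)
    (hν : IsGNorm ν) (S : Set U) (h : U) : dd ν S h = 0 ↔ h ∈ closure S := by
  rw [mem_closure_iff_nhds]
  constructor
  · intro h0 t ht
    rw [← map_mul_left_nhds_one h, Filter.mem_map, hν.nhds] at ht
    obtain ⟨r, hr, hsub⟩ := ht
    have h1 : dd ν S h < min r 1 := by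
      rw [h0]; exact lt_min hr one_pos
    obtain ⟨s, hs, hs2⟩ := (dd_lt_iff U ν hν S h (min r 1) (min_le_right _ _)).mp h1
    refine ⟨s, ?_, hs⟩
    have h2 : h⁻¹ * s ∈ {x | ν x < r} := lt_of_lt_of_le hs2 (min_le_left _ _)
    have h3 := hsub h2
    simpa using h3
  · intro hcl
    by_contra hne
    have hpos : 0 < dd ν S h := lt_of_le_of_ne (dd_mem_nn U ν hν S h) (Ne.symm hne)
    have ht : {x | ν (h⁻¹ * x) < dd ν S h} ∈ 𝓝 h := by
      rw [← map_mul_left_nhds_one h, Filter.mem_map, hν.nhds]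
      refine ⟨dd ν S h, hpos, ?_⟩
      intro x hx
      show ν (h⁻¹ * (h * x)) < dd ν S h
      rw [inv_mul_cancel_left]
      exact hx
    obtain ⟨s, hs1, hs2⟩ := hcl _ ht
    exact absurd (dd_mem_le U ν hν S h s hs2) (not_le.mpr hs1)

theorem dd_measurable (U : Type) [TopologicalSpace U] [Group U] (ν : U → ℝ) (hν : IsGNorm ν)
    (Y : Type) [TopologicalSpace Y] [MeasurableSpace Y] [BorelSpace Y] (O : Y → Set U)
    (hO : ∀ s : U, IsOpen {y | s ∈ O y}) (h : U) : Measurable (fun y => dd ν (O y) h) := by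
  refine measurable_of_Iio (fun r => ?_)
  by_cases hr : r ≤ 1
  · have h1 : (fun y => dd ν (O y) h) ⁻¹' Set.Iio r =
        ⋃ s ∈ {s : U | ν (h⁻¹ * s) < r}, {y | s ∈ O y} := by
      ext y
      simp only [Set.mem_preimage, Set.mem_Iio, Set.mem_iUnion, Set.mem_setOf_eq, exists_prop]
      rw [dd_lt_iff U ν hν (O y) h r hr]
      constructor
      · rintro ⟨s, h1, h2⟩; exact ⟨s, h2, h1⟩
      · rintro ⟨s, h1, h2⟩; exact ⟨s, h2, h1⟩
    rw [h1]
    exact (isOpen_biUnion (fun s _ => hO s)).measurableSet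
  · have h1 : (fun y => dd ν (O y) h) ⁻¹' Set.Iio r = Set.univ := by
      rw [Set.eq_univ_iff_forall]
      intro y
      exact lt_of_le_of_lt (dd_mem_le1 U ν hν (O y) h) (not_le.mp hr)
    rw [h1]
    exact MeasurableSet.univ

/-- the sets used to code a point -/
def reduction_O {U : Type} [Group U] {H : Type} [Group H] (G : Subgroup U) (p : G →* H)
    {Y : Type} [MulAction H Y] (V : ℕ → Set Y) (n : ℕ) (y : Y) : Set U :=
  {x : U | ∃ hx : x ∈ G, (p ⟨x, hx⟩)⁻¹ • y ∈ V n}

theorem reduction_O_tr {U : Type} [Group U] {H : Type} [Group H] (G : Subgroup U) (p : G →* H)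
    {Y : Type} [MulAction H Y] (V : ℕ → Set Y) (n : ℕ) (y : Y) (u : U) (hu : u ∈ G) :
    {x | u⁻¹ * x ∈ reduction_O G p V n y} = reduction_O G p V n (p ⟨u, hu⟩ • y) := by
  ext x
  constructor
  · rintro ⟨h1, h2⟩
    have hx : x ∈ G := by
      have := G.mul_mem hu h1
      simpa using this
    refine ⟨hx, ?_⟩
    have e : (⟨u⁻¹ * x, h1⟩ : G) = (⟨u, hu⟩ : G)⁻¹ * ⟨x, hx⟩ := Subtype.ext rfl
    rw [e, map_mul, map_inv, mul_inv_rev, inv_inv, mul_smul] at h2
    exact h2
  · rintro ⟨hx, h2⟩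
    have h1 : u⁻¹ * x ∈ G := G.mul_mem (G.inv_mem hu) hx
    refine ⟨h1, ?_⟩
    have e : (⟨u⁻¹ * x, h1⟩ : G) = (⟨u, hu⟩ : G)⁻¹ * ⟨x, hx⟩ := Subtype.ext rfl
    rw [e, map_mul, map_inv, mul_inv_rev, inv_inv, mul_smul]
    exact h2

theorem reduction_O_open {U : Type} [Group U] {H : Type} [TopologicalSpace H] [Group H]
    (G : Subgroup U) (p : G →* H)
    {Y : Type} [TopologicalSpace Y] [MulAction H Y] [ContinuousSMul H Y] (V : ℕ → Set Y)
    (hV : ∀ n, IsOpen (V n)) (n : ℕ) (s : U) :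
    IsOpen {y | s ∈ reduction_O G p V n y} := by
  by_cases hs : s ∈ G
  · have e : {y | s ∈ reduction_O G p V n y} = (fun y => (p ⟨s, hs⟩)⁻¹ • y) ⁻¹' (V n) := by
      ext y
      constructor
      · rintro ⟨_, h⟩; exact h
      · intro h; exact ⟨hs, h⟩
    rw [e]
    exact (hV n).preimage (continuous_const_smul _)
  · have e : {y | s ∈ reduction_O G p V n y} = ∅ := by
      ext y
      constructor
      · rintro ⟨h, _⟩; exact absurd h hs
      · intro h; exact absurd h (Set.notMem_empty _)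
    rw [e]
    exact isOpen_empty

theorem reduction_basis (Y : Type) [TopologicalSpace Y] [SecondCountableTopology Y] :
    ∃ V : ℕ → Set Y, (∀ n, IsOpen (V n)) ∧ ∀ (y : Y) (W : Set Y), IsOpen W → y ∈ W →
      ∃ n, y ∈ V n ∧ V n ⊆ W := by
  obtain ⟨b, hbc, -, hb⟩ := TopologicalSpace.exists_countable_basis Y
  obtain ⟨V, hV⟩ := (hbc.insert (∅ : Set Y)).exists_eq_range (Set.insert_nonempty _ _)
  refine ⟨V, ?_, ?_⟩
  · intro n
    have : V n ∈ insert ∅ b := by rw [hV]; exact Set.mem_range_self n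
    rcases this with h | h
    · rw [h]; exact isOpen_empty
    · exact hb.isOpen h
  · intro y W hW hy
    obtain ⟨v, hv, hyv, hvW⟩ := hb.exists_subset_of_mem_open hy hW
    have : v ∈ Set.range V := by rw [← hV]; exact Set.mem_insert_of_mem _ hv
    obtain ⟨n, rfl⟩ := this
    exact ⟨n, hyv, hvW⟩

theorem reduction (U : Type) [TopologicalSpace U] [Group U] [IsTopologicalGroup U] [PolishSpace U]
    (ν : U → ℝ) (hν : IsGNorm ν) (H : Type) [TopologicalSpace H] [Group H] [IsTopologicalGroup H]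
    (G : Subgroup U) (p : G →* H) (hG : IsClosed (G : Set U)) (hp : Continuous p)
    (hps : Function.Surjective p)
    (Y : Type) [TopologicalSpace Y] [PolishSpace Y] [MeasurableSpace Y] [BorelSpace Y]
    [MulAction H Y] [ContinuousSMul H Y] :
    ∃ f : Y → (ℕ → KK ν), @Measurable Y (ℕ → KK ν) _ (borel (ℕ → KK ν)) f ∧
      ∀ y y' : Y, (∃ h : H, h • y = y') ↔ ∃ u : U, (fun n => tr ν u (f y n)) = f y' := by
  classical
  obtain ⟨V, hV, hVb⟩ := reduction_basis Y
  have hreg : RegularSpace Y := by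
    letI := TopologicalSpace.upgradeIsCompletelyMetrizable Y
    infer_instance
  let f : Y → ℕ → KK ν := fun y n => Nat.casesOn (motive := fun _ => KK ν) n
    ⟨dd ν (G : Set U), dd_mem U ν hν _⟩ (fun m => ⟨dd ν (reduction_O G p V m y), dd_mem U ν hν _⟩)
  have hf0 : ∀ y, (f y 0).1 = dd ν (G : Set U) := fun y => rfl
  have hf1 : ∀ y m, (f y (m + 1)).1 = dd ν (reduction_O G p V m y) := fun y m => rfl
  have htr : ∀ (y : Y) (u : U) (hu : u ∈ G), (fun n => tr ν u (f y n)) = f (p ⟨u, hu⟩ • y) := by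
    intro y u hu
    funext n
    apply Subtype.ext
    funext h
    rcases n with _ | m
    · show dd ν (G : Set U) (u⁻¹ * h) = dd ν (G : Set U) h
      rw [← dd_translate]
      congr 1
      ext x
      constructor
      · intro hx
        have hx' : u⁻¹ * x ∈ G := hx
        have := G.mul_mem hu hx'
        simpa using this
      · intro hx
        have hx' : x ∈ G := hx
        exact G.mul_mem (G.inv_mem hu) hx'
    · show dd ν (reduction_O G p V m y) (u⁻¹ * h) = dd ν (reduction_O G p V m (p ⟨u, hu⟩ • y)) h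
      rw [← dd_translate, reduction_O_tr]
  have hinj : ∀ y1 y2, f y1 = f y2 → y1 = y2 := by
    intro y1 y2 he
    by_contra hne
    have hn : ({y2}ᶜ : Set Y) ∈ 𝓝 y1 := isOpen_compl_singleton.mem_nhds hne
    obtain ⟨t, ht1, ht2, ht3⟩ := exists_mem_nhds_isClosed_subset hn
    obtain ⟨n, hn1, hn2⟩ := hVb y1 (interior t) isOpen_interior (mem_interior_iff_mem_nhds.2 ht1)
    have h1 : (1 : U) ∈ reduction_O G p V n y1 := by
      refine ⟨G.one_mem, ?_⟩
      have e : (⟨1, G.one_mem⟩ : G) = 1 := rfl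
      rw [e, map_one, inv_one, one_smul]
      exact hn1
    have h2 : dd ν (reduction_O G p V n y1) 1 = 0 := (dd_zero_iff U ν hν _ _).2 (subset_closure h1)
    have h3 : dd ν (reduction_O G p V n y2) 1 = 0 := by
      rw [← hf1, ← he, hf1]; exact h2
    have h4 := (dd_zero_iff U ν hν _ _).1 h3
    have hgc : Continuous (fun x : G => (p x)⁻¹ • y2) := by
      exact (hp.inv).smul continuous_const
    have hopen : IsOpen ((fun x : G => (p x)⁻¹ • y2) ⁻¹' tᶜ) := ht2.isOpen_compl.preimage hgc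
    obtain ⟨N, hN1, hN2⟩ := isOpen_induced_iff.1 hopen
    have h1N : (1 : U) ∈ N := by
      have : (1 : G) ∈ (fun x : G => (p x)⁻¹ • y2) ⁻¹' tᶜ := by
        show (p 1)⁻¹ • y2 ∈ tᶜ
        rw [map_one, inv_one, one_smul]
        intro hy
        exact ht3 hy rfl
      rw [← hN2] at this
      exact this
    obtain ⟨x, hxN, hxG, hxV⟩ := mem_closure_iff.1 h4 N hN1 h1N
    have : (⟨x, hxG⟩ : G) ∈ (fun x : G => (p x)⁻¹ • y2) ⁻¹' tᶜ := by
      rw [← hN2]; exact hxN
    exact this (interior_subset (hn2 hxV))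
  refine ⟨f, ?_, ?_⟩
  · apply measurable_of_eval U ν hν Y f
    intro n h
    rcases n with _ | m
    · exact measurable_const
    · exact dd_measurable U ν hν Y (fun y => reduction_O G p V m y)
        (fun s => reduction_O_open G p V hV m s) h
  · intro y y'
    constructor
    · rintro ⟨h, rfl⟩
      obtain ⟨u, rfl⟩ := hps h
      exact ⟨u.1, htr y u.1 u.2⟩
    · rintro ⟨u, hu⟩
      have h0 := congrArg (fun F : ℕ → KK ν => (F 0).1 u) hu
      have h1 : dd ν (G : Set U) (u⁻¹ * u) = dd ν (G : Set U) u := h0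
      rw [inv_mul_cancel] at h1
      have h2 : dd ν (G : Set U) 1 = 0 := (dd_zero_iff U ν hν _ _).2 (subset_closure G.one_mem)
      have h3 : u ∈ closure (G : Set U) := (dd_zero_iff U ν hν _ _).1 (by rw [← h1, h2])
      rw [hG.closure_eq] at h3
      have h4 : u ∈ G := h3
      refine ⟨p ⟨u, h4⟩, hinj _ _ ?_⟩
      rw [← htr y u h4, hu]

end Pool.Agent.Helper289.UO
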