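import Mathlib
import Pool.Agent.Helper289.UO.Comb
import Pool.Agent.Helper289.UO.Top

set_option autoImplicit false
set_option linter.all false

namespace Pool.Agent.Helper289.UO

open Filter Topology

/-- the homomorphism `y_n ↦ v(par n)⁻¹ v(n)` (and `y_0 ↦ 1`) -/
noncomputable def phi {H : Type} [Group H] (v : ℕ → H) : F →* H :=
  FreeGroup.lift (fun n => if n = 0 then 1 else (v (par n))⁻¹ * v n)

/-- the values `v` at the nodes and the tolerances `δ` -/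
structure HSpec {H : Type} [Group H] (ν : H → ℝ) (q : ℕ → H) (Z : ℕ → Set F) (v : ℕ → H)
    (δ : ℕ → ℝ) : Prop where
  root : v 0 = 1
  dpos : ∀ r, 0 < δ r
  dspec : ∀ r, ∀ t : H, ν t < δ r → ∀ z ∈ Z r,
    ν ((phi v z)⁻¹ * t * phi v z) ≤ (1 / 2 : ℝ) ^ (dep r + 1) ∧
    ν ((v r * phi v z)⁻¹ * t * (v r * phi v z)) ≤ (1 / 2 : ℝ) ^ (dep r + 1)
  move : ∀ n, n ≠ 0 → (par n = 0 ∨ (ν ((v (par n))⁻¹ * q (lab n)) < δ (par (par n)) ∧
    ν (q (lab n) * (v (par n))⁻¹) < δ (par (par n)))) → v n = q (lab n)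
  stay : ∀ n, n ≠ 0 → ¬ (par n = 0 ∨ (ν ((v (par n))⁻¹ * q (lab n)) < δ (par (par n)) ∧
    ν (q (lab n) * (v (par n))⁻¹) < δ (par (par n)))) → v n = v (par n)

theorem phi_congr_of {H : Type} [Group H] (v : ℕ → H) (n : ℕ) :
    phi v (FreeGroup.of n) = if n = 0 then 1 else (v (par n))⁻¹ * v n := by
  unfold phi
  rw [FreeGroup.lift_apply_of]

theorem phi_congr {H : Type} [Group H] (v v' : ℕ → H) (r : ℕ) (h : ∀ j ≤ r, v j = v' j) (z : F)
    (hz : z ∈ L (r + 1)) : phi v z = phi v' z := by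
  refine MonoidHom.eqOn_closure (f := phi v) (g := phi v') ?_ hz
  rintro _ ⟨i, hi, rfl⟩
  rw [phi_congr_of, phi_congr_of]
  by_cases hi0 : i = 0
  · rw [if_pos hi0, if_pos hi0]
  · rw [if_neg hi0, if_neg hi0, h i (by omega), h (par i) (by have := par_lt i hi0; omega)]

theorem phi_xx {H : Type} [Group H] (v : ℕ → H) (h0 : v 0 = 1) (n : ℕ) : phi v (xx n) = v n := by
  induction n using Nat.strong_induction_on with
  | _ n ih =>
    by_cases hn : n = 0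
    · subst hn
      have : xx 0 = 1 := by rw [xx]
      rw [this, map_one, h0]
    · rw [xx_eq n hn, map_mul, ih (par n) (par_lt n hn), phi_congr_of, if_neg hn, mul_inv_cancel_left]

theorem exists_HSpec (H : Type) [TopologicalSpace H] [Group H] [IsTopologicalGroup H] (ν : H → ℝ)
    (hν : IsGNorm ν) (q : ℕ → H) (Z : ℕ → Set F) (hf : ∀ r, (Z r).Finite)
    (hs : ∀ r, Z r ⊆ (L (r + 1) : Set F)) : ∃ (v : ℕ → H) (δ : ℕ → ℝ), HSpec ν q Z v δ := by
  classical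
  haveI : Inhabited (H × ℝ) := ⟨(1, 1)⟩
  have hpar : ∀ r, par r ≤ r := by
    intro r
    rcases Nat.eq_zero_or_pos r with h | h
    · subst h; simp [par]
    · exact (par_lt r h.ne').le
  have hconj : ∀ (g : H) (ε : ℝ), 0 < ε → {t : H | ν (g⁻¹ * t * g) ≤ ε} ∈ 𝓝 (1 : H) := by
    intro g ε hε
    have h1 : {h : H | ν h ≤ ε} ∈ 𝓝 (1 : H) :=
      (hν.nhds _).2 ⟨ε, hε, fun h (hh : ν h < ε) => (show ν h ≤ ε from hh.le)⟩
    have h2 : Tendsto (fun t : H => g⁻¹ * t * g) (𝓝 1) (𝓝 1) := by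
      have : Tendsto (fun t : H => g⁻¹ * t * g) (𝓝 1) (𝓝 (g⁻¹ * 1 * g)) :=
        Continuous.tendsto (by fun_prop) 1
      simpa using this
    exact h2 h1
  let P : ℕ → (ℕ → H × ℝ) → Prop := fun r s =>
    (r = 0 → (s 0).1 = 1) ∧ 0 < (s r).2 ∧
    (∀ t : H, ν t < (s r).2 → ∀ z ∈ Z r,
      ν ((phi (fun j => (s j).1) z)⁻¹ * t * phi (fun j => (s j).1) z) ≤ (1 / 2 : ℝ) ^ (dep r + 1) ∧
      ν (((s r).1 * phi (fun j => (s j).1) z)⁻¹ * t * ((s r).1 * phi (fun j => (s j).1) z)) ≤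
        (1 / 2 : ℝ) ^ (dep r + 1)) ∧
    (r ≠ 0 → (par r = 0 ∨ (ν (((s (par r)).1)⁻¹ * q (lab r)) < (s (par (par r))).2 ∧
      ν (q (lab r) * ((s (par r)).1)⁻¹) < (s (par (par r))).2)) → (s r).1 = q (lab r)) ∧
    (r ≠ 0 → ¬ (par r = 0 ∨ (ν (((s (par r)).1)⁻¹ * q (lab r)) < (s (par (par r))).2 ∧
      ν (q (lab r) * ((s (par r)).1)⁻¹) < (s (par (par r))).2)) → (s r).1 = (s (par r)).1)
  have hloc : ∀ r (Z1 Z2 : ℕ → H × ℝ), (∀ j ≤ r, Z1 j = Z2 j) → P r Z1 → P r Z2 := by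
    intro r Z1 Z2 h12 hP
    obtain ⟨p1, p2, p3, p4, p5⟩ := hP
    have er : Z2 r = Z1 r := (h12 r le_rfl).symm
    have ep : Z2 (par r) = Z1 (par r) := (h12 _ (hpar r)).symm
    have epp : Z2 (par (par r)) = Z1 (par (par r)) := (h12 _ ((hpar _).trans (hpar r))).symm
    have e0 : Z2 0 = Z1 0 := (h12 0 (Nat.zero_le r)).symm
    refine ⟨?_, ?_, ?_, ?_, ?_⟩
    · intro h; rw [e0]; exact p1 h
    · rw [er]; exact p2
    · intro t ht z hz
      rw [er] at ht ⊢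
      have hphi : phi (fun j => (Z2 j).1) z = phi (fun j => (Z1 j).1) z :=
        phi_congr _ _ r (fun j hj => by rw [h12 j hj]) z (hs r hz)
      rw [hphi]
      exact p3 t ht z hz
    · intro h0 hc
      rw [ep, epp] at hc
      rw [er]
      exact p4 h0 hc
    · intro h0 hc
      rw [ep, epp] at hc
      rw [er, ep]
      exact p5 h0 hc
  have hstep : ∀ r (Z0 : ℕ → H × ℝ), (∀ j < r, P j Z0) →
      ∃ a : H × ℝ, P r (Function.update Z0 r a) := by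
    intro r Z0 _
    obtain ⟨a1, ha1⟩ : ∃ a1 : H, a1 = if r = 0 then 1 else
      if (par r = 0 ∨ (ν (((Z0 (par r)).1)⁻¹ * q (lab r)) < (Z0 (par (par r))).2 ∧
        ν (q (lab r) * ((Z0 (par r)).1)⁻¹) < (Z0 (par (par r))).2)) then q (lab r)
      else (Z0 (par r)).1 := ⟨_, rfl⟩
    obtain ⟨w, hw⟩ : ∃ w : ℕ → H, w = Function.update (fun j => (Z0 j).1) r a1 := ⟨_, rfl⟩
    have hV : ∀ d : ℝ, (fun j => (Function.update Z0 r (a1, d) j).1) = w := by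
      intro d
      funext j
      rw [hw]
      by_cases hj : j = r
      · subst hj; simp
      · simp [Function.update_of_ne hj]
    have hset : (⋂ z ∈ Z r, ({t : H | ν ((phi w z)⁻¹ * t * phi w z) ≤ (1 / 2 : ℝ) ^ (dep r + 1)} ∩
        {t : H | ν ((a1 * phi w z)⁻¹ * t * (a1 * phi w z)) ≤ (1 / 2 : ℝ) ^ (dep r + 1)})) ∈
        𝓝 (1 : H) := by
      rw [Filter.biInter_mem (hf r)]
      intro z _
      exact Filter.inter_mem (hconj _ _ (by positivity)) (hconj _ _ (by positivity))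
    obtain ⟨d, hd, hsub⟩ := (hν.nhds _).1 hset
    refine ⟨(a1, d), ?_, ?_, ?_, ?_, ?_⟩
    · intro h
      subst h
      rw [Function.update_self, ha1, if_pos rfl]
    · rw [Function.update_self]; exact hd
    · intro t ht z hz
      rw [Function.update_self] at ht ⊢
      rw [hV d]
      have := hsub ht
      rw [Set.mem_iInter₂] at this
      exact this z hz
    · intro h0 hc
      have hlt := par_lt r h0
      have hlt2 : par (par r) < r := (hpar _).trans_lt hlt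
      rw [Function.update_of_ne hlt.ne, Function.update_of_ne hlt2.ne] at hc
      rw [Function.update_self, ha1, if_neg h0, if_pos hc]
    · intro h0 hc
      have hlt := par_lt r h0
      have hlt2 : par (par r) < r := (hpar _).trans_lt hlt
      rw [Function.update_of_ne hlt.ne, Function.update_of_ne hlt2.ne] at hc
      rw [Function.update_self, Function.update_of_ne hlt.ne, ha1, if_neg h0, if_neg hc]
  obtain ⟨s, hsP⟩ := rec_exists P hloc hstep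
  refine ⟨fun j => (s j).1, fun j => (s j).2, ?_⟩
  exact
    { root := (hsP 0).1 rfl
      dpos := fun r => (hsP r).2.1
      dspec := fun r => (hsP r).2.2.1
      move := fun n h0 hc => (hsP n).2.2.2.1 h0 hc
      stay := fun n h0 hc => (hsP n).2.2.2.2 h0 hc }

theorem phi_gen_of {H : Type} [Group H] (v : ℕ → H) (n : ℕ) :
    phi v (FreeGroup.of n) = if n = 0 then 1 else (v (par n))⁻¹ * v n := by
  simp [phi]

theorem phi_gen_true (H : Type) [TopologicalSpace H] [Group H] (ν : H → ℝ)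
    (hν : IsGNorm ν) (q : ℕ → H) (Z : ℕ → Set F) (v : ℕ → H) (δ : ℕ → ℝ) (hS : HSpec ν q Z v δ)
    (n : ℕ) (g : F) (hg : g ∈ COf Z n) :
    ν ((phi v g)⁻¹ * phi v (FreeGroup.of n) * phi v g) ≤ ee n := by
  rw [phi_gen_of]
  by_cases hn : n = 0
  · rw [if_pos hn]
    have : (phi v g)⁻¹ * 1 * phi v g = 1 := by group
    rw [this, hν.one]
    unfold ee
    positivity
  · rw [if_neg hn]
    rw [COf, if_neg hn] at hg
    by_cases hr : par n = 0
    · have h1 : ee n = 1 := by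
        rw [ee, hr]
        simp [dep]
      rw [h1]
      exact hν.le_one _
    · rw [CcOf, if_neg hr] at hg
      have hee : ee n = (1 / 2 : ℝ) ^ (dep (par (par n)) + 1) := by
        rw [ee, dep_eq (par n) hr]
      rw [hee]
      by_cases hm : (par n = 0 ∨ (ν ((v (par n))⁻¹ * q (lab n)) < δ (par (par n)) ∧
          ν (q (lab n) * (v (par n))⁻¹) < δ (par (par n))))
      · have hv := hS.move n hn hm
        rcases hm with h | ⟨h1, h2⟩
        · exact absurd h hr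
        rw [← hv] at h1 h2
        rcases hg with hg | ⟨z, hz, rfl⟩
        · exact (hS.dspec (par (par n)) _ h1 g hg).1
        · have h3 := (hS.dspec (par (par n)) _ h2 z hz).2
          have h4 : phi v ((FreeGroup.of (par n))⁻¹ * z) =
              (v (par n))⁻¹ * v (par (par n)) * phi v z := by
            rw [map_mul, map_inv, phi_gen_of, if_neg hr]
            group
          rw [h4]
          have h5 : ((v (par n))⁻¹ * v (par (par n)) * phi v z)⁻¹ * ((v (par n))⁻¹ * v n) *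
              ((v (par n))⁻¹ * v (par (par n)) * phi v z) =
              (v (par (par n)) * phi v z)⁻¹ * (v n * (v (par n))⁻¹) *
                (v (par (par n)) * phi v z) := by group
          rw [h5]
          exact h3
      · have hv := hS.stay n hn hm
        rw [hv]
        have : (phi v g)⁻¹ * ((v (par n))⁻¹ * v (par n)) * phi v g = 1 := by group
        rw [this, hν.one]
        positivity

theorem phi_gen (H : Type) [TopologicalSpace H] [Group H] (ν : H → ℝ)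
    (hν : IsGNorm ν) (q : ℕ → H) (Z : ℕ → Set F) (v : ℕ → H) (δ : ℕ → ℝ) (hS : HSpec ν q Z v δ)
    (n : ℕ) (e : Bool) (g : F) (hg : g ∈ COf Z n) : ν (phi v (g⁻¹ * yy n e * g)) ≤ ee n := by
  have h := phi_gen_true H ν hν q Z v δ hS n g hg
  cases e with
  | true =>
    have h1 : yy n true = FreeGroup.of n := rfl
    rw [h1, map_mul, map_mul, map_inv]
    exact h
  | false =>
    have h1 : yy n false = (FreeGroup.of n)⁻¹ := by
      have := yy_inv n true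
      simp only [Bool.not_true] at this
      rw [← this]
      rfl
    rw [h1, map_mul, map_mul, map_inv, map_inv, ← hν.inv]
    have h2 : ((phi v g)⁻¹ * (phi v (FreeGroup.of n))⁻¹ * phi v g)⁻¹ =
        (phi v g)⁻¹ * phi v (FreeGroup.of n) * phi v g := by group
    rw [h2]
    exact h

theorem phi_bound (H : Type) [TopologicalSpace H] [Group H] (ν : H → ℝ)
    (hν : IsGNorm ν) (q : ℕ → H) (Nn : F → ℝ) (Z : ℕ → Set F) (hc : Comb Nn Z) (v : ℕ → H) (δ : ℕ → ℝ)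
    (hS : HSpec ν q Z v δ) (w : F) : ν (phi v w) ≤ Nn w := by
  refine hc.max (fun w => ν (phi v w)) ?_ ?_ ?_ w
  · show ν (phi v 1) = 0
    rw [map_one, hν.one]
  · intro a b
    show ν (phi v (a * b)) ≤ ν (phi v a) + ν (phi v b)
    rw [map_mul]
    exact hν.mul _ _
  · intro n e g hg
    exact phi_gen H ν hν q Z v δ hS n e g hg

theorem exists_branch_step (H : Type) [TopologicalSpace H] [Group H] [IsTopologicalGroup H] (ν : H → ℝ)
    (hν : IsGNorm ν) (q : ℕ → H) (hq : DenseRange q) (Z : ℕ → Set F) (v : ℕ → H) (δ : ℕ → ℝ)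
    (hS : HSpec ν q Z v δ) (h : H) (r : ℕ)
    (hr : r = 0 ∨ (ν ((v r)⁻¹ * h) < δ (par r) / 2 ∧ ν (h * (v r)⁻¹) < δ (par r) / 2)) (ε : ℝ)
    (hε : 0 < ε) : ∃ n : ℕ, n ≠ 0 ∧ par n = r ∧
      (n = 0 ∨ (ν ((v n)⁻¹ * h) < δ (par n) / 2 ∧ ν (h * (v n)⁻¹) < δ (par n) / 2)) ∧
      ν (h⁻¹ * v n) < ε := by
  obtain ⟨η, hη, hη1, hη2, hη3⟩ : ∃ η : ℝ, 0 < η ∧ η ≤ δ r / 2 ∧ η ≤ δ (par r) / 2 ∧ η ≤ ε := by
    refine ⟨min (δ r / 2) (min (δ (par r) / 2) ε), ?_, min_le_left _ _,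
      (min_le_right _ _).trans (min_le_left _ _), (min_le_right _ _).trans (min_le_right _ _)⟩
    have := hS.dpos r
    have := hS.dpos (par r)
    positivity
  have hb : {y : H | ν y < η} ∈ 𝓝 (1 : H) := (hν.nhds _).mpr ⟨η, hη, fun x hx => hx⟩
  have h1 : Tendsto (fun x : H => h⁻¹ * x) (𝓝 h) (𝓝 1) := by
    have : Continuous (fun x : H => h⁻¹ * x) := by fun_prop
    exact this.tendsto' h 1 (by simp)
  have h2 : Tendsto (fun x : H => x * h⁻¹) (𝓝 h) (𝓝 1) := by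
    have : Continuous (fun x : H => x * h⁻¹) := by fun_prop
    exact this.tendsto' h 1 (by simp)
  obtain ⟨m, hm1, hm2⟩ := hq.mem_nhds (Filter.inter_mem (h1 hb) (h2 hb))
  have hm1' : ν (h⁻¹ * q m) < η := hm1
  have hm2' : ν (q m * h⁻¹) < η := hm2
  obtain ⟨n, hn, hpar, hlab⟩ := exists_child r m
  have hv : v n = q m := by
    rw [← hlab]
    apply hS.move n hn
    rw [hpar, hlab]
    rcases hr with hr | ⟨hr1, hr2⟩
    · exact Or.inl hr
    · right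
      constructor
      · have h3 := hν.mul ((v r)⁻¹ * h) (h⁻¹ * q m)
        have h4 : (v r)⁻¹ * h * (h⁻¹ * q m) = (v r)⁻¹ * q m := by group
        rw [h4] at h3
        linarith
      · have h3 := hν.mul (q m * h⁻¹) (h * (v r)⁻¹)
        have h4 : q m * h⁻¹ * (h * (v r)⁻¹) = q m * (v r)⁻¹ := by group
        rw [h4] at h3
        linarith
  refine ⟨n, hn, hpar, Or.inr ⟨?_, ?_⟩, ?_⟩
  · rw [hv, hpar]
    have h3 : (q m)⁻¹ * h = (h⁻¹ * q m)⁻¹ := by group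
    rw [h3, hν.inv]
    linarith
  · rw [hv, hpar]
    have h3 : h * (q m)⁻¹ = (q m * h⁻¹)⁻¹ := by group
    rw [h3, hν.inv]
    linarith
  · rw [hv]; linarith

theorem exists_branch (H : Type) [TopologicalSpace H] [Group H] [IsTopologicalGroup H] (ν : H → ℝ)
    (hν : IsGNorm ν) (q : ℕ → H) (hq : DenseRange q) (Z : ℕ → Set F) (v : ℕ → H) (δ : ℕ → ℝ)
    (hS : HSpec ν q Z v δ) (h : H) : ∃ s : ℕ → ℕ, s 0 = 0 ∧ (∀ k, s (k + 1) ≠ 0 ∧ par (s (k + 1)) = s k) ∧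
      Tendsto (fun k => v (s k)) atTop (𝓝 h) := by
  have step := exists_branch_step H ν hν q hq Z v δ hS h
  choose! nx hnx using step
  let P : ℕ → Prop := fun r =>
    r = 0 ∨ (ν ((v r)⁻¹ * h) < δ (par r) / 2 ∧ ν (h * (v r)⁻¹) < δ (par r) / 2)
  let s : ℕ → ℕ := fun k => Nat.rec 0 (fun k r => nx r ((1 / 2 : ℝ) ^ (k + 1))) k
  have hs1 : ∀ k, s (k + 1) = nx (s k) ((1 / 2 : ℝ) ^ (k + 1)) := fun k => rfl
  have hP : ∀ k, P (s k) := by
    intro k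
    induction k with
    | zero => exact Or.inl rfl
    | succ k ih =>
      rw [hs1]
      exact (hnx (s k) ih ((1 / 2 : ℝ) ^ (k + 1)) (by positivity)).2.2.1
  have hfact : ∀ k, s (k + 1) ≠ 0 ∧ par (s (k + 1)) = s k ∧ ν (h⁻¹ * v (s (k + 1))) < (1 / 2 : ℝ) ^ (k + 1) := by
    intro k
    have h3 := hnx (s k) (hP k) ((1 / 2 : ℝ) ^ (k + 1)) (by positivity)
    rw [← hs1] at h3
    exact ⟨h3.1, h3.2.1, h3.2.2.2⟩
  refine ⟨s, rfl, fun k => ⟨(hfact k).1, (hfact k).2.1⟩, ?_⟩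
  rw [← tendsto_add_atTop_iff_nat 1]
  intro U hU
  have hc : Tendsto (fun x : H => h * x) (𝓝 1) (𝓝 h) := by
    have : Continuous (fun x : H => h * x) := by fun_prop
    exact this.tendsto' 1 h (by simp)
  obtain ⟨r, hr, hsub⟩ := (hν.nhds _).mp (hc hU)
  have hlim : Tendsto (fun k : ℕ => (1 / 2 : ℝ) ^ (k + 1)) atTop (𝓝 0) := by
    have := tendsto_pow_atTop_nhds_zero_of_lt_one (r := (1 / 2 : ℝ)) (by norm_num) (by norm_num)
    exact (tendsto_add_atTop_iff_nat 1).mpr this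
  have hev : ∀ᶠ k : ℕ in atTop, (1 / 2 : ℝ) ^ (k + 1) < r := hlim.eventually_lt_const hr
  rw [Filter.mem_map]
  filter_upwards [hev] with k hk
  have h4 : h⁻¹ * v (s (k + 1)) ∈ {x | ν x < r} := (hfact k).2.2.trans hk
  have h5 := hsub h4
  have h6 : h * (h⁻¹ * v (s (k + 1))) ∈ U := h5
  rwa [mul_inv_cancel_left] at h6

theorem branch_letter (Nn : F → ℝ) (Z : ℕ → Set F) (hc : Comb Nn Z) (s : ℕ → ℕ) (h0 : s 0 = 0)
    (hs : ∀ k, s (k + 1) ≠ 0 ∧ par (s (k + 1)) = s k) (g : F) :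
    ∃ k0, ∀ k ≥ k0, Nn (g⁻¹ * FreeGroup.of (s (k + 1)) * g) ≤ (1 / 2 : ℝ) ^ k ∧
      Nn (g⁻¹ * (xx (s k) * FreeGroup.of (s (k + 1)) * (xx (s k))⁻¹) * g) ≤ (1 / 2 : ℝ) ^ k := by
  obtain ⟨r0, hr0⟩ := hc.ex g
  have hsk : ∀ k, k ≤ s k := by
    intro k
    induction k with
    | zero => exact Nat.zero_le _
    | succ k ih =>
      have h1 := par_lt (s (k + 1)) (hs k).1
      rw [(hs k).2] at h1
      omega
  have hdep : ∀ k, dep (s k) = k := by
    intro k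
    induction k with
    | zero => rw [h0, dep]
    | succ k ih => rw [dep_eq _ (hs k).1, (hs k).2, ih]
  have hyy : ∀ n, yy n true = FreeGroup.of n := fun n => rfl
  refine ⟨r0 + 1, fun k hk => ?_⟩
  obtain ⟨j, rfl⟩ : ∃ j, k = j + 1 := ⟨k - 1, by omega⟩
  have hj : r0 ≤ s j := le_trans (by omega) (hsk j)
  obtain ⟨hg1, hg2⟩ := hr0 (s j) hj
  have hee : ee (s (j + 1 + 1)) = (1 / 2 : ℝ) ^ (j + 1) := by
    unfold ee
    rw [(hs (j + 1)).2, hdep]
  have hC : COf Z (s (j + 1 + 1)) =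
      Z (s j) ∪ {w | ∃ z ∈ Z (s j), w = (FreeGroup.of (s (j + 1)))⁻¹ * z} := by
    unfold COf
    rw [if_neg (hs (j + 1)).1, (hs (j + 1)).2]
    unfold CcOf
    rw [if_neg (hs j).1, (hs j).2]
  constructor
  · have h1 := hc.gen (s (j + 1 + 1)) true g (by rw [hC]; exact Or.inl hg1)
    rw [hyy, hee] at h1
    exact h1
  · have h1 := hc.gen (s (j + 1 + 1)) true ((FreeGroup.of (s (j + 1)))⁻¹ * ((xx (s j))⁻¹ * g))
      (by rw [hC]; exact Or.inr ⟨_, hg2, rfl⟩)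
    rw [hyy, hee] at h1
    have h2 : xx (s (j + 1)) = xx (s j) * FreeGroup.of (s (j + 1)) := by
      rw [xx_eq _ (hs j).1, (hs j).2]
    have h3 : ((FreeGroup.of (s (j + 1)))⁻¹ * ((xx (s j))⁻¹ * g))⁻¹ *
        FreeGroup.of (s (j + 1 + 1)) * ((FreeGroup.of (s (j + 1)))⁻¹ * ((xx (s j))⁻¹ * g)) =
        g⁻¹ * (xx (s (j + 1)) * FreeGroup.of (s (j + 1 + 1)) * (xx (s (j + 1)))⁻¹) * g := by
      rw [h2]
      group
    rw [h3] at h1
    exact h1

theorem branch_cauchy1_nonneg (Nn : F → ℝ) (Z : ℕ → Set F) (hc : Comb Nn Z) (w : F) :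
    0 ≤ Nn w := by
  have h := hc.mul w w⁻¹
  rw [mul_inv_cancel, hc.one, hc.inv] at h
  linarith

theorem branch_cauchy1_le (Nn : F → ℝ) (Z : ℕ → Set F) (hc : Comb Nn Z) (s : ℕ → ℕ)
    (hs : ∀ k, s (k + 1) ≠ 0 ∧ par (s (k + 1)) = s k) (g : F) (k0 : ℕ)
    (hk : ∀ k ≥ k0, Nn (g⁻¹ * FreeGroup.of (s (k + 1)) * g) ≤ (1 / 2 : ℝ) ^ k) (i j : ℕ)
    (hi : k0 ≤ i) (hij : i ≤ j) :
    Nn (g⁻¹ * ((xx (s i))⁻¹ * xx (s j)) * g) ≤ 2 * (1 / 2 : ℝ) ^ i - 2 * (1 / 2 : ℝ) ^ j := by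
  induction j, hij using Nat.le_induction with
  | base =>
    rw [inv_mul_cancel, mul_one, inv_mul_cancel, hc.one, sub_self]
  | succ j hij ih =>
    have h1 : xx (s (j + 1)) = xx (s j) * FreeGroup.of (s (j + 1)) := by
      rw [xx_eq _ (hs j).1, (hs j).2]
    have h2 : g⁻¹ * ((xx (s i))⁻¹ * xx (s (j + 1))) * g =
        (g⁻¹ * ((xx (s i))⁻¹ * xx (s j)) * g) * (g⁻¹ * FreeGroup.of (s (j + 1)) * g) := by
      rw [h1]
      group
    rw [h2]
    have h3 := hc.mul (g⁻¹ * ((xx (s i))⁻¹ * xx (s j)) * g) (g⁻¹ * FreeGroup.of (s (j + 1)) * g)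
    have h4 := hk j (by omega)
    have h5 : (1 / 2 : ℝ) ^ (j + 1) = (1 / 2 : ℝ) ^ j * (1 / 2) := pow_succ _ _
    rw [h5]
    linarith

theorem branch_cauchy1 (Nn : F → ℝ) (Z : ℕ → Set F) (hc : Comb Nn Z) (s : ℕ → ℕ) (h0 : s 0 = 0)
    (hs : ∀ k, s (k + 1) ≠ 0 ∧ par (s (k + 1)) = s k) (g : F) :
    Tendsto (fun p : ℕ × ℕ => Nn (g⁻¹ * ((xx (s p.1))⁻¹ * xx (s p.2)) * g)) (atTop ×ˢ atTop) (𝓝 0) := by
  obtain ⟨k0, hk0⟩ := branch_letter Nn Z hc s h0 hs g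
  have hle := branch_cauchy1_le Nn Z hc s hs g k0 (fun k hk => (hk0 k hk).1)
  have hsym : ∀ i j, Nn (g⁻¹ * ((xx (s i))⁻¹ * xx (s j)) * g) =
      Nn (g⁻¹ * ((xx (s j))⁻¹ * xx (s i)) * g) := by
    intro i j
    rw [← hc.inv]
    congr 1
    group
  rw [Metric.tendsto_nhds]
  intro ε hε
  obtain ⟨M, hM⟩ := exists_pow_lt_of_lt_one (half_pos hε) (by norm_num : (1 / 2 : ℝ) < 1)
  filter_upwards [(eventually_ge_atTop (max k0 M)).prod_mk (eventually_ge_atTop (max k0 M))]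
    with p hp
  obtain ⟨hp1, hp2⟩ := hp
  rw [Real.dist_eq, sub_zero, abs_of_nonneg (branch_cauchy1_nonneg Nn Z hc _)]
  have hpow : ∀ i, max k0 M ≤ i → 2 * (1 / 2 : ℝ) ^ i < ε := by
    intro i hi
    have h1 : (1 / 2 : ℝ) ^ i ≤ (1 / 2 : ℝ) ^ M :=
      pow_le_pow_of_le_one (by norm_num) (by norm_num) ((le_max_right _ _).trans hi)
    linarith
  have hpos : ∀ i : ℕ, 0 < (1 / 2 : ℝ) ^ i := fun i => by positivity
  rcases le_total p.1 p.2 with h | h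
  · have h1 := hle p.1 p.2 ((le_max_left _ _).trans hp1) h
    have h2 := hpow p.1 hp1
    have h3 := hpos p.2
    linarith
  · rw [hsym]
    have h1 := hle p.2 p.1 ((le_max_left _ _).trans hp2) h
    have h2 := hpow p.2 hp2
    have h3 := hpos p.1
    linarith

theorem branch_cauchy2_nonneg (Nn : F → ℝ) (Z : ℕ → Set F) (hc : Comb Nn Z) (w : F) : 0 ≤ Nn w := by
  have h := hc.mul w w⁻¹
  rw [mul_inv_cancel, hc.one, hc.inv] at h
  linarith

theorem branch_cauchy2_sum (Nn : F → ℝ) (Z : ℕ → Set F) (hc : Comb Nn Z) (s : ℕ → ℕ)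
    (hs : ∀ k, s (k + 1) ≠ 0 ∧ par (s (k + 1)) = s k) (g : F) (k0 : ℕ)
    (hk0 : ∀ k ≥ k0, Nn (g⁻¹ * (xx (s k) * FreeGroup.of (s (k + 1)) * (xx (s k))⁻¹) * g) ≤
      (1 / 2 : ℝ) ^ k) (i : ℕ) (hi : k0 ≤ i) (m : ℕ) :
    Nn (g⁻¹ * (xx (s (i + m)) * (xx (s i))⁻¹) * g) ≤ 2 * (1 / 2 : ℝ) ^ i - 2 * (1 / 2 : ℝ) ^ (i + m) := by
  induction m with
  | zero =>
    rw [add_zero, mul_inv_cancel, mul_one, inv_mul_cancel, hc.one, sub_self]
  | succ m ih =>
    have e1 : xx (s (i + (m + 1))) = xx (s (i + m)) * FreeGroup.of (s (i + m + 1)) := by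
      have h1 := xx_eq (s (i + m + 1)) (hs (i + m)).1
      rw [(hs (i + m)).2] at h1
      exact h1
    have e2 : g⁻¹ * (xx (s (i + (m + 1))) * (xx (s i))⁻¹) * g =
        (g⁻¹ * (xx (s (i + m)) * FreeGroup.of (s (i + m + 1)) * (xx (s (i + m)))⁻¹) * g) *
          (g⁻¹ * (xx (s (i + m)) * (xx (s i))⁻¹) * g) := by
      rw [e1]
      group
    rw [e2]
    have h1 := hc.mul (g⁻¹ * (xx (s (i + m)) * FreeGroup.of (s (i + m + 1)) *
      (xx (s (i + m)))⁻¹) * g) (g⁻¹ * (xx (s (i + m)) * (xx (s i))⁻¹) * g)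
    have h2 := hk0 (i + m) (by omega)
    have h3 : (1 / 2 : ℝ) ^ (i + (m + 1)) = (1 / 2 : ℝ) ^ (i + m) / 2 := by
      rw [← add_assoc, pow_succ]
      ring
    rw [h3]
    linarith

theorem branch_cauchy2_both (Nn : F → ℝ) (Z : ℕ → Set F) (hc : Comb Nn Z) (s : ℕ → ℕ)
    (hs : ∀ k, s (k + 1) ≠ 0 ∧ par (s (k + 1)) = s k) (g : F) (k0 : ℕ)
    (hk0 : ∀ k ≥ k0, Nn (g⁻¹ * (xx (s k) * FreeGroup.of (s (k + 1)) * (xx (s k))⁻¹) * g) ≤
      (1 / 2 : ℝ) ^ k) (K i j : ℕ) (hK : k0 ≤ K) (hi : K ≤ i) (hj : K ≤ j) :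
    Nn (g⁻¹ * (xx (s i) * (xx (s j))⁻¹) * g) ≤ 2 * (1 / 2 : ℝ) ^ K := by
  have hp : ∀ n : ℕ, (0 : ℝ) ≤ (1 / 2 : ℝ) ^ n := fun n => by positivity
  rcases le_total i j with h | h
  · obtain ⟨m, rfl⟩ := Nat.exists_eq_add_of_le h
    have h1 := branch_cauchy2_sum Nn Z hc s hs g k0 hk0 i (hK.trans hi) m
    have h2 : Nn (g⁻¹ * (xx (s i) * (xx (s (i + m)))⁻¹) * g) =
        Nn (g⁻¹ * (xx (s (i + m)) * (xx (s i))⁻¹) * g) := by
      rw [← hc.inv]
      congr 1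
      group
    rw [h2]
    have h3 : (1 / 2 : ℝ) ^ i ≤ (1 / 2 : ℝ) ^ K :=
      pow_le_pow_of_le_one (by norm_num) (by norm_num) hi
    linarith [hp (i + m)]
  · obtain ⟨m, rfl⟩ := Nat.exists_eq_add_of_le h
    have h1 := branch_cauchy2_sum Nn Z hc s hs g k0 hk0 j (hK.trans hj) m
    have h3 : (1 / 2 : ℝ) ^ j ≤ (1 / 2 : ℝ) ^ K :=
      pow_le_pow_of_le_one (by norm_num) (by norm_num) hj
    linarith [hp (j + m)]


theorem branch_cauchy2 (Nn : F → ℝ) (Z : ℕ → Set F) (hc : Comb Nn Z) (s : ℕ → ℕ) (h0 : s 0 = 0)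
    (hs : ∀ k, s (k + 1) ≠ 0 ∧ par (s (k + 1)) = s k) (g : F) :
    Tendsto (fun p : ℕ × ℕ => Nn (g⁻¹ * (xx (s p.1) * (xx (s p.2))⁻¹) * g)) (atTop ×ˢ atTop) (𝓝 0) := by
  obtain ⟨k0, hk0⟩ := branch_letter Nn Z hc s h0 hs g
  rw [prod_atTop_atTop_eq, Metric.tendsto_atTop]
  intro ε hε
  obtain ⟨M, hM⟩ := exists_pow_lt_of_lt_one (show (0 : ℝ) < ε / 2 by positivity)
    (show (1 / 2 : ℝ) < 1 by norm_num)
  refine ⟨(max k0 M, max k0 M), fun p hp => ?_⟩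
  rw [Real.dist_eq, sub_zero, abs_of_nonneg (branch_cauchy2_nonneg Nn Z hc _)]
  have h1 := branch_cauchy2_both Nn Z hc s hs g k0 (fun k hk => (hk0 k hk).2) (max k0 M) p.1 p.2
    (le_max_left _ _) hp.1 hp.2
  have h2 : (1 / 2 : ℝ) ^ (max k0 M) ≤ (1 / 2 : ℝ) ^ M :=
    pow_le_pow_of_le_one (by norm_num) (by norm_num) (le_max_right _ _)
  linarith

theorem hside (H : Type) [TopologicalSpace H] [Group H] [IsTopologicalGroup H] [PolishSpace H]
    (Nn : F → ℝ) (Z : ℕ → Set F) (hc : Comb Nn Z) :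
    ∃ φ : F →* H, Tendsto φ (comap Nn (𝓝 0)) (𝓝 1) ∧ ∀ h : H, ∃ s : ℕ → F,
      Tendsto (fun k => φ (s k)) atTop (𝓝 h) ∧
      (∀ g, Tendsto (fun p : ℕ × ℕ => Nn (g⁻¹ * ((s p.1)⁻¹ * s p.2) * g)) (atTop ×ˢ atTop) (𝓝 0)) ∧
      (∀ g, Tendsto (fun p : ℕ × ℕ => Nn (g⁻¹ * (s p.1 * (s p.2)⁻¹) * g)) (atTop ×ˢ atTop) (𝓝 0)) := by
  obtain ⟨ν, hν⟩ := group_norm H
  have hne : Nonempty H := ⟨1⟩
  obtain ⟨v, δ, hS⟩ := exists_HSpec H ν hν (TopologicalSpace.denseSeq H) Z hc.fin hc.sub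
  refine ⟨phi v, ?_, fun h => ?_⟩
  · intro s hs
    obtain ⟨r, hr, hrs⟩ := (hν.nhds s).1 hs
    rw [mem_map, mem_comap]
    refine ⟨Set.Iio r, Iio_mem_nhds hr, fun w hw => ?_⟩
    have h1 : Nn w < r := hw
    exact hrs (lt_of_le_of_lt (phi_bound H ν hν _ Nn Z hc v δ hS w) h1)
  · obtain ⟨s, h0, hs, hlim⟩ := exists_branch H ν hν _ (TopologicalSpace.denseRange_denseSeq H) Z v δ
      hS h
    refine ⟨fun k => xx (s k), ?_, fun g => branch_cauchy1 Nn Z hc s h0 hs g,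
      fun g => branch_cauchy2 Nn Z hc s h0 hs g⟩
    have h1 : (fun k => phi v (xx (s k))) = fun k => v (s k) := by
      funext k
      exact phi_xx v hS.root (s k)
    rw [h1]
    exact hlim

theorem thmA_exp {ι : Type} {l : Filter ι} {f : ι → ℝ} (h : Tendsto f l (𝓝 0)) :
    Tendsto (fun i => Real.exp (-(f i))) l (𝓝 1) := by
  have h1 := (Real.continuous_exp.tendsto (-0)).comp h.neg
  rw [neg_zero, Real.exp_zero] at h1
  exact h1

theorem thmA_log {ι : Type} {l : Filter ι} {f : ι → ℝ}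
    (h : Tendsto (fun i => Real.exp (-(f i))) l (𝓝 1)) : Tendsto f l (𝓝 0) := by
  have h1 := (Real.continuousAt_log (one_ne_zero)).tendsto.comp h
  rw [Real.log_one] at h1
  have h2 := h1.neg
  rw [neg_zero] at h2
  refine h2.congr fun i => ?_
  change -Real.log (Real.exp (-(f i))) = f i
  rw [Real.log_exp, neg_neg]

theorem thmA (H : Type) [TopologicalSpace H] [Group H] [IsTopologicalGroup H] [PolishSpace H] :
    ∃ (G : Subgroup UU) (p : G →* H), IsClosed (G : Set UU) ∧ Continuous p ∧ Function.Surjective p := by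
  obtain ⟨Nn, Z, hc⟩ := exists_comb
  obtain ⟨φ, hφ, hs⟩ := hside H Nn Z hc
  haveI := uu_topgroup
  haveI := uu_polish
  obtain ⟨π, hπ⟩ := gns F (fun w => Real.exp (-(Nn w))) (by rw [hc.one, neg_zero, Real.exp_zero])
    (fun w => by rw [hc.inv]) hc.psd
  refine closed_image UU H F π φ ?_ ?_
  · have h1 := (hπ F (comap π (𝓝 1)) id).mp tendsto_comap 1
    have h2 : Tendsto Nn (comap π (𝓝 1)) (𝓝 0) := by
      apply thmA_log
      simpa using h1
    exact hφ.mono_left (tendsto_iff_comap.mp h2)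
  · intro h
    obtain ⟨s, s1, s2, s3⟩ := hs h
    refine ⟨s, s1, ?_, ?_⟩
    · exact (hπ (ℕ × ℕ) (atTop ×ˢ atTop) (fun p => (s p.1)⁻¹ * s p.2)).mpr fun g =>
        thmA_exp (s2 g)
    · exact (hπ (ℕ × ℕ) (atTop ×ˢ atTop) (fun p => s p.1 * (s p.2)⁻¹)).mpr fun g =>
        thmA_exp (s3 g)

theorem final :
  ∃ (X : Type) (_ : TopologicalSpace X) (_ : PolishSpace X) (_ : MeasurableSpace X) (_ : BorelSpace X)
    (a : (lp (fun _ : ℕ => ℂ) 2 ≃ₗᵢ[ℂ] lp (fun _ : ℕ => ℂ) 2) → X → X),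
    (∀ x, a (LinearIsometryEquiv.refl ℂ (lp (fun _ : ℕ => ℂ) 2)) x = x) ∧
    (∀ (U V : lp (fun _ : ℕ => ℂ) 2 ≃ₗᵢ[ℂ] lp (fun _ : ℕ => ℂ) 2) (x : X),
      a (U.trans V) x = a V (a U x)) ∧
    @Continuous ((lp (fun _ : ℕ => ℂ) 2 ≃ₗᵢ[ℂ] lp (fun _ : ℕ => ℂ) 2) × X) X
      (@instTopologicalSpaceProd (lp (fun _ : ℕ => ℂ) 2 ≃ₗᵢ[ℂ] lp (fun _ : ℕ => ℂ) 2) X
        (TopologicalSpace.induced
          (fun U : (lp (fun _ : ℕ => ℂ) 2 ≃ₗᵢ[ℂ] lp (fun _ : ℕ => ℂ) 2) =>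
            (⇑U : lp (fun _ : ℕ => ℂ) 2 → lp (fun _ : ℕ => ℂ) 2))
          inferInstance) _) _
      (fun p : (lp (fun _ : ℕ => ℂ) 2 ≃ₗᵢ[ℂ] lp (fun _ : ℕ => ℂ) 2) × X => a p.1 p.2) ∧
    ∀ (G : Type) [TopologicalSpace G] [Group G] [IsTopologicalGroup G] [PolishSpace G]
      (Y : Type) [TopologicalSpace Y] [PolishSpace Y] [MeasurableSpace Y] [BorelSpace Y]
      [MulAction G Y] [ContinuousSMul G Y],
      ∃ f : Y → X, Measurable f ∧
        ∀ y y' : Y, (∃ g : G, g • y = y') ↔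
          ∃ U : lp (fun _ : ℕ => ℂ) 2 ≃ₗᵢ[ℂ] lp (fun _ : ℕ => ℂ) 2, a U (f y) = f y' := by
  haveI := uu_topgroup
  haveI := uu_polish
  obtain ⟨ν, hν⟩ := group_norm UU
  haveI : PolishSpace (KK ν) := kk_polish UU ν hν
  refine ⟨ℕ → KK ν, inferInstance, inferInstance, borel _, @BorelSpace.mk _ _ (borel _) rfl, fun U x n => tr ν U (x n), ?_, ?_, ?_, ?_⟩
  · intro x
    funext n
    apply Subtype.ext
    funext h
    show (x n).1 (_ * h) = (x n).1 h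
    congr 1
  · intro U V x
    funext n
    apply Subtype.ext
    funext h
    show (x n).1 ((U.trans V)⁻¹ * h) = (x n).1 (U⁻¹ * (V⁻¹ * h))
    congr 1
  · exact act_cont UU ν hν
  · intro H _ _ _ _ Y _ _ _ _ _ _
    obtain ⟨G, p, hG, hp, hps⟩ := thmA H
    exact reduction UU ν hν H G p hG hp hps Y

end Pool.Agent.Helper289.UO
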