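import Mathlib
import Pool.Agent.Helper289.UO.Main

set_option autoImplicit false
set_option linter.all false

namespace Pool.Agent.Helper289.UO

open Filter Topology

/-- category support of a set -/
def supp {G : Type} [TopologicalSpace G] (A : Set G) : Set G :=
  {x | ∀ W : Set G, IsOpen W → x ∈ W → ¬ IsMeagre (A ∩ W)}

theorem nu_cont {U : Type} [TopologicalSpace U] [Group U] [IsTopologicalGroup U] (ν : U → ℝ)
    (hν : IsGNorm ν) : Continuous ν := by
  rw [continuous_iff_continuousAt]
  intro x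
  rw [Metric.continuousAt_iff']
  intro r hr
  have h1 : {h : U | ν h < r} ∈ 𝓝 (1 : U) := (hν.nhds _).2 ⟨r, hr, subset_rfl⟩
  have h2 : Tendsto (fun y : U => x⁻¹ * y) (𝓝 x) (𝓝 1) := by
    have : Continuous (fun y : U => x⁻¹ * y) := by fun_prop
    have h3 := this.tendsto x
    rwa [inv_mul_cancel] at h3
  filter_upwards [h2 h1] with y hy
  have hy' : ν (x⁻¹ * y) < r := hy
  rw [Real.dist_eq, abs_lt]
  have h4 := hν.mul x (x⁻¹ * y)
  rw [mul_inv_cancel_left] at h4
  have h5 := hν.mul y (y⁻¹ * x)
  rw [mul_inv_cancel_left] at h5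
  have h6 : ν (y⁻¹ * x) = ν (x⁻¹ * y) := by
    rw [← hν.inv (y⁻¹ * x), mul_inv_rev, inv_inv]
  rw [h6] at h5
  constructor <;> linarith

theorem supp_closed {G : Type} [TopologicalSpace G] (A : Set G) : IsClosed (supp A) := by
  rw [← isOpen_compl_iff, isOpen_iff_forall_mem_open]
  intro x hx
  have h1 : ¬ ∀ W : Set G, IsOpen W → x ∈ W → ¬ IsMeagre (A ∩ W) := hx
  push Not at h1
  obtain ⟨W, hW, hxW, hm⟩ := h1
  refine ⟨W, fun y hy hys => ?_, hW, hxW⟩
  exact hys W hW hy hm

theorem supp_meets {G : Type} [TopologicalSpace G] [SecondCountableTopology G] (A W : Set G)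
    (hW : IsOpen W) : (supp A ∩ W).Nonempty ↔ ¬ IsMeagre (A ∩ W) := by
  constructor
  · rintro ⟨x, hx, hxW⟩
    exact hx W hW hxW
  · intro hm
    by_contra hne
    apply hm
    have hsub : A ∩ W ⊆ ⋃ b ∈ {b ∈ TopologicalSpace.countableBasis G | IsMeagre (A ∩ b)},
        A ∩ b := by
      rintro x ⟨hxA, hxW⟩
      have hx : x ∉ supp A := fun h => hne ⟨x, h, hxW⟩
      have hx' : ∃ V : Set G, IsOpen V ∧ x ∈ V ∧ IsMeagre (A ∩ V) := by
        by_contra hcon
        apply hx
        intro V hV hxV hmV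
        exact hcon ⟨V, hV, hxV, hmV⟩
      obtain ⟨V, hV, hxV, hmV⟩ := hx'
      obtain ⟨b, hb, hxb, hbV⟩ :=
        (TopologicalSpace.isBasis_countableBasis G).exists_subset_of_mem_open hxV hV
      refine Set.mem_biUnion (x := b) ⟨hb, IsMeagre.mono ?_ hmV⟩ ⟨hxA, hxb⟩
      exact Set.inter_subset_inter_right A hbV
    refine IsMeagre.mono hsub ?_
    have hc : {b ∈ TopologicalSpace.countableBasis G | IsMeagre (A ∩ b)}.Countable :=
      (TopologicalSpace.countable_countableBasis G).mono (fun b hb => hb.1)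
    rw [Set.biUnion_eq_iUnion]
    haveI := hc.to_subtype
    exact isMeagre_iUnion (fun b => b.2.2)

theorem supp_eq {G : Type} [TopologicalSpace G] [SecondCountableTopology G] (A : Set G)
    (hA : BaireMeasurableSet A) : IsMeagre ((supp A \ A) ∪ (A \ supp A)) := by
  obtain ⟨O, hO, hAO⟩ := hA.residualEq_isOpen
  have hmem : {x | x ∈ A ↔ x ∈ O} ∈ residual G := by
    filter_upwards [hAO] with x hx
    exact Iff.of_eq hx
  have h1 : IsMeagre (A \ O) := by
    refine Filter.mem_of_superset hmem ?_
    intro x hx hx2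
    exact hx2.2 ((show x ∈ A ↔ x ∈ O from hx).1 hx2.1)
  have h2 : IsMeagre (O \ A) := by
    refine Filter.mem_of_superset hmem ?_
    intro x hx hx2
    exact hx2.2 ((show x ∈ A ↔ x ∈ O from hx).2 hx2.1)
  have h3 : IsMeagre (A \ supp A) := by
    have hW : IsOpen (supp A)ᶜ := (supp_closed A).isOpen_compl
    have h4 := (supp_meets A (supp A)ᶜ hW).not
    rw [not_not] at h4
    rw [Set.sdiff_eq]
    apply h4.1
    rw [Set.inter_compl_self]
    exact Set.not_nonempty_empty
  have h5 : supp A ⊆ closure O := by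
    intro x hx
    by_contra hx2
    refine hx (closure O)ᶜ isClosed_closure.isOpen_compl hx2 ?_
    refine h1.mono ?_
    rintro y ⟨hy1, hy2⟩
    exact ⟨hy1, fun h => hy2 (subset_closure h)⟩
  have h6 : IsMeagre (closure O \ O) := by
    apply IsNowhereDense.isMeagre
    have h7 : closure O \ O = frontier O := by rw [hO.frontier_eq]
    rw [h7]
    unfold IsNowhereDense
    rw [isClosed_frontier.closure_eq]
    rw [← frontier_compl]
    exact interior_frontier hO.isClosed_compl
  refine IsMeagre.union ?_ h3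
  refine (h6.union h2).mono ?_
  rintro x ⟨hx1, hx2⟩
  by_cases hxO : x ∈ O
  · exact Or.inr ⟨hxO, hx2⟩
  · exact Or.inl ⟨h5 hx1, hxO⟩

theorem supp_translate {G : Type} [TopologicalSpace G] [Group G] [IsTopologicalGroup G] (A : Set G)
    (u : G) : supp {x | u⁻¹ * x ∈ A} = {x | u⁻¹ * x ∈ supp A} := by
  ext x
  simp only [supp, Set.mem_setOf_eq]
  constructor
  · intro h W hW hxW hm
    have hc : Continuous fun z : G => u⁻¹ * z := continuous_const_mul u⁻¹
    refine h {z | u⁻¹ * z ∈ W} (hW.preimage hc) hxW ?_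
    exact IsMeagre.preimage_of_isOpenMap hc (isOpenMap_mul_left u⁻¹) hm
  · intro h W hW hxW hm
    have hc : Continuous fun z : G => u * z := continuous_const_mul u
    refine h {z | u * z ∈ W} (hW.preimage hc) (by simpa using hxW) ?_
    have h2 := IsMeagre.preimage_of_isOpenMap hc (isOpenMap_mul_left u) hm
    refine h2.mono ?_
    rintro z ⟨hz1, hz2⟩
    exact ⟨by simpa using hz1, hz2⟩

theorem cat_meas_diff {G : Type} [TopologicalSpace G] {B O : Set G}
    (h : B =ᶠ[residual G] O) : IsMeagre {x | ¬ (x ∈ B ↔ x ∈ O)} := by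
  unfold IsMeagre
  filter_upwards [h.mem_iff] with x hx
  intro hx'
  exact hx' hx

theorem cat_meas_compl {G : Type} [TopologicalSpace G] [SecondCountableTopology G] [BaireSpace G]
    (B W : Set G) (hB : BaireMeasurableSet B) (hW : IsOpen W) :
    ¬ IsMeagre (Bᶜ ∩ W) ↔ ∃ V ∈ TopologicalSpace.countableBasis G, V ⊆ W ∧
      ¬ ¬ IsMeagre (B ∩ V) := by
  constructor
  · intro h
    obtain ⟨O, hO, hBO⟩ := hB.compl.residualEq_isOpen
    have hm := cat_meas_diff hBO
    have hne : (O ∩ W).Nonempty := by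
      by_contra hne
      rw [Set.not_nonempty_iff_eq_empty] at hne
      apply h
      refine hm.mono ?_
      rintro x ⟨hx1, hx2⟩
      intro hiff
      have : x ∈ O ∩ W := ⟨hiff.1 hx1, hx2⟩
      rw [hne] at this
      exact this
    obtain ⟨x, hxO, hxW⟩ := hne
    obtain ⟨V, hV, hxV, hVs⟩ := (TopologicalSpace.isBasis_countableBasis G).exists_subset_of_mem_open
      (show x ∈ O ∩ W from ⟨hxO, hxW⟩) (hO.inter hW)
    refine ⟨V, hV, fun y hy => (hVs hy).2, ?_⟩
    rw [not_not]
    refine hm.mono ?_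
    rintro y ⟨hyB, hyV⟩
    intro hiff
    exact (hiff.2 (hVs hyV).1) hyB
  · rintro ⟨V, hV, hVW, hm⟩ hm'
    rw [not_not] at hm
    have hVo := TopologicalSpace.isOpen_of_mem_countableBasis hV
    have hVne := TopologicalSpace.nonempty_of_mem_countableBasis hV
    refine not_isMeagre_of_isOpen hVo hVne ((hm.union hm').mono ?_)
    intro x hx
    by_cases hxB : x ∈ B
    · exact Or.inl ⟨hxB, hx⟩
    · exact Or.inr ⟨hxB, hVW hx⟩

theorem cat_meas {G Y : Type} [TopologicalSpace G] [SecondCountableTopology G] [BaireSpace G]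
    [MeasurableSpace G] [BorelSpace G] [MeasurableSpace Y] (B : Set (G × Y)) (hB : MeasurableSet B)
    (W : Set G) (hW : IsOpen W) : MeasurableSet {y : Y | ¬ IsMeagre ({x : G | (x, y) ∈ B} ∩ W)} := by
  have hgen : (Prod.instMeasurableSpace : MeasurableSpace (G × Y)) =
      MeasurableSpace.generateFrom (Set.image2 (fun x1 x2 => x1 ×ˢ x2) {s : Set G | IsOpen s}
        {s : Set Y | MeasurableSet s}) := by
    refine (generateFrom_eq_prod ?_ MeasurableSpace.generateFrom_measurableSet ?_
      isCountablySpanning_measurableSet).symm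
    · exact (BorelSpace.measurable_eq (α := G)).symm
    · exact ⟨fun _ => Set.univ, fun _ => isOpen_univ, Set.iUnion_const _⟩
  have hpi : IsPiSystem (Set.image2 (fun x1 x2 => x1 ×ˢ x2) {s : Set G | IsOpen s}
        {s : Set Y | MeasurableSet s}) :=
    isPiSystem_isOpen.prod MeasurableSpace.isPiSystem_measurableSet
  revert W
  refine MeasurableSpace.induction_on_inter (C := fun B _ => ∀ W : Set G, IsOpen W →
    MeasurableSet {y : Y | ¬ IsMeagre ({x : G | (x, y) ∈ B} ∩ W)}) hgen hpi ?_ ?_ ?_ ?_ B hB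
  · intro W _
    have : {y : Y | ¬ IsMeagre ({x : G | (x, y) ∈ (∅ : Set (G × Y))} ∩ W)} = ∅ := by
      ext y
      simp [IsMeagre.empty]
    rw [this]
    exact MeasurableSet.empty
  · rintro t ⟨U, hU, A, hA, rfl⟩ W hW
    by_cases hne : (U ∩ W).Nonempty
    · have : {y : Y | ¬ IsMeagre ({x : G | (x, y) ∈ U ×ˢ A} ∩ W)} = A := by
        ext y
        constructor
        · intro hy
          by_contra hyA
          apply hy
          have : ({x : G | (x, y) ∈ U ×ˢ A} ∩ W) = ∅ := by
            ext x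
            simp [hyA]
          rw [this]
          exact IsMeagre.empty
        · intro hyA hm
          refine not_isMeagre_of_isOpen (hU.inter hW) hne (hm.mono ?_)
          rintro x ⟨hxU, hxW⟩
          exact ⟨⟨hxU, hyA⟩, hxW⟩
      show MeasurableSet {y : Y | ¬ IsMeagre ({x : G | (x, y) ∈ U ×ˢ A} ∩ W)}
      rw [this]
      exact hA
    · have : {y : Y | ¬ IsMeagre ({x : G | (x, y) ∈ U ×ˢ A} ∩ W)} = ∅ := by
        ext y
        simp only [Set.mem_setOf_eq, Set.mem_empty_iff_false, iff_false, not_not]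
        refine IsMeagre.empty.mono ?_
        rintro x ⟨⟨hxU, _⟩, hxW⟩
        exact hne ⟨x, hxU, hxW⟩
      show MeasurableSet {y : Y | ¬ IsMeagre ({x : G | (x, y) ∈ U ×ˢ A} ∩ W)}
      rw [this]
      exact MeasurableSet.empty
  · intro t htm ih W hW
    have hB : ∀ y, BaireMeasurableSet {x : G | (x, y) ∈ t} := fun y =>
      (measurable_prodMk_right (y := y) htm).baireMeasurableSet
    have : {y : Y | ¬ IsMeagre ({x : G | (x, y) ∈ tᶜ} ∩ W)} =
        ⋃ V ∈ TopologicalSpace.countableBasis G, {y : Y | V ⊆ W ∧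
          ¬ ¬ IsMeagre ({x : G | (x, y) ∈ t} ∩ V)} := by
      ext y
      rw [Set.mem_iUnion₂]
      have := cat_meas_compl {x : G | (x, y) ∈ t} W (hB y) hW
      constructor
      · intro hy
        obtain ⟨V, hV, h1, h2⟩ := this.1 hy
        exact ⟨V, hV, h1, h2⟩
      · rintro ⟨V, hV, h1, h2⟩
        exact this.2 ⟨V, hV, h1, h2⟩
    rw [this]
    refine MeasurableSet.biUnion (TopologicalSpace.countable_countableBasis G) fun V hV => ?_
    refine MeasurableSet.inter (MeasurableSet.const _) ?_
    exact (ih V (TopologicalSpace.isOpen_of_mem_countableBasis hV)).compl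
  · intro f _ hfm ih W hW
    have : {y : Y | ¬ IsMeagre ({x : G | (x, y) ∈ ⋃ i, f i} ∩ W)} =
        ⋃ i, {y : Y | ¬ IsMeagre ({x : G | (x, y) ∈ f i} ∩ W)} := by
      ext y
      rw [Set.mem_iUnion]
      constructor
      · intro hy
        by_contra hcon
        push Not at hcon
        apply hy
        have h1 : IsMeagre (⋃ i, ({x : G | (x, y) ∈ f i} ∩ W)) :=
          isMeagre_iUnion fun i => by
            have := hcon i
            simpa using this
        refine h1.mono ?_
        rintro x ⟨hx, hxW⟩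
        obtain ⟨i, hi⟩ := Set.mem_iUnion.1 hx
        exact Set.mem_iUnion.2 ⟨i, hi, hxW⟩
      · rintro ⟨i, hi⟩ hm
        apply hi
        refine hm.mono ?_
        rintro x ⟨hx, hxW⟩
        exact ⟨Set.mem_iUnion.2 ⟨i, hx⟩, hxW⟩
    rw [this]
    exact MeasurableSet.iUnion fun i => ih i W hW

theorem dd_supp_meas (U : Type) [TopologicalSpace U] [Group U] [IsTopologicalGroup U] [PolishSpace U]
    (ν : U → ℝ) (hν : IsGNorm ν) (G : Subgroup U) (hG : IsClosed (G : Set U)) (Y : Type)
    [MeasurableSpace Y] (O : Y → Set G)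
    (hO : @MeasurableSet (G × Y) (@Prod.instMeasurableSpace G Y (borel G) _) {q | q.1 ∈ O q.2}) (h : U) :
    Measurable (fun y => dd ν (Subtype.val '' supp (O y)) h) := by
  haveI hP : PolishSpace G := hG.polishSpace
  letI : MeasurableSpace G := borel G
  haveI : BorelSpace G := ⟨rfl⟩
  haveI : BaireSpace G := inferInstance
  haveI : SecondCountableTopology G := inferInstance
  apply measurable_of_Iio
  intro r
  by_cases hr : r ≤ 1
  · have hW : IsOpen {s : G | ν (h⁻¹ * (s : U)) < r} := by
      have hc : Continuous fun s : G => ν (h⁻¹ * (s : U)) :=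
        (nu_cont ν hν).comp (continuous_const.mul continuous_subtype_val)
      exact isOpen_lt hc continuous_const
    have hm := cat_meas {q : G × Y | q.1 ∈ O q.2} hO {s : G | ν (h⁻¹ * (s : U)) < r} hW
    have e : (fun y => dd ν (Subtype.val '' supp (O y)) h) ⁻¹' Set.Iio r =
        {y : Y | ¬ IsMeagre ({x : G | (x, y) ∈ {q : G × Y | q.1 ∈ O q.2}} ∩
          {s : G | ν (h⁻¹ * (s : U)) < r})} := by
      ext y
      rw [Set.mem_preimage, Set.mem_Iio, dd_lt_iff U ν hν _ h r hr]
      have := supp_meets (O y) {s : G | ν (h⁻¹ * (s : U)) < r} hW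
      constructor
      · rintro ⟨s, ⟨t, ht, rfl⟩, hs⟩
        exact this.1 ⟨t, ht, hs⟩
      · intro hy
        obtain ⟨t, ht, hs⟩ := this.2 hy
        exact ⟨t, ⟨t, ht, rfl⟩, hs⟩
    rw [e]
    exact hm
  · have e : (fun y => dd ν (Subtype.val '' supp (O y)) h) ⁻¹' Set.Iio r = Set.univ := by
      ext y
      simp only [Set.mem_preimage, Set.mem_Iio, Set.mem_univ, iff_true]
      have := ((dd_mem U ν hν (Subtype.val '' supp (O y))).1 h).2
      linarith
    rw [e]
    exact MeasurableSet.univ

/-- membership in a subgroup, via the category supports -/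
theorem reductionB_meagre {G : Type} [TopologicalSpace G] [SecondCountableTopology G]
    (A B : Set G) (hA : BaireMeasurableSet A) (hB : BaireMeasurableSet B)
    (h : supp A = supp B) : IsMeagre {x | ¬ (x ∈ A ↔ x ∈ B)} := by
  have h1 := supp_eq A hA
  have h2 := supp_eq B hB
  refine (h1.union h2).mono ?_
  intro x hx
  simp only [Set.mem_setOf_eq] at hx
  rw [h] at *
  by_cases hxA : x ∈ A <;> by_cases hxB : x ∈ B <;> by_cases hxs : x ∈ supp B <;>
    simp_all

theorem reductionB_inj {G : Type} [TopologicalSpace G] [SecondCountableTopology G] [BaireSpace G]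
    [Nonempty G] (A B : ℕ → Set G) (hA : ∀ n, BaireMeasurableSet (A n))
    (hB : ∀ n, BaireMeasurableSet (B n)) (h : ∀ n, supp (A n) = supp (B n)) :
    ∃ x : G, ∀ n, x ∈ A n ↔ x ∈ B n := by
  by_contra hcon
  push Not at hcon
  have h1 : IsMeagre (⋃ n, {x | ¬ (x ∈ A n ↔ x ∈ B n)}) :=
    isMeagre_iUnion (fun n => reductionB_meagre (A n) (B n) (hA n) (hB n) (h n))
  have h2 : (⋃ n, {x | ¬ (x ∈ A n ↔ x ∈ B n)}) = Set.univ := by
    ext x
    simp only [Set.mem_iUnion, Set.mem_setOf_eq, Set.mem_univ, iff_true]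
    obtain ⟨n, hn⟩ := hcon x
    refine ⟨n, ?_⟩
    intro hiff
    rcases hn with ⟨a, b⟩ | ⟨a, b⟩
    · exact b (hiff.1 a)
    · exact a (hiff.2 b)
  rw [h2] at h1
  exact not_isMeagre_of_isOpen isOpen_univ Set.univ_nonempty h1

theorem reductionB (U : Type) [TopologicalSpace U] [Group U] [IsTopologicalGroup U] [PolishSpace U]
    (ν : U → ℝ) (hν : IsGNorm ν) (H : Type) [TopologicalSpace H] [Group H] [IsTopologicalGroup H]
    [PolishSpace H]
    (G : Subgroup U) (p : G →* H) (hG : IsClosed (G : Set U)) (hp : Continuous p)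
    (hps : Function.Surjective p)
    (Y : Type) [MeasurableSpace Y] [StandardBorelSpace Y] (act : H → Y → Y)
    (hone : ∀ y, act 1 y = y) (hmul : ∀ g h y, act (g * h) y = act g (act h y))
    (hmeas : @Measurable (H × Y) Y (@Prod.instMeasurableSpace H Y (borel H) _) _
      (fun q => act q.1 q.2)) :
    ∃ f : Y → (ℕ → KK ν), @Measurable Y (ℕ → KK ν) _ (borel (ℕ → KK ν)) f ∧
      ∀ y y' : Y, (∃ h : H, act h y = y') ↔ ∃ u : U, (fun n => tr ν u (f y n)) = f y' := by
  obtain ⟨V, hVm, hVs⟩ := exists_seq_separating (α := Y) (p := MeasurableSet)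
    MeasurableSet.univ Set.univ
  let O : ℕ → Y → Set G := fun n y => {x | act (p x)⁻¹ y ∈ V n}
  have hO : ∀ n, @MeasurableSet (G × Y) (@Prod.instMeasurableSpace G Y (borel G) _)
      {q | q.1 ∈ O n q.2} := by
    intro n
    letI : MeasurableSpace G := borel G
    haveI : BorelSpace G := ⟨rfl⟩
    letI : MeasurableSpace H := borel H
    haveI : BorelSpace H := ⟨rfl⟩
    have h1 : Measurable (fun x : G => (p x)⁻¹) := (hp.inv).measurable
    have h2 : Measurable (fun q : G × Y => ((p q.1)⁻¹, q.2)) :=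
      (h1.comp measurable_fst).prodMk measurable_snd
    have h3 : Measurable (fun q : G × Y => act (p q.1)⁻¹ q.2) := hmeas.comp h2
    exact h3 (hVm n)
  have hOB : ∀ n y, BaireMeasurableSet (O n y) := by
    intro n y
    letI : MeasurableSpace G := borel G
    haveI : BorelSpace G := ⟨rfl⟩
    have h1 : Measurable (fun x : G => (x, y)) := measurable_id.prodMk measurable_const
    have h2 : MeasurableSet (O n y) := h1 (hO n)
    exact h2.baireMeasurableSet
  let S : ℕ → Y → Set U := fun n y =>
    Nat.casesOn n (G : Set U) (fun m => Subtype.val '' supp (O m y))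
  have hS0 : ∀ y, S 0 y = (G : Set U) := fun y => rfl
  have hS1 : ∀ n y, S (n + 1) y = Subtype.val '' supp (O n y) := fun n y => rfl
  let f : Y → (ℕ → KK ν) := fun y n => ⟨dd ν (S n y), dd_mem U ν hν _⟩
  have hf : ∀ y n h, (f y n).1 h = dd ν (S n y) h := fun y n h => rfl
  -- translation of the sets
  have hSt : ∀ (g : G) (y : Y) (n : ℕ), S n (act (p g) y) = {x | (g : U)⁻¹ * x ∈ S n y} := by
    intro g y n
    cases n with
    | zero =>
      rw [hS0]
      ext x
      simp only [Set.mem_setOf_eq, hS0, SetLike.mem_coe]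
      constructor
      · intro hx; exact G.mul_mem (G.inv_mem g.2) hx
      · intro hx
        have := G.mul_mem g.2 hx
        simpa using this
    | succ n =>
      rw [hS1]
      have h1 : O n (act (p g) y) = {x | g⁻¹ * x ∈ O n y} := by
        ext x
        simp only [O, Set.mem_setOf_eq]
        rw [← hmul, map_mul, map_inv, mul_inv_rev, inv_inv]
      rw [h1, supp_translate]
      ext x
      simp only [Set.mem_setOf_eq, hS1, Set.mem_image, Subtype.exists, exists_and_right,
        exists_eq_right]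
      constructor
      · rintro ⟨hx, hx2⟩
        exact ⟨G.mul_mem (G.inv_mem g.2) hx, hx2⟩
      · rintro ⟨hx, hx2⟩
        have hx' : x ∈ G := by
          have := G.mul_mem g.2 hx
          simpa using this
        exact ⟨hx', hx2⟩
  have hequi : ∀ (g : G) (y : Y), (fun n => tr ν (g : U) (f y n)) = f (act (p g) y) := by
    intro g y
    funext n
    apply Subtype.ext
    funext h
    show dd ν (S n y) ((g : U)⁻¹ * h) = dd ν (S n (act (p g) y)) h
    rw [hSt, dd_translate]
  haveI : PolishSpace G := hG.polishSpace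
  letI := TopologicalSpace.upgradeIsCompletelyMetrizable G
  haveI : BaireSpace G := inferInstance
  have hinj : ∀ y1 y2, f y1 = f y2 → y1 = y2 := by
    intro y1 y2 h12
    have hclos : ∀ n y, IsClosed (S (n + 1) y) := by
      intro n y
      rw [hS1]
      exact hG.isClosedEmbedding_subtypeVal.isClosedMap _ (supp_closed _)
    have hSeq : ∀ n, S (n + 1) y1 = S (n + 1) y2 := by
      intro n
      rw [← (hclos n y1).closure_eq, ← (hclos n y2).closure_eq]
      ext x
      rw [← dd_zero_iff U ν hν, ← dd_zero_iff U ν hν]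
      have h3 : dd ν (S (n + 1) y1) x = dd ν (S (n + 1) y2) x :=
        congrArg (fun F : ℕ → KK ν => (F (n + 1)).1 x) h12
      rw [h3]
    have hsupp : ∀ n, supp (O n y1) = supp (O n y2) := by
      intro n
      have h4 := hSeq n
      rw [hS1, hS1] at h4
      exact Subtype.val_injective.image_injective h4
    haveI : Nonempty G := ⟨1⟩
    obtain ⟨x, hx⟩ := reductionB_inj (fun n => O n y1) (fun n => O n y2)
      (fun n => hOB n y1) (fun n => hOB n y2) hsupp
    have h5 : act (p x)⁻¹ y1 = act (p x)⁻¹ y2 :=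
      hVs _ (Set.mem_univ _) _ (Set.mem_univ _) (fun n => hx n)
    calc y1 = act (p x) (act (p x)⁻¹ y1) := by rw [← hmul, mul_inv_cancel, hone]
      _ = act (p x) (act (p x)⁻¹ y2) := by rw [h5]
      _ = y2 := by rw [← hmul, mul_inv_cancel, hone]
  refine ⟨f, ?_, ?_⟩
  · refine measurable_of_eval U ν hν Y f ?_
    intro n h
    cases n with
    | zero =>
      simp only [hf, hS0]
      exact measurable_const
    | succ n =>
      simp only [hf, hS1]
      exact dd_supp_meas U ν hν G hG Y (O n) (hO n) h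
  · intro y y'
    constructor
    · rintro ⟨h, rfl⟩
      obtain ⟨g, rfl⟩ := hps h
      exact ⟨(g : U), hequi g y⟩
    · rintro ⟨u, hu⟩
      have hu0 : (tr ν u (f y 0)).1 u = (f y' 0).1 u := by
        rw [← hu]
      have hu1 : dd ν (G : Set U) (u⁻¹ * u) = dd ν (G : Set U) u := hu0
      rw [inv_mul_cancel] at hu1
      have hu2 : dd ν (G : Set U) 1 = 0 :=
        (dd_zero_iff U ν hν _ _).2 (subset_closure G.one_mem)
      rw [hu2] at hu1
      have hu3 : u ∈ closure (G : Set U) := (dd_zero_iff U ν hν _ _).1 hu1.symm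
      rw [hG.closure_eq] at hu3
      refine ⟨p ⟨u, hu3⟩, ?_⟩
      apply hinj
      rw [← hequi]
      exact hu

/-- The unitary group of `ℓ²` has one continuous action on a Polish space whose orbit relation
reduces every orbit relation of a Borel action of a Polish group on a standard Borel space. -/
theorem finalB :
    ∃ (X : Type) (_ : TopologicalSpace X) (_ : PolishSpace X) (_ : MeasurableSpace X) (_ : BorelSpace X)
      (a : UU → X → X), (∀ x, a 1 x = x) ∧ (∀ g h x, a (g * h) x = a g (a h x)) ∧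
      Continuous (fun p : UU × X => a p.1 p.2) ∧
      ∀ (H : Type) [TopologicalSpace H] [Group H] [IsTopologicalGroup H] [PolishSpace H]
        (Y : Type) [MeasurableSpace Y] [StandardBorelSpace Y] (act : H → Y → Y),
        (∀ y, act 1 y = y) → (∀ g h y, act (g * h) y = act g (act h y)) →
        (@Measurable (H × Y) Y (@Prod.instMeasurableSpace H Y (borel H) _) _
          (fun q => act q.1 q.2)) →
        ∃ f : Y → X, Measurable f ∧ ∀ y y' : Y, (∃ h : H, act h y = y') ↔ ∃ u : UU, a u (f y) = f y' := by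
  haveI := uu_topgroup
  haveI := uu_polish
  obtain ⟨ν, hν⟩ := group_norm UU
  haveI : PolishSpace (KK ν) := kk_polish UU ν hν
  refine ⟨ℕ → KK ν, inferInstance, inferInstance, borel _, @BorelSpace.mk _ _ (borel _) rfl,
    fun U x n => tr ν U (x n), ?_, ?_, ?_, ?_⟩
  · intro x
    funext n
    apply Subtype.ext
    funext h
    show (x n).1 (1⁻¹ * h) = (x n).1 h
    simp
  · intro U V x
    funext n
    apply Subtype.ext
    funext h
    show (x n).1 ((U * V)⁻¹ * h) = (x n).1 (V⁻¹ * (U⁻¹ * h))
    rw [mul_inv_rev, mul_assoc]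
  · exact act_cont UU ν hν
  · intro H _ _ _ _ Y _ _ act h1 h2 h3
    obtain ⟨G, p, hG, hp, hps⟩ := thmA H
    exact reductionB UU ν hν H G p hG hp hps Y act h1 h2 h3

end Pool.Agent.Helper289.UO
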